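import Pool.Agent.Helper98.CF.SepPretame

set_option autoImplicit false
set_option linter.unusedVariables false
set_option linter.unusedSectionVars false

namespace Pool.Agent.Helper98.CF

open ZFSet

universe u

variable {M : Set ZFSet.{u}} {C : Set (Set ZFSet.{u})} {P R : Set ZFSet.{u}}

/-- `t` is below some `u` with `(u, (z, w)) ∈ a` -/
def Hit (M R : Set ZFSet.{u}) (a t z w : ZFSet.{u}) : Prop :=
  ∃ u ∈ M, pair u (pair z w) ∈ a ∧ pair t u ∈ R

def BL (M R : Set ZFSet.{u}) (a y t z : ZFSet.{u}) : Prop :=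
  ∃ w ∈ M, ∃ s ∈ M, (pair w s ∈ y ∧ pair t s ∈ R) ∧ Hit M R a t z w

def BR (M R : Set ZFSet.{u}) (a x t w : ZFSet.{u}) : Prop :=
  ∃ z ∈ M, ∃ s ∈ M, (pair z s ∈ x ∧ pair t s ∈ R) ∧ Hit M R a t z w

def PlusL (M R : Set ZFSet.{u}) (q a r x y : ZFSet.{u}) : Prop :=
  ∀ z ∈ M, ∀ s ∈ M, pair z s ∈ x → ∀ t ∈ M,
    pair t r ∈ R → pair t s ∈ R → pair t q ∈ R → ∃ t' ∈ M, pair t' t ∈ R ∧ BL M R a y t' z

def PlusR (M R : Set ZFSet.{u}) (q a r x y : ZFSet.{u}) : Prop :=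
  ∀ w ∈ M, ∀ s ∈ M, pair w s ∈ y → ∀ t ∈ M,
    pair t r ∈ R → pair t s ∈ R → pair t q ∈ R → ∃ t' ∈ M, pair t' t ∈ R ∧ BR M R a x t' w

def WL (M R : Set ZFSet.{u}) (b y t z : ZFSet.{u}) : Prop :=
  ∀ w ∈ M, ∀ s ∈ M, pair w s ∈ y → ∀ t2 ∈ M, pair t2 t ∈ R → pair t2 s ∈ R →
    ∃ t3 ∈ M, pair t3 t2 ∈ R ∧ Hit M R b t3 z w

def WR (M R : Set ZFSet.{u}) (b x t w : ZFSet.{u}) : Prop :=
  ∀ z ∈ M, ∀ s ∈ M, pair z s ∈ x → ∀ t2 ∈ M, pair t2 t ∈ R → pair t2 s ∈ R →
    ∃ t3 ∈ M, pair t3 t2 ∈ R ∧ Hit M R b t3 z w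

def MinL (M R : Set ZFSet.{u}) (b t x y : ZFSet.{u}) : Prop :=
  ∃ z ∈ M, ∃ s ∈ M, (pair z s ∈ x ∧ pair t s ∈ R) ∧ WL M R b y t z

def MinR (M R : Set ZFSet.{u}) (b t x y : ZFSet.{u}) : Prop :=
  ∃ w ∈ M, ∃ s ∈ M, (pair w s ∈ y ∧ pair t s ∈ R) ∧ WR M R b x t w

def Minus (M R : Set ZFSet.{u}) (q b r x y : ZFSet.{u}) : Prop :=
  ∀ t ∈ M, pair t r ∈ R → pair t q ∈ R →
    ∃ t' ∈ M, pair t' t ∈ R ∧ (MinL M R b t' x y ∨ MinR M R b t' x y)

/-- a decision system below `q` -/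
def Sys (M R : Set ZFSet.{u}) (q a b : ZFSet.{u}) : Prop :=
  (∀ r ∈ M, ∀ x ∈ M, ∀ y ∈ M, pair r (pair x y) ∈ a →
    PlusL M R q a r x y ∧ PlusR M R q a r x y) ∧
  (∀ r ∈ M, ∀ x ∈ M, ∀ y ∈ M, pair r (pair x y) ∈ b → Minus M R q b r x y)

/-- `r` decides `x = y` positively -/
def Ep (M R : Set ZFSet.{u}) (r x y : ZFSet.{u}) : Prop :=
  ∃ q ∈ M, ∃ a ∈ M, ∃ b ∈ M, Sys M R q a b ∧ pair r q ∈ R ∧ Hit M R a r x y

/-- `r` decides `x = y` negatively -/
def Em (M R : Set ZFSet.{u}) (r x y : ZFSet.{u}) : Prop :=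
  ∃ q ∈ M, ∃ a ∈ M, ∃ b ∈ M, Sys M R q a b ∧ pair r q ∈ R ∧ Hit M R b r x y

section dfn

variable (h : IsGBC M C) (hP : IsForcing C P R)
include h hP

theorem dfn_Hit {f1 f2 f3 f4 : (ℕ → ZFSet.{u}) → ZFSet.{u}} (h1 : DfnF M C f1)
    (h2 : DfnF M C f2) (h3 : DfnF M C f3) (h4 : DfnF M C f4) :
    Dfn M C (fun e => Hit M R (f1 e) (f2 e) (f3 e) (f4 e)) := by
  refine comp4 (P := fun a b c d => Hit M R a b c d) ?_ h1 h2 h3 h4
  unfold Hit
  have := h.univ_mem
  repeat' first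
    | exact h.proj _
    | assumption
    | apply dfn_le h hP
    | apply h.allIn | apply h.exIn | apply h.allC | apply h.exC
    | apply Dfn.and | apply Dfn.or | apply Dfn.iff | apply Dfn.not | apply Dfn.imp
    | apply h.Feq | apply h.Fmem | apply IsGBC.Fcls | apply h.Fpair

theorem dfn_BL {f1 f2 f3 f4 : (ℕ → ZFSet.{u}) → ZFSet.{u}} (h1 : DfnF M C f1)
    (h2 : DfnF M C f2) (h3 : DfnF M C f3) (h4 : DfnF M C f4) :
    Dfn M C (fun e => BL M R (f1 e) (f2 e) (f3 e) (f4 e)) := by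
  refine comp4 (P := fun a b c d => BL M R a b c d) ?_ h1 h2 h3 h4
  unfold BL
  have := h.univ_mem
  repeat' first
    | exact h.proj _
    | assumption
    | apply dfn_le h hP | apply dfn_Hit h hP
    | apply h.allIn | apply h.exIn | apply h.allC | apply h.exC
    | apply Dfn.and | apply Dfn.or | apply Dfn.iff | apply Dfn.not | apply Dfn.imp
    | apply h.Feq | apply h.Fmem | apply IsGBC.Fcls | apply h.Fpair

theorem dfn_BR {f1 f2 f3 f4 : (ℕ → ZFSet.{u}) → ZFSet.{u}} (h1 : DfnF M C f1)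
    (h2 : DfnF M C f2) (h3 : DfnF M C f3) (h4 : DfnF M C f4) :
    Dfn M C (fun e => BR M R (f1 e) (f2 e) (f3 e) (f4 e)) := by
  refine comp4 (P := fun a b c d => BR M R a b c d) ?_ h1 h2 h3 h4
  unfold BR
  have := h.univ_mem
  repeat' first
    | exact h.proj _
    | assumption
    | apply dfn_le h hP | apply dfn_Hit h hP
    | apply h.allIn | apply h.exIn | apply h.allC | apply h.exC
    | apply Dfn.and | apply Dfn.or | apply Dfn.iff | apply Dfn.not | apply Dfn.imp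
    | apply h.Feq | apply h.Fmem | apply IsGBC.Fcls | apply h.Fpair

theorem dfn_WL {f1 f2 f3 f4 : (ℕ → ZFSet.{u}) → ZFSet.{u}} (h1 : DfnF M C f1)
    (h2 : DfnF M C f2) (h3 : DfnF M C f3) (h4 : DfnF M C f4) :
    Dfn M C (fun e => WL M R (f1 e) (f2 e) (f3 e) (f4 e)) := by
  refine comp4 (P := fun a b c d => WL M R a b c d) ?_ h1 h2 h3 h4
  unfold WL
  have := h.univ_mem
  repeat' first
    | exact h.proj _
    | assumption
    | apply dfn_le h hP | apply dfn_Hit h hP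
    | apply h.allIn | apply h.exIn | apply h.allC | apply h.exC
    | apply Dfn.and | apply Dfn.or | apply Dfn.iff | apply Dfn.not | apply Dfn.imp
    | apply h.Feq | apply h.Fmem | apply IsGBC.Fcls | apply h.Fpair

theorem dfn_WR {f1 f2 f3 f4 : (ℕ → ZFSet.{u}) → ZFSet.{u}} (h1 : DfnF M C f1)
    (h2 : DfnF M C f2) (h3 : DfnF M C f3) (h4 : DfnF M C f4) :
    Dfn M C (fun e => WR M R (f1 e) (f2 e) (f3 e) (f4 e)) := by
  refine comp4 (P := fun a b c d => WR M R a b c d) ?_ h1 h2 h3 h4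
  unfold WR
  have := h.univ_mem
  repeat' first
    | exact h.proj _
    | assumption
    | apply dfn_le h hP | apply dfn_Hit h hP
    | apply h.allIn | apply h.exIn | apply h.allC | apply h.exC
    | apply Dfn.and | apply Dfn.or | apply Dfn.iff | apply Dfn.not | apply Dfn.imp
    | apply h.Feq | apply h.Fmem | apply IsGBC.Fcls | apply h.Fpair

theorem dfn_PlusL {f1 f2 f3 f4 f5 : (ℕ → ZFSet.{u}) → ZFSet.{u}} (h1 : DfnF M C f1)
    (h2 : DfnF M C f2) (h3 : DfnF M C f3) (h4 : DfnF M C f4) (h5 : DfnF M C f5) :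
    Dfn M C (fun e => PlusL M R (f1 e) (f2 e) (f3 e) (f4 e) (f5 e)) := by
  refine comp5 (P := fun a b c d k => PlusL M R a b c d k) ?_ h1 h2 h3 h4 h5
  unfold PlusL
  have := h.univ_mem
  repeat' first
    | exact h.proj _
    | assumption
    | apply dfn_le h hP | apply dfn_BL h hP
    | apply h.allIn | apply h.exIn | apply h.allC | apply h.exC
    | apply Dfn.and | apply Dfn.or | apply Dfn.iff | apply Dfn.not | apply Dfn.imp
    | apply h.Feq | apply h.Fmem | apply IsGBC.Fcls | apply h.Fpair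

theorem dfn_PlusR {f1 f2 f3 f4 f5 : (ℕ → ZFSet.{u}) → ZFSet.{u}} (h1 : DfnF M C f1)
    (h2 : DfnF M C f2) (h3 : DfnF M C f3) (h4 : DfnF M C f4) (h5 : DfnF M C f5) :
    Dfn M C (fun e => PlusR M R (f1 e) (f2 e) (f3 e) (f4 e) (f5 e)) := by
  refine comp5 (P := fun a b c d k => PlusR M R a b c d k) ?_ h1 h2 h3 h4 h5
  unfold PlusR
  have := h.univ_mem
  repeat' first
    | exact h.proj _
    | assumption
    | apply dfn_le h hP | apply dfn_BR h hP
    | apply h.allIn | apply h.exIn | apply h.allC | apply h.exC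
    | apply Dfn.and | apply Dfn.or | apply Dfn.iff | apply Dfn.not | apply Dfn.imp
    | apply h.Feq | apply h.Fmem | apply IsGBC.Fcls | apply h.Fpair

theorem dfn_MinL {f1 f2 f3 f4 : (ℕ → ZFSet.{u}) → ZFSet.{u}} (h1 : DfnF M C f1)
    (h2 : DfnF M C f2) (h3 : DfnF M C f3) (h4 : DfnF M C f4) :
    Dfn M C (fun e => MinL M R (f1 e) (f2 e) (f3 e) (f4 e)) := by
  refine comp4 (P := fun a b c d => MinL M R a b c d) ?_ h1 h2 h3 h4
  unfold MinL
  have := h.univ_mem
  repeat' first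
    | exact h.proj _
    | assumption
    | apply dfn_le h hP | apply dfn_WL h hP
    | apply h.allIn | apply h.exIn | apply h.allC | apply h.exC
    | apply Dfn.and | apply Dfn.or | apply Dfn.iff | apply Dfn.not | apply Dfn.imp
    | apply h.Feq | apply h.Fmem | apply IsGBC.Fcls | apply h.Fpair

theorem dfn_MinR {f1 f2 f3 f4 : (ℕ → ZFSet.{u}) → ZFSet.{u}} (h1 : DfnF M C f1)
    (h2 : DfnF M C f2) (h3 : DfnF M C f3) (h4 : DfnF M C f4) :
    Dfn M C (fun e => MinR M R (f1 e) (f2 e) (f3 e) (f4 e)) := by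
  refine comp4 (P := fun a b c d => MinR M R a b c d) ?_ h1 h2 h3 h4
  unfold MinR
  have := h.univ_mem
  repeat' first
    | exact h.proj _
    | assumption
    | apply dfn_le h hP | apply dfn_WR h hP
    | apply h.allIn | apply h.exIn | apply h.allC | apply h.exC
    | apply Dfn.and | apply Dfn.or | apply Dfn.iff | apply Dfn.not | apply Dfn.imp
    | apply h.Feq | apply h.Fmem | apply IsGBC.Fcls | apply h.Fpair

theorem dfn_Minus {f1 f2 f3 f4 f5 : (ℕ → ZFSet.{u}) → ZFSet.{u}} (h1 : DfnF M C f1)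
    (h2 : DfnF M C f2) (h3 : DfnF M C f3) (h4 : DfnF M C f4) (h5 : DfnF M C f5) :
    Dfn M C (fun e => Minus M R (f1 e) (f2 e) (f3 e) (f4 e) (f5 e)) := by
  refine comp5 (P := fun a b c d k => Minus M R a b c d k) ?_ h1 h2 h3 h4 h5
  unfold Minus
  have := h.univ_mem
  repeat' first
    | exact h.proj _
    | assumption
    | apply dfn_le h hP | apply dfn_MinL h hP | apply dfn_MinR h hP
    | apply h.allIn | apply h.exIn | apply h.allC | apply h.exC
    | apply Dfn.and | apply Dfn.or | apply Dfn.iff | apply Dfn.not | apply Dfn.imp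
    | apply h.Feq | apply h.Fmem | apply IsGBC.Fcls | apply h.Fpair

theorem dfn_Sys {f1 f2 f3 : (ℕ → ZFSet.{u}) → ZFSet.{u}} (h1 : DfnF M C f1)
    (h2 : DfnF M C f2) (h3 : DfnF M C f3) :
    Dfn M C (fun e => Sys M R (f1 e) (f2 e) (f3 e)) := by
  refine comp3 (P := fun a b c => Sys M R a b c) ?_ h1 h2 h3
  unfold Sys
  have := h.univ_mem
  repeat' first
    | exact h.proj _
    | assumption
    | apply dfn_le h hP | apply dfn_PlusL h hP | apply dfn_PlusR h hP | apply dfn_Minus h hP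
    | apply h.allIn | apply h.exIn | apply h.allC | apply h.exC
    | apply Dfn.and | apply Dfn.or | apply Dfn.iff | apply Dfn.not | apply Dfn.imp
    | apply h.Feq | apply h.Fmem | apply IsGBC.Fcls | apply h.Fpair

theorem dfn_Ep {f1 f2 f3 : (ℕ → ZFSet.{u}) → ZFSet.{u}} (h1 : DfnF M C f1)
    (h2 : DfnF M C f2) (h3 : DfnF M C f3) :
    Dfn M C (fun e => Ep M R (f1 e) (f2 e) (f3 e)) := by
  refine comp3 (P := fun a b c => Ep M R a b c) ?_ h1 h2 h3
  unfold Ep
  have := h.univ_mem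
  repeat' first
    | exact h.proj _
    | assumption
    | apply dfn_le h hP | apply dfn_Sys h hP | apply dfn_Hit h hP
    | apply h.allIn | apply h.exIn | apply h.allC | apply h.exC
    | apply Dfn.and | apply Dfn.or | apply Dfn.iff | apply Dfn.not | apply Dfn.imp
    | apply h.Feq | apply h.Fmem | apply IsGBC.Fcls | apply h.Fpair

theorem dfn_Em {f1 f2 f3 : (ℕ → ZFSet.{u}) → ZFSet.{u}} (h1 : DfnF M C f1)
    (h2 : DfnF M C f2) (h3 : DfnF M C f3) :
    Dfn M C (fun e => Em M R (f1 e) (f2 e) (f3 e)) := by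
  refine comp3 (P := fun a b c => Em M R a b c) ?_ h1 h2 h3
  unfold Em
  have := h.univ_mem
  repeat' first
    | exact h.proj _
    | assumption
    | apply dfn_le h hP | apply dfn_Sys h hP | apply dfn_Hit h hP
    | apply h.allIn | apply h.exIn | apply h.allC | apply h.exC
    | apply Dfn.and | apply Dfn.or | apply Dfn.iff | apply Dfn.not | apply Dfn.imp
    | apply h.Feq | apply h.Fmem | apply IsGBC.Fcls | apply h.Fpair

end dfn

section sound

variable (h : IsGBC M C) (hP : IsForcing C P R) {G : Set ZFSet.{u}} (hG : Generic C P R G)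
include h hP hG

theorem dir3 {p q r : ZFSet.{u}} (hp : p ∈ G) (hq : q ∈ G) (hr : r ∈ G) :
    ∃ t ∈ G, pair t p ∈ R ∧ pair t q ∈ R ∧ pair t r ∈ R := by
  obtain ⟨t1, ht1, h1, h2⟩ := hG.directed p hp q hq
  obtain ⟨t2, ht2, h3, h4⟩ := hG.directed t1 ht1 r hr
  exact ⟨t2, ht2, hP.trans _ _ _ h3 h1, hP.trans _ _ _ h3 h2, h4⟩

theorem gM {p : ZFSet.{u}} (hp : p ∈ G) : p ∈ M := h.classes _ hP.carrier_mem (hG.sub hp)

/-- soundness of decision systems -/
theorem sys_sound {q a b : ZFSet.{u}} (hq : q ∈ G) (haM : a ∈ M) (hbM : b ∈ M)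
    (hS : Sys M R q a b) : ∀ x, x ∈ M → ∀ y ∈ M, ∀ r ∈ G,
      (pair r (pair x y) ∈ a → val G x = val G y) ∧
      (pair r (pair x y) ∈ b → val G x ≠ val G y) := by
  intro x
  induction hr : rank x using WellFoundedLT.induction generalizing x with
  | _ o ih =>
  intro hx y hy r hrG
  have hrM := gM h hP hG hrG
  have hqM := gM h hP hG hq
  -- consequences of the induction hypothesis for children
  have ihp : ∀ z s w, pair z s ∈ x → w ∈ M → ∀ t ∈ G, Hit M R a t z w → val G z = val G w := by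
    rintro z s w hzs hw t ht ⟨u, hu, hua, htu⟩
    exact (ih (rank z) (by rw [← hr]; exact rank_lt_pair hzs) z rfl
      (h.of_pair_mem_mem hx hzs).1 w hw u (hG.upward _ ht _ htu)).1 hua
  have ihm : ∀ z s w, pair z s ∈ x → w ∈ M → ∀ t ∈ G, Hit M R b t z w → val G z ≠ val G w := by
    rintro z s w hzs hw t ht ⟨u, hu, hua, htu⟩
    exact (ih (rank z) (by rw [← hr]; exact rank_lt_pair hzs) z rfl
      (h.of_pair_mem_mem hx hzs).1 w hw u (hG.upward _ ht _ htu)).2 hua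
  constructor
  · intro hmem
    obtain ⟨hL, hR⟩ := hS.1 r hrM x hx y hy hmem
    ext v
    constructor
    · intro hv
      obtain ⟨z, s, hs, hzs, rfl⟩ := mem_val.1 hv
      obtain ⟨hzM, hsM⟩ := h.of_pair_mem_mem hx hzs
      obtain ⟨t0, ht0, h1, h2, h3⟩ := dir3 h hP hG hrG hs hq
      obtain ⟨t', ht', ⟨w, hw, s', hs', ⟨hws, hts'⟩, hhit⟩, _⟩ := hG.meets_below h hP
        (A := fun t => BL M R a y t z)
        (dfn_BL h hP (h.const haM) (h.const hy) (h.proj 0) (h.const hzM)) ht0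
        (fun t ht => by
          obtain ⟨t', _, h4, h5⟩ := hL z hzM s hsM hzs t
            (h.classes _ hP.carrier_mem (hP.left_mem ht)) (hP.trans _ _ _ ht h1)
            (hP.trans _ _ _ ht h2) (hP.trans _ _ _ ht h3)
          exact ⟨t', h4, h5⟩)
      rw [ihp z s w hzs hw t' ht' hhit]
      exact mem_val.2 ⟨w, s', hG.upward _ ht' _ hts', hws, rfl⟩
    · intro hv
      obtain ⟨w, s, hs, hws, rfl⟩ := mem_val.1 hv
      obtain ⟨hwM, hsM⟩ := h.of_pair_mem_mem hy hws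
      obtain ⟨t0, ht0, h1, h2, h3⟩ := dir3 h hP hG hrG hs hq
      obtain ⟨t', ht', ⟨z, hz, s', hs', ⟨hzs, hts'⟩, hhit⟩, _⟩ := hG.meets_below h hP
        (A := fun t => BR M R a x t w)
        (dfn_BR h hP (h.const haM) (h.const hx) (h.proj 0) (h.const hwM)) ht0
        (fun t ht => by
          obtain ⟨t', _, h4, h5⟩ := hR w hwM s hsM hws t
            (h.classes _ hP.carrier_mem (hP.left_mem ht)) (hP.trans _ _ _ ht h1)
            (hP.trans _ _ _ ht h2) (hP.trans _ _ _ ht h3)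
          exact ⟨t', h4, h5⟩)
      rw [← ihp z s' w hzs hwM t' ht' hhit]
      exact mem_val.2 ⟨z, s', hG.upward _ ht' _ hts', hzs, rfl⟩
  · intro hmem heq
    have hmin := hS.2 r hrM x hx y hy hmem
    obtain ⟨t0, ht0, h1, h2⟩ := hG.directed r hrG q hq
    obtain ⟨t', ht', hcase, _⟩ := hG.meets_below h hP
      (A := fun t => MinL M R b t x y ∨ MinR M R b t x y)
      ((dfn_MinL h hP (h.const hbM) (h.proj 0) (h.const hx) (h.const hy)).or
        (dfn_MinR h hP (h.const hbM) (h.proj 0) (h.const hx) (h.const hy))) ht0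
      (fun t ht => by
        obtain ⟨t', _, h4, h5⟩ := hmin t (h.classes _ hP.carrier_mem (hP.left_mem ht))
          (hP.trans _ _ _ ht h1) (hP.trans _ _ _ ht h2)
        exact ⟨t', h4, h5⟩)
    have ht'M := gM h hP hG ht'
    rcases hcase with ⟨z, hz, s, hs, ⟨hzs, hts⟩, hW⟩ | ⟨w, hw, s, hs, ⟨hws, hts⟩, hW⟩
    · have hv : val G z ∈ val G x := mem_val.2 ⟨z, s, hG.upward _ ht' _ hts, hzs, rfl⟩
      rw [heq] at hv
      obtain ⟨w, s', hs'G, hws, e⟩ := mem_val.1 hv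
      obtain ⟨hwM, hs'M⟩ := h.of_pair_mem_mem hy hws
      obtain ⟨t2, ht2, h3, h4⟩ := hG.directed t' ht' s' hs'G
      obtain ⟨t3, ht3, hhit, _⟩ := hG.meets_below h hP
        (A := fun t => Hit M R b t z w)
        (dfn_Hit h hP (h.const hbM) (h.proj 0) (h.const hz) (h.const hwM)) ht2
        (fun t ht => by
          obtain ⟨t3, _, h5, h6⟩ := hW w hwM s' hs'M hws t
            (h.classes _ hP.carrier_mem (hP.left_mem ht))
            (hP.trans _ _ _ ht h3) (hP.trans _ _ _ ht h4)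
          exact ⟨t3, h5, h6⟩)
      exact ihm z s w hzs hwM t3 ht3 hhit e
    · have hv : val G w ∈ val G y := mem_val.2 ⟨w, s, hG.upward _ ht' _ hts, hws, rfl⟩
      rw [← heq] at hv
      obtain ⟨z, s', hs'G, hzs, e⟩ := mem_val.1 hv
      obtain ⟨hzM, hs'M⟩ := h.of_pair_mem_mem hx hzs
      obtain ⟨t2, ht2, h3, h4⟩ := hG.directed t' ht' s' hs'G
      obtain ⟨t3, ht3, hhit, _⟩ := hG.meets_below h hP
        (A := fun t => Hit M R b t z w)
        (dfn_Hit h hP (h.const hbM) (h.proj 0) (h.const hzM) (h.const hw)) ht2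
        (fun t ht => by
          obtain ⟨t3, _, h5, h6⟩ := hW z hzM s' hs'M hzs t
            (h.classes _ hP.carrier_mem (hP.left_mem ht))
            (hP.trans _ _ _ ht h3) (hP.trans _ _ _ ht h4)
          exact ⟨t3, h5, h6⟩)
      exact ihm z s' w hzs hw t3 ht3 hhit e.symm

theorem Ep_sound {r x y : ZFSet.{u}} (hr : r ∈ G) (hx : x ∈ M) (hy : y ∈ M)
    (hE : Ep M R r x y) : val G x = val G y := by
  obtain ⟨q, hq, a, ha, b, hb, hS, hrq, u, hu, hua, hru⟩ := hE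
  exact (sys_sound h hP hG (hG.upward _ hr _ hrq) ha hb hS x hx y hy u
    (hG.upward _ hr _ hru)).1 hua

theorem Em_sound {r x y : ZFSet.{u}} (hr : r ∈ G) (hx : x ∈ M) (hy : y ∈ M)
    (hE : Em M R r x y) : val G x ≠ val G y := by
  obtain ⟨q, hq, a, ha, b, hb, hS, hrq, u, hu, hua, hru⟩ := hE
  exact (sys_sound h hP hG (hG.upward _ hr _ hrq) ha hb hS x hx y hy u
    (hG.upward _ hr _ hru)).2 hua

end sound

end Pool.Agent.Helper98.CF
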