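import Pool.Agent.Helper98.CF.Atomic

set_option autoImplicit false
set_option linter.unusedVariables false
set_option linter.unusedSectionVars false

namespace Pool.Agent.Helper98.CF

open ZFSet

universe u

variable {M : Set ZFSet.{u}} {C : Set (Set ZFSet.{u})} {P R : Set ZFSet.{u}}

theorem Hit.mono {a a' t z w : ZFSet.{u}} (ha : a ⊆ a') (H : Hit M R a t z w) :
    Hit M R a' t z w := by
  obtain ⟨u, hu, h1, h2⟩ := H
  exact ⟨u, hu, ha h1, h2⟩

theorem BL.mono {a a' y t z : ZFSet.{u}} (ha : a ⊆ a') (H : BL M R a y t z) :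
    BL M R a' y t z := by
  obtain ⟨w, hw, s, hs, h1, h2⟩ := H
  exact ⟨w, hw, s, hs, h1, h2.mono ha⟩

theorem BR.mono {a a' x t w : ZFSet.{u}} (ha : a ⊆ a') (H : BR M R a x t w) :
    BR M R a' x t w := by
  obtain ⟨z, hz, s, hs, h1, h2⟩ := H
  exact ⟨z, hz, s, hs, h1, h2.mono ha⟩

theorem PlusL.mono {q a a' r x y : ZFSet.{u}} (ha : a ⊆ a') (H : PlusL M R q a r x y) :
    PlusL M R q a' r x y := by
  intro z hz s hs hzs t ht h1 h2 h3
  obtain ⟨t', ht', h4, h5⟩ := H z hz s hs hzs t ht h1 h2 h3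
  exact ⟨t', ht', h4, h5.mono ha⟩

theorem PlusR.mono {q a a' r x y : ZFSet.{u}} (ha : a ⊆ a') (H : PlusR M R q a r x y) :
    PlusR M R q a' r x y := by
  intro z hz s hs hzs t ht h1 h2 h3
  obtain ⟨t', ht', h4, h5⟩ := H z hz s hs hzs t ht h1 h2 h3
  exact ⟨t', ht', h4, h5.mono ha⟩

theorem WL.mono {b b' y t z : ZFSet.{u}} (hb : b ⊆ b') (H : WL M R b y t z) :
    WL M R b' y t z := by
  intro w hw s hs hws t2 ht2 h1 h2
  obtain ⟨t3, ht3, h4, h5⟩ := H w hw s hs hws t2 ht2 h1 h2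
  exact ⟨t3, ht3, h4, h5.mono hb⟩

theorem WR.mono {b b' x t w : ZFSet.{u}} (hb : b ⊆ b') (H : WR M R b x t w) :
    WR M R b' x t w := by
  intro z hz s hs hzs t2 ht2 h1 h2
  obtain ⟨t3, ht3, h4, h5⟩ := H z hz s hs hzs t2 ht2 h1 h2
  exact ⟨t3, ht3, h4, h5.mono hb⟩

theorem MinL.mono {b b' t x y : ZFSet.{u}} (hb : b ⊆ b') (H : MinL M R b t x y) :
    MinL M R b' t x y := by
  obtain ⟨z, hz, s, hs, h1, h2⟩ := H
  exact ⟨z, hz, s, hs, h1, h2.mono hb⟩

theorem MinR.mono {b b' t x y : ZFSet.{u}} (hb : b ⊆ b') (H : MinR M R b t x y) :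
    MinR M R b' t x y := by
  obtain ⟨z, hz, s, hs, h1, h2⟩ := H
  exact ⟨z, hz, s, hs, h1, h2.mono hb⟩

theorem Minus.mono {q b b' r x y : ZFSet.{u}} (hb : b ⊆ b') (H : Minus M R q b r x y) :
    Minus M R q b' r x y := by
  intro t ht h1 h2
  obtain ⟨t', ht', h3, h4⟩ := H t ht h1 h2
  exact ⟨t', ht', h3, h4.imp (fun H => H.mono hb) (fun H => H.mono hb)⟩

/-- in pretame forcings, equality of names can be decided densely by decision systems -/
theorem decide_eq (h : IsGBC M C) (hP : IsForcing C P R) (hC : C.Countable)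
    (hpt : Pretame M C P R) : ∀ x, x ∈ M → ∀ y ∈ M, ∀ p ∈ P,
      ∃ r, pair r p ∈ R ∧ (Ep M R r x y ∨ Em M R r x y) := by
  intro x
  induction hrk : rank x using WellFoundedLT.induction generalizing x with
  | _ o ih =>
  intro hx y hy p hp
  have hPM := h.classes _ hP.carrier_mem
  have hpM := hPM hp
  have univM := h.univ_mem
  -- the sets of smaller names
  set ltx : ZFSet.{u} := ZFSet.sep (fun z => rank z < rank x) (lev M x) with hltx
  have hltxM : ltx ∈ M := h.sep_mem' (P := fun z => rank z < rank x)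
    (h.rank_lt_dfn (h.proj 0) (h.const hx)) (h.lev_mem hx)
  have memltx : ∀ z, z ∈ ltx ↔ z ∈ M ∧ rank z < rank x := by
    intro z
    rw [hltx, ZFSet.mem_sep, mem_lev]
    exact ⟨fun H => ⟨H.1.1, H.2⟩, fun H => ⟨⟨H.1, H.2.le⟩, H.2⟩⟩
  set ly : ZFSet.{u} := lev M y with hly
  have hlyM : ly ∈ M := h.lev_mem hy
  have memly : ∀ w, w ∈ ly ↔ w ∈ M ∧ rank w ≤ rank y := fun w => mem_lev
  set I : ZFSet.{u} := ZFSet.prod ltx ly with hI
  have hIM : I ∈ M := h.prod_mem hltxM hlyM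
  have memI : ∀ z w, pair z w ∈ I ↔ z ∈ ltx ∧ w ∈ ly := fun z w => pair_mem_prod
  let D : Set ZFSet.{u} := {v | v ∈ M ∧ ∃ z ∈ M, ∃ w ∈ M, ∃ r ∈ M, v = pair (pair z w) r ∧
    (Ep M R r z w ∨ Em M R r z w)}
  have hDC : D ∈ C := by
    refine h.cls1 (P := fun v => ∃ z ∈ M, ∃ w ∈ M, ∃ r ∈ M, v = pair (pair z w) r ∧
      (Ep M R r z w ∨ Em M R r z w)) ?_
    repeat' first
      | exact h.proj _
      | assumption
      | apply dfn_le h hP | apply dfn_Ep h hP | apply dfn_Em h hP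
      | apply h.allIn | apply h.exIn | apply h.allC | apply h.exC
      | apply Dfn.and | apply Dfn.or | apply Dfn.iff | apply Dfn.not | apply Dfn.imp
      | apply h.Feq | apply h.Fmem | apply IsGBC.Fcls | apply h.Fpair
  have memD : ∀ z w r, pair (pair z w) r ∈ D → Ep M R r z w ∨ Em M R r z w := by
    rintro z w r ⟨_, z', _, w', _, r', _, e, H⟩
    rw [pair_inj, pair_inj] at e
    obtain ⟨⟨rfl, rfl⟩, rfl⟩ := e
    exact H
  obtain ⟨q, hqp, d, hd, hdD, hpre⟩ := hpt p hp I hIM D hDC (by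
    intro i hi q0 hq0
    rw [hI, mem_prod] at hi
    obtain ⟨z, hz, w, hw, rfl⟩ := hi
    have hz' := (memltx z).1 hz
    have hw' := (memly w).1 hw
    obtain ⟨r, hr, H⟩ := ih (rank z) (by rw [← hrk]; exact hz'.2) z rfl hz'.1 w hw'.1 q0
      (hP.left_mem hq0)
    have hrM := hPM (hP.left_mem hr)
    exact ⟨r, hr, h.pair_mem (h.pair_mem hz'.1 hw'.1) hrM, z, hz'.1, w, hw'.1, r, hrM, rfl, H⟩)
  have hqP := hP.left_mem hqp
  have hqM := hPM hqP
  -- the sets `a` and `b`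
  have mk : ∀ (E : ZFSet.{u} → ZFSet.{u} → ZFSet.{u} → Prop),
      (∀ {f1 f2 f3 : (ℕ → ZFSet.{u}) → ZFSet.{u}}, DfnF M C f1 → DfnF M C f2 → DfnF M C f3 →
        Dfn M C (fun e => E (f1 e) (f2 e) (f3 e))) →
      ∃ a ∈ M, ∀ u z w, pair u (pair z w) ∈ a ↔
        pair (pair z w) u ∈ d ∧ pair z w ∈ I ∧ E u z w := by
    intro E hE
    obtain ⟨a, haM, ha⟩ := h.repl (R := fun v v' => ∃ z ∈ M, ∃ w ∈ M, ∃ u ∈ M,
        v = pair (pair z w) u ∧ v' = pair u (pair z w) ∧ pair z w ∈ I ∧ E u z w) (by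
      have := h.const hIM
      repeat' first
        | exact h.proj _
        | assumption
        | apply hE
        | apply h.allIn | apply h.exIn | apply h.allC | apply h.exC
        | apply Dfn.and | apply Dfn.or | apply Dfn.iff | apply Dfn.not | apply Dfn.imp
        | apply h.Feq | apply h.Fmem | apply IsGBC.Fcls | apply h.Fpair) (by
      rintro v _ v1 _ v2 _ ⟨z, _, w, _, u, _, e1, e2, _⟩ ⟨z', _, w', _, u', _, e1', e2', _⟩
      rw [e1, pair_inj, pair_inj] at e1'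
      obtain ⟨⟨rfl, rfl⟩, rfl⟩ := e1'
      rw [e2, e2']) hd
    refine ⟨a, haM, fun u z w => ?_⟩
    rw [ha]
    constructor
    · rintro ⟨_, v, hv, z', _, w', _, u', _, e1, e2, h1, h2⟩
      rw [pair_inj, pair_inj] at e2
      obtain ⟨rfl, rfl, rfl⟩ := e2
      exact ⟨e1 ▸ hv, h1, h2⟩
    · rintro ⟨h1, h2, h3⟩
      obtain ⟨hzw, hu⟩ := h.of_pair_mem_mem hd h1
      obtain ⟨hz, hw⟩ := h.of_pair_mem hzw
      exact ⟨h.pair_mem hu hzw, _, h1, z, hz, w, hw, u, hu, rfl, rfl, h2, h3⟩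
  obtain ⟨a, haM, mema⟩ := mk (fun u z w => Ep M R u z w) (fun h1 h2 h3 => dfn_Ep h hP h1 h2 h3)
  obtain ⟨b, hbM, memb⟩ := mk (fun u z w => Em M R u z w) (fun h1 h2 h3 => dfn_Em h hP h1 h2 h3)
  -- predensity
  have PD : ∀ z ∈ ltx, ∀ w ∈ ly, ∀ t2, pair t2 q ∈ R →
      ∃ t3 ∈ M, pair t3 t2 ∈ R ∧ (Hit M R a t3 z w ∨ Hit M R b t3 z w) := by
    intro z hz w hw t2 ht2
    obtain ⟨s, hs, t3, h1, h2⟩ := hpre (pair z w) ((memI z w).2 ⟨hz, hw⟩) t2 ht2
    have ht3M := hPM (hP.left_mem h1)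
    have hsM := hPM (hP.right_mem h1)
    refine ⟨t3, ht3M, h2, ?_⟩
    rcases memD z w s (hdD _ hs) with H | H
    · exact Or.inl ⟨s, hsM, (mema s z w).2 ⟨hs, (memI z w).2 ⟨hz, hw⟩, H⟩, h1⟩
    · exact Or.inr ⟨s, hsM, (memb s z w).2 ⟨hs, (memI z w).2 ⟨hz, hw⟩, H⟩, h1⟩
  -- dichotomies
  have dichL : ∀ y' , (∀ w s, pair w s ∈ y' → w ∈ ly) → ∀ z ∈ ltx, ∀ t1, pair t1 q ∈ R →
      WL M R b y' t1 z ∨ ∃ t3 ∈ M, pair t3 t1 ∈ R ∧ BL M R a y' t3 z := by
    intro y' hy' z hz t1 ht1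
    by_contra hcon
    push Not at hcon
    obtain ⟨h1, h2⟩ := hcon
    refine h1 fun w hw s hs hws t2 ht2 h21 h2s => ?_
    obtain ⟨t3, ht3M, h32, H⟩ := PD z hz w (hy' w s hws) t2 (hP.trans _ _ _ h21 ht1)
    rcases H with H | H
    · exact absurd ⟨w, hw, s, hs, ⟨hws, hP.trans _ _ _ h32 h2s⟩, H⟩
        (h2 t3 ht3M (hP.trans _ _ _ h32 h21))
    · exact ⟨t3, ht3M, h32, H⟩
  have dichR : ∀ x' , (∀ z s, pair z s ∈ x' → z ∈ ltx) → ∀ w ∈ ly, ∀ t1, pair t1 q ∈ R →
      WR M R b x' t1 w ∨ ∃ t3 ∈ M, pair t3 t1 ∈ R ∧ BR M R a x' t3 w := by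
    intro x' hx' w hw t1 ht1
    by_contra hcon
    push Not at hcon
    obtain ⟨h1, h2⟩ := hcon
    refine h1 fun z hz s hs hzs t2 ht2 h21 h2s => ?_
    obtain ⟨t3, ht3M, h32, H⟩ := PD z (hx' z s hzs) w hw t2 (hP.trans _ _ _ h21 ht1)
    rcases H with H | H
    · exact absurd ⟨z, hz, s, hs, ⟨hzs, hP.trans _ _ _ h32 h2s⟩, H⟩
        (h2 t3 ht3M (hP.trans _ _ _ h32 h21))
    · exact ⟨t3, ht3M, h32, H⟩
  -- semantics of hits
  have hitA : ∀ G, Generic C P R G → ∀ t ∈ G, ∀ z ∈ M, ∀ w ∈ M, Hit M R a t z w →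
      val G z = val G w := by
    rintro G hG t ht z hz w hw ⟨u, hu, hua, htu⟩
    exact Ep_sound h hP hG (hG.upward _ ht _ htu) hz hw ((mema u z w).1 hua).2.2
  -- children
  have chx : ∀ x' ∈ ltx, ∀ z s, pair z s ∈ x' → z ∈ ltx := by
    intro x' hx' z s hzs
    have h1 := (memltx x').1 hx'
    exact (memltx z).2 ⟨(h.of_pair_mem_mem h1.1 hzs).1, (rank_lt_pair hzs).trans h1.2⟩
  have chy : ∀ y' ∈ ly, ∀ w s, pair w s ∈ y' → w ∈ ly := by
    intro y' hy' w s hws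
    have h1 := (memly y').1 hy'
    exact (memly w).2 ⟨(h.of_pair_mem_mem h1.1 hws).1, (rank_lt_pair hws).le.trans h1.2⟩
  have chx0 : ∀ z s, pair z s ∈ x → z ∈ ltx := fun z s hzs =>
    (memltx z).2 ⟨(h.of_pair_mem_mem hx hzs).1, rank_lt_pair hzs⟩
  have chy0 : ∀ w s, pair w s ∈ y → w ∈ ly := fun w s hws =>
    (memly w).2 ⟨(h.of_pair_mem_mem hy hws).1, (rank_lt_pair hws).le⟩
  -- the combined system
  have hS : Sys M R q a b := by
    constructor
    · intro r hr x' hx' y' hy' hmem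
      obtain ⟨_, hxyI, hE⟩ := (mema r x' y').1 hmem
      obtain ⟨hx'l, hy'l⟩ := (memI x' y').1 hxyI
      constructor
      · intro z hz s hs hzs t ht h1 h2 h3
        obtain ⟨G, hG, htG⟩ := exists_generic hP hC (hP.left_mem h1)
        have hval := Ep_sound h hP hG (hG.upward _ htG _ h1) hx' hy' hE
        have hv : val G z ∈ val G x' := mem_val.2 ⟨z, s, hG.upward _ htG _ h2, hzs, rfl⟩
        rw [hval] at hv
        obtain ⟨w, s', hs'G, hws, e⟩ := mem_val.1 hv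
        obtain ⟨hwM, hs'M⟩ := h.of_pair_mem_mem hy' hws
        have hqG := hG.upward _ htG _ h3
        obtain ⟨t1, ht1, hcase, _⟩ := hG.meets_below h hP
          (A := fun t => Hit M R a t z w ∨ Hit M R b t z w)
          ((dfn_Hit h hP (h.const haM) (h.proj 0) (h.const hz) (h.const hwM)).or
            (dfn_Hit h hP (h.const hbM) (h.proj 0) (h.const hz) (h.const hwM))) hqG
          (fun t0 ht0 => by
            obtain ⟨t3, _, h4, h5⟩ := PD z (chx x' hx'l z s hzs) w (chy y' hy'l w s' hws) t0 ht0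
            exact ⟨t3, h4, h5⟩)
        obtain ⟨u, hu, hua, htu⟩ : Hit M R a t1 z w := by
          rcases hcase with H | H
          · exact H
          · obtain ⟨u, hu, hub, htu⟩ := H
            exact absurd e (Em_sound h hP hG (hG.upward _ ht1 _ htu) hz hwM
              ((memb u z w).1 hub).2.2)
        obtain ⟨t', ht', h4, h5, h6⟩ := dir3 h hP hG htG hs'G ht1
        exact ⟨t', gM h hP hG ht', h4, w, hwM, s', hs'M, ⟨hws, h5⟩, u, hu, hua,
          hP.trans _ _ _ h6 htu⟩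
      · intro w hw s hs hws t ht h1 h2 h3
        obtain ⟨G, hG, htG⟩ := exists_generic hP hC (hP.left_mem h1)
        have hval := Ep_sound h hP hG (hG.upward _ htG _ h1) hx' hy' hE
        have hv : val G w ∈ val G y' := mem_val.2 ⟨w, s, hG.upward _ htG _ h2, hws, rfl⟩
        rw [← hval] at hv
        obtain ⟨z, s', hs'G, hzs, e⟩ := mem_val.1 hv
        obtain ⟨hzM, hs'M⟩ := h.of_pair_mem_mem hx' hzs
        have hqG := hG.upward _ htG _ h3
        obtain ⟨t1, ht1, hcase, _⟩ := hG.meets_below h hP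
          (A := fun t => Hit M R a t z w ∨ Hit M R b t z w)
          ((dfn_Hit h hP (h.const haM) (h.proj 0) (h.const hzM) (h.const hw)).or
            (dfn_Hit h hP (h.const hbM) (h.proj 0) (h.const hzM) (h.const hw))) hqG
          (fun t0 ht0 => by
            obtain ⟨t3, _, h4, h5⟩ := PD z (chx x' hx'l z s' hzs) w (chy y' hy'l w s hws) t0 ht0
            exact ⟨t3, h4, h5⟩)
        obtain ⟨u, hu, hua, htu⟩ : Hit M R a t1 z w := by
          rcases hcase with H | H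
          · exact H
          · obtain ⟨u, hu, hub, htu⟩ := H
            exact absurd e.symm (Em_sound h hP hG (hG.upward _ ht1 _ htu) hzM hw
              ((memb u z w).1 hub).2.2)
        obtain ⟨t', ht', h4, h5, h6⟩ := dir3 h hP hG htG hs'G ht1
        exact ⟨t', gM h hP hG ht', h4, z, hzM, s', hs'M, ⟨hzs, h5⟩, u, hu, hua,
          hP.trans _ _ _ h6 htu⟩
    · intro r hr x' hx' y' hy' hmem
      obtain ⟨_, hxyI, hE⟩ := (memb r x' y').1 hmem
      obtain ⟨hx'l, hy'l⟩ := (memI x' y').1 hxyI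
      intro t ht h1 h2
      obtain ⟨G, hG, htG⟩ := exists_generic hP hC (hP.left_mem h1)
      have hval := Em_sound h hP hG (hG.upward _ htG _ h1) hx' hy' hE
      by_cases hLR : ∀ v, v ∈ val G x' → v ∈ val G y'
      · have : ∃ v, v ∈ val G y' ∧ v ∉ val G x' := by
          by_contra hc
          push Not at hc
          exact hval (ZFSet.ext fun v => ⟨hLR v, hc v⟩)
        obtain ⟨v, hvy, hvx⟩ := this
        obtain ⟨w, s, hsG, hws, rfl⟩ := mem_val.1 hvy
        obtain ⟨hwM, hsM⟩ := h.of_pair_mem_mem hy' hws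
        obtain ⟨t0, ht0, h3, h4⟩ := hG.directed t htG s hsG
        obtain ⟨t', ht', hcase, h5⟩ := hG.meets_below h hP
          (A := fun t => WR M R b x' t w ∨ BR M R a x' t w)
          ((dfn_WR h hP (h.const hbM) (h.const hx') (h.proj 0) (h.const hwM)).or
            (dfn_BR h hP (h.const haM) (h.const hx') (h.proj 0) (h.const hwM))) ht0
          (fun t1 ht1 => by
            rcases dichR x' (chx x' hx'l) w (chy y' hy'l w s hws) t1
              (hP.trans _ _ _ (hP.trans _ _ _ ht1 h3) h2) with H | ⟨t3, _, h6, h7⟩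
            · exact ⟨t1, hP.refl _ (hP.left_mem ht1), Or.inl H⟩
            · exact ⟨t3, h6, Or.inr h7⟩)
        rcases hcase with H | ⟨z, hz, s', hs', ⟨hzs, hts'⟩, H⟩
        · exact ⟨t', gM h hP hG ht', hP.trans _ _ _ h5 h3, Or.inr ⟨w, hwM, s, hsM,
            ⟨hws, hP.trans _ _ _ h5 h4⟩, H⟩⟩
        · refine absurd (mem_val.2 ⟨z, s', hG.upward _ ht' _ hts', hzs, ?_⟩) hvx
          exact (hitA G hG t' ht' z hz w hwM H).symm
      · push Not at hLR
        obtain ⟨v, hvx, hvy⟩ := hLR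
        obtain ⟨z, s, hsG, hzs, rfl⟩ := mem_val.1 hvx
        obtain ⟨hzM, hsM⟩ := h.of_pair_mem_mem hx' hzs
        obtain ⟨t0, ht0, h3, h4⟩ := hG.directed t htG s hsG
        obtain ⟨t', ht', hcase, h5⟩ := hG.meets_below h hP
          (A := fun t => WL M R b y' t z ∨ BL M R a y' t z)
          ((dfn_WL h hP (h.const hbM) (h.const hy') (h.proj 0) (h.const hzM)).or
            (dfn_BL h hP (h.const haM) (h.const hy') (h.proj 0) (h.const hzM))) ht0
          (fun t1 ht1 => by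
            rcases dichL y' (chy y' hy'l) z (chx x' hx'l z s hzs) t1
              (hP.trans _ _ _ (hP.trans _ _ _ ht1 h3) h2) with H | ⟨t3, _, h6, h7⟩
            · exact ⟨t1, hP.refl _ (hP.left_mem ht1), Or.inl H⟩
            · exact ⟨t3, h6, Or.inr h7⟩)
        rcases hcase with H | ⟨w, hw, s', hs', ⟨hws, hts'⟩, H⟩
        · exact ⟨t', gM h hP hG ht', hP.trans _ _ _ h5 h3, Or.inl ⟨z, hzM, s, hsM,
            ⟨hzs, hP.trans _ _ _ h5 h4⟩, H⟩⟩
        · refine absurd (mem_val.2 ⟨w, s', hG.upward _ ht' _ hts', hws, ?_⟩) hvy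
          exact hitA G hG t' ht' z hzM w hw H
  -- decide `x = y`
  by_cases hL : PlusL M R q a q x y
  · by_cases hR : PlusR M R q a q x y
    · set a' : ZFSet.{u} := insert (pair q (pair x y)) a with ha'
      have hsub : a ⊆ a' := fun v hv => ZFSet.mem_insert_of_mem _ hv
      refine ⟨q, hqp, Or.inl ⟨q, hqM, a', ?_, b, hbM, ⟨?_, hS.2⟩, hP.refl q hqP, q, hqM,
        ZFSet.mem_insert _ _, hP.refl q hqP⟩⟩
      · exact h.insert_mem (h.pair_mem hqM (h.pair_mem hx hy)) haM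
      · intro r hr x' hx' y' hy' hmem
        rcases ZFSet.mem_insert_iff.1 hmem with e | hmem
        · rw [pair_inj, pair_inj] at e
          obtain ⟨rfl, rfl, rfl⟩ := e
          exact ⟨hL.mono hsub, hR.mono hsub⟩
        · obtain ⟨h1, h2⟩ := hS.1 r hr x' hx' y' hy' hmem
          exact ⟨h1.mono hsub, h2.mono hsub⟩
    · unfold PlusR at hR
      push Not at hR
      obtain ⟨w, hw, s, hs, hws, t, ht, h1, h2, h3, h4⟩ := hR
      have htP := hP.left_mem h1
      set b' : ZFSet.{u} := insert (pair t (pair x y)) b with hb'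
      have hsub : b ⊆ b' := fun v hv => ZFSet.mem_insert_of_mem _ hv
      refine ⟨t, hP.trans _ _ _ h1 hqp, Or.inr ⟨q, hqM, a, haM, b', ?_, ⟨hS.1, ?_⟩, h1, t, ht,
        ZFSet.mem_insert _ _, hP.refl t htP⟩⟩
      · exact h.insert_mem (h.pair_mem ht (h.pair_mem hx hy)) hbM
      · intro r hr x' hx' y' hy' hmem
        rcases ZFSet.mem_insert_iff.1 hmem with e | hmem
        · rw [pair_inj, pair_inj] at e
          obtain ⟨rfl, rfl, rfl⟩ := e
          intro t1 ht1 h5 h6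
          refine ⟨t1, ht1, hP.refl _ (hP.left_mem h5), Or.inr ⟨w, hw, s, hs,
            ⟨hws, hP.trans _ _ _ h5 h2⟩, ?_⟩⟩
          rcases dichR x' chx0 w (chy0 w s hws) t1 h6 with H | ⟨t3, ht3, h7, h8⟩
          · exact H.mono hsub
          · exact absurd h8 (h4 t3 ht3 (hP.trans _ _ _ h7 h5))
        · exact (hS.2 r hr x' hx' y' hy' hmem).mono hsub
  · unfold PlusL at hL
    push Not at hL
    obtain ⟨z, hz, s, hs, hzs, t, ht, h1, h2, h3, h4⟩ := hL
    have htP := hP.left_mem h1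
    set b' : ZFSet.{u} := insert (pair t (pair x y)) b with hb'
    have hsub : b ⊆ b' := fun v hv => ZFSet.mem_insert_of_mem _ hv
    refine ⟨t, hP.trans _ _ _ h1 hqp, Or.inr ⟨q, hqM, a, haM, b', ?_, ⟨hS.1, ?_⟩, h1, t, ht,
      ZFSet.mem_insert _ _, hP.refl t htP⟩⟩
    · exact h.insert_mem (h.pair_mem ht (h.pair_mem hx hy)) hbM
    · intro r hr x' hx' y' hy' hmem
      rcases ZFSet.mem_insert_iff.1 hmem with e | hmem
      · rw [pair_inj, pair_inj] at e
        obtain ⟨rfl, rfl, rfl⟩ := e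
        intro t1 ht1 h5 h6
        refine ⟨t1, ht1, hP.refl _ (hP.left_mem h5), Or.inl ⟨z, hz, s, hs,
          ⟨hzs, hP.trans _ _ _ h5 h2⟩, ?_⟩⟩
        rcases dichL y' chy0 z (chx0 z s hzs) t1 h6 with H | ⟨t3, ht3, h7, h8⟩
        · exact H.mono hsub
        · exact absurd h8 (h4 t3 ht3 (hP.trans _ _ _ h7 h5))
      · exact (hS.2 r hr x' hx' y' hy' hmem).mono hsub

end Pool.Agent.Helper98.CF
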