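import Mathlib

set_option autoImplicit false

/-!
Definitions for class forcing over countable transitive models of Gödel–Bernays set theory with
global choice.  A transitive model `𝕄 = ⟨M, C⟩` of second-order set theory is given by a
transitive collection `M` of sets (elements of `ZFSet`) and a collection `C` of subsets of `M`.
-/

namespace Pool.Agent.Helper98.CF

open ZFSet

universe u

/-- Formulas of the two-sorted language with quantifiers over sets only.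
Set variables `v_0, v_1, …` (de Bruijn indices), class variables `V_0, V_1, …`. -/
inductive Fml : Type
  /-- `v_i ∈ v_j` -/
  | mem (i j : ℕ) : Fml
  /-- `v_i = v_j` -/
  | eq (i j : ℕ) : Fml
  /-- `v_i ∈ V_k` -/
  | cls (i k : ℕ) : Fml
  /-- negation -/
  | neg (φ : Fml) : Fml
  /-- conjunction -/
  | and (φ ψ : Fml) : Fml
  /-- universal quantification over a set variable (which becomes `v_0` in the body, the
  other set variables being shifted by one) -/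
  | all (φ : Fml) : Fml

/-- Put `x` in front of the assignment `e`. -/
def cons (x : ZFSet.{u}) (e : ℕ → ZFSet.{u}) : ℕ → ZFSet.{u}
  | 0 => x
  | n + 1 => e n

/-- Satisfaction: set quantifiers range over `N`; `e` assigns sets to the set variables,
`E` assigns classes to the class variables. -/
def Sat (N : Set ZFSet.{u}) : Fml → (ℕ → ZFSet.{u}) → (ℕ → Set ZFSet.{u}) → Prop
  | Fml.mem i j, e, _ => e i ∈ e j
  | Fml.eq i j, e, _ => e i = e j
  | Fml.cls i k, e, E => e i ∈ E k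
  | Fml.neg φ, e, E => ¬ Sat N φ e E
  | Fml.and φ ψ, e, E => Sat N φ e E ∧ Sat N ψ e E
  | Fml.all φ, e, E => ∀ x ∈ N, Sat N φ (cons x e) E

/-- `⟨M, C⟩` is a transitive model of `GBC` (Gödel–Bernays set theory with power set and a
global well-order in `C`).  Extensionality and foundation hold automatically. -/
structure IsGBC (M : Set ZFSet.{u}) (C : Set (Set ZFSet.{u})) : Prop where
  /-- `M` is transitive -/
  transitive : ∀ x ∈ M, ∀ y ∈ x, y ∈ M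
  /-- classes are collections of elements of `M` -/
  classes : ∀ A ∈ C, A ⊆ M
  /-- pairing -/
  pairing : ∀ x ∈ M, ∀ y ∈ M, ({x, y} : ZFSet.{u}) ∈ M
  /-- union -/
  union : ∀ x ∈ M, (ZFSet.sUnion x) ∈ M
  /-- power set -/
  power : ∀ x ∈ M, ∃ y ∈ M, ∀ z, z ∈ y ↔ z ∈ M ∧ z ⊆ x
  /-- infinity -/
  infinity : ∃ x ∈ M, (∅ : ZFSet.{u}) ∈ x ∧ ∀ y ∈ x, (insert y y : ZFSet.{u}) ∈ x
  /-- class comprehension for formulas without class quantifiers -/
  comprehension : ∀ (φ : Fml) (e : ℕ → ZFSet.{u}) (E : ℕ → Set ZFSet.{u}),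
    (∀ i, e i ∈ M) → (∀ k, E k ∈ C) → {x | x ∈ M ∧ Sat M φ (cons x e) E} ∈ C
  /-- replacement for class functions (whose domain may be any class) -/
  replacement : ∀ F ∈ C, (∀ x y y', pair x y ∈ F → pair x y' ∈ F → y = y') →
    ∀ a ∈ M, ∃ b ∈ M, ∀ y, y ∈ b ↔ ∃ x ∈ a, pair x y ∈ F
  /-- global well-order: a strict linear order of `M` in `C` for which every nonempty set
  in `M` has a least element -/
  global_wo : ∃ W ∈ C, (∀ x ∈ M, pair x x ∉ W) ∧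
    (∀ x ∈ M, ∀ y ∈ M, ∀ z ∈ M, pair x y ∈ W → pair y z ∈ W → pair x z ∈ W) ∧
    (∀ x ∈ M, ∀ y ∈ M, pair x y ∈ W ∨ x = y ∨ pair y x ∈ W) ∧
    (∀ a ∈ M, a ≠ ∅ → ∃ x ∈ a, ∀ y ∈ a, y ≠ x → pair x y ∈ W)

/-- `⟨P, ≤⟩` is a notion of class forcing for `⟨M, C⟩`: a preorder (antisymmetry and the existence
of a largest condition are not required) with `P, ≤` in `C`; `R` is the class of pairs `(p, q)`
with `p ≤ q`. -/
structure IsForcing (C : Set (Set ZFSet.{u})) (P R : Set ZFSet.{u}) : Prop where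
  carrier_mem : P ∈ C
  rel_mem : R ∈ C
  rel_sub : ∀ p q, pair p q ∈ R → p ∈ P ∧ q ∈ P
  refl : ∀ p ∈ P, pair p p ∈ R
  trans : ∀ p q r, pair p q ∈ R → pair q r ∈ R → pair p r ∈ R

/-- `D` is a dense subclass of `P`. -/
def IsDense (P R D : Set ZFSet.{u}) : Prop :=
  D ⊆ P ∧ ∀ p ∈ P, ∃ q ∈ D, pair q p ∈ R

/-- `G` is an `𝕄`-generic filter on `P`. -/
structure Generic (C : Set (Set ZFSet.{u})) (P R G : Set ZFSet.{u}) : Prop where
  sub : G ⊆ P
  nonempty : G.Nonempty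
  upward : ∀ p ∈ G, ∀ q, pair p q ∈ R → q ∈ G
  directed : ∀ p ∈ G, ∀ q ∈ G, ∃ r ∈ G, pair r p ∈ R ∧ pair r q ∈ R
  meets : ∀ D ∈ C, IsDense P R D → ∃ p ∈ G, p ∈ D

/-- `x` is a `P`-name: every element of `x` is a pair `(y, p)` with `y` a `P`-name and
`p ∈ P`. -/
inductive IsName (P : Set ZFSet.{u}) : ZFSet.{u} → Prop
  | mk (x : ZFSet.{u}) (h : ∀ z ∈ x, ∃ y, ∃ p ∈ P, z = pair y p)
      (h' : ∀ y p, pair y p ∈ x → IsName P y) : IsName P x

theorem rank_lt_pair {x y p : ZFSet.{u}} (h : pair y p ∈ x) : rank y < rank x := by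
  have h1 : rank (pair y p) < rank x := rank_lt_of_mem h
  have h2 : rank ({y} : ZFSet.{u}) < rank (pair y p) := rank_lt_of_mem (by simp [pair])
  have h3 : rank y < rank ({y} : ZFSet.{u}) := rank_lt_of_mem (by simp)
  exact h3.trans (h2.trans h1)

/-- Evaluation of names: `σ^G = {τ^G : (τ, p) ∈ σ for some p ∈ G}` (see `mem_val`). -/
noncomputable def val (G : Set ZFSet.{u}) (x : ZFSet.{u}) : ZFSet.{u} :=
  ZFSet.range (fun z : (ZFSet.sep (fun y => ∃ p ∈ G, pair y p ∈ x)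
    (ZFSet.sUnion (ZFSet.sUnion x))) => val G z.1)
termination_by rank x
decreasing_by
  obtain ⟨_, p, _, hp⟩ := ZFSet.mem_sep.1 z.2
  exact rank_lt_pair hp

theorem mem_val {G : Set ZFSet.{u}} {x y : ZFSet.{u}} :
    y ∈ val G x ↔ ∃ z, ∃ p ∈ G, pair z p ∈ x ∧ y = val G z := by
  rw [val, ZFSet.mem_range]
  constructor
  · rintro ⟨⟨z, hz⟩, rfl⟩
    obtain ⟨_, p, hp, hpx⟩ := ZFSet.mem_sep.1 hz
    exact ⟨z, p, hp, hpx, rfl⟩
  · rintro ⟨z, p, hp, hpx, rfl⟩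
    refine ⟨⟨z, ZFSet.mem_sep.2 ⟨?_, p, hp, hpx⟩⟩, rfl⟩
    exact ZFSet.mem_sUnion.2 ⟨{z}, ZFSet.mem_sUnion.2 ⟨pair z p, hpx, by simp [pair]⟩, by simp⟩

/-- `M[G]`. -/
def ext (M P G : Set ZFSet.{u}) : Set ZFSet.{u} :=
  {y | ∃ σ ∈ M, IsName P σ ∧ y = val G σ}

/-- `Γ` is a class name: all its elements are pairs `(σ, p)` with `σ ∈ M` a `P`-name,
`p ∈ P`. -/
def IsClassName (M P Γ : Set ZFSet.{u}) : Prop :=
  ∀ z ∈ Γ, ∃ σ ∈ M, IsName P σ ∧ ∃ p ∈ P, z = pair σ p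

/-- Evaluation of class names. -/
def valC (G Γ : Set ZFSet.{u}) : Set ZFSet.{u} :=
  {y | ∃ σ, ∃ p ∈ G, pair σ p ∈ Γ ∧ y = val G σ}

/-- `C[G]`. -/
def extC (M : Set ZFSet.{u}) (C : Set (Set ZFSet.{u})) (P G : Set ZFSet.{u}) :
    Set (Set ZFSet.{u}) :=
  {A | ∃ Γ ∈ C, IsClassName M P Γ ∧ A = valC G Γ}

/-- `p ⊩ φ(σ_0, σ_1, …, Γ_0, Γ_1, …)`: `𝕄[G] ⊨ φ(σ_0^G, …, Γ_0^G, …)` for every
`𝕄`-generic filter `G` with `p ∈ G`. -/
def Forces (M : Set ZFSet.{u}) (C : Set (Set ZFSet.{u})) (P R : Set ZFSet.{u})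
    (p : ZFSet.{u}) (φ : Fml) (σ : ℕ → ZFSet.{u}) (Γ : ℕ → Set ZFSet.{u}) : Prop :=
  p ∈ P ∧ ∀ G, Generic C P R G → p ∈ G →
    Sat (ext M P G) φ (fun i => val G (σ i)) (fun k => valC G (Γ k))

/-- The tuple `(p, σ_0, …, σ_{n-1})`, as the nested pair `((…(p, σ_0), …), σ_{n-1})`. -/
def tuple (p : ZFSet.{u}) (σ : ℕ → ZFSet.{u}) : ℕ → ZFSet.{u}
  | 0 => p
  | n + 1 => pair (tuple p σ n) (σ n)

/-- `P` satisfies the forcing theorem: for every formula `φ` (without class quantifiers) and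
class names `Γ_0, Γ_1, …` in `C`:
(i) for each `n`, the class of tuples `(p, σ_0, …, σ_{n-1})` with `p ⊩ φ(σ_0, …, σ_{n-1}, Γ_0, …)`
(variables with index at least `n` are interpreted by the name `∅`) belongs to `C`;
(ii) truth in `𝕄[G]` is the same as being forced by a condition in `G`, for every
`𝕄`-generic filter `G`. -/
def ForcingTheorem (M : Set ZFSet.{u}) (C : Set (Set ZFSet.{u})) (P R : Set ZFSet.{u}) :
    Prop :=
  ∀ (φ : Fml) (Γ : ℕ → Set ZFSet.{u}), (∀ k, Γ k ∈ C ∧ IsClassName M P (Γ k)) →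
    (∀ n : ℕ, {z | ∃ (p : ZFSet.{u}) (σ : ℕ → ZFSet.{u}),
        (∀ i, σ i ∈ M ∧ IsName P (σ i)) ∧ (∀ i, n ≤ i → σ i = ∅) ∧ z = tuple p σ n ∧
        Forces M C P R p φ σ Γ} ∈ C) ∧
    (∀ G, Generic C P R G → ∀ σ : ℕ → ZFSet.{u}, (∀ i, σ i ∈ M ∧ IsName P (σ i)) →
      (Sat (ext M P G) φ (fun i => val G (σ i)) (fun k => valC G (Γ k)) ↔
        ∃ p ∈ G, Forces M C P R p φ σ Γ))

/-- `P` preserves Separation: for every `𝕄`-generic `G`, every formula `φ`, all set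
parameters from `M[G]` and class parameters from `C[G]`, and every `a ∈ M[G]`, the set
`{x ∈ a : 𝕄[G] ⊨ φ(x, …)}` is an element of `M[G]`. -/
def PreservesSeparation (M : Set ZFSet.{u}) (C : Set (Set ZFSet.{u}))
    (P R : Set ZFSet.{u}) : Prop :=
  ∀ G, Generic C P R G → ∀ (φ : Fml) (e : ℕ → ZFSet.{u}) (E : ℕ → Set ZFSet.{u}),
    (∀ i, e i ∈ ext M P G) → (∀ k, E k ∈ extC M C P G) → ∀ a ∈ ext M P G,
      ∃ b ∈ ext M P G, ∀ x, x ∈ b ↔ x ∈ a ∧ Sat (ext M P G) φ (cons x e) E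

end Pool.Agent.Helper98.CF
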