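import Pool.Agent.Helper98.CF.Defs

set_option autoImplicit false

namespace Pool.Agent.Helper98.CF

open ZFSet

universe u

/-- shift of an assignment -/
def sh (e : ℕ → ZFSet.{u}) : ℕ → ZFSet.{u} := fun i => e (i + 1)

@[simp] theorem sh_cons (x : ZFSet.{u}) (e : ℕ → ZFSet.{u}) : sh (cons x e) = e := rfl
@[simp] theorem cons_zero (x : ZFSet.{u}) (e : ℕ → ZFSet.{u}) : cons x e 0 = x := rfl
@[simp] theorem cons_succ (x : ZFSet.{u}) (e : ℕ → ZFSet.{u}) (n : ℕ) :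
    cons x e (n + 1) = e n := rfl

theorem cons_sh (e : ℕ → ZFSet.{u}) : cons (e 0) (sh e) = e := by
  funext i; cases i <;> rfl

/-- lift a renaming under a binder -/
def lft (ρ : ℕ → ℕ) : ℕ → ℕ
  | 0 => 0
  | n + 1 => ρ n + 1

def Fml.rn : (ℕ → ℕ) → (ℕ → ℕ) → Fml → Fml
  | ρ, _, Fml.mem i j => Fml.mem (ρ i) (ρ j)
  | ρ, _, Fml.eq i j => Fml.eq (ρ i) (ρ j)
  | ρ, κ, Fml.cls i k => Fml.cls (ρ i) (κ k)
  | ρ, κ, Fml.neg φ => Fml.neg (φ.rn ρ κ)
  | ρ, κ, Fml.and φ ψ => Fml.and (φ.rn ρ κ) (ψ.rn ρ κ)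
  | ρ, κ, Fml.all φ => Fml.all (φ.rn (lft ρ) κ)

theorem sat_rn (N : Set ZFSet.{u}) (φ : Fml) : ∀ (ρ κ : ℕ → ℕ) (e : ℕ → ZFSet.{u})
    (E : ℕ → Set ZFSet.{u}),
    Sat N (φ.rn ρ κ) e E ↔ Sat N φ (fun i => e (ρ i)) (fun k => E (κ k)) := by
  induction φ with
  | mem i j => intro ρ κ e E; rfl
  | eq i j => intro ρ κ e E; rfl
  | cls i k => intro ρ κ e E; rfl
  | neg φ ih => intro ρ κ e E; simp only [Fml.rn, Sat, ih]
  | and φ ψ ih1 ih2 => intro ρ κ e E; simp only [Fml.rn, Sat, ih1, ih2]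
  | all φ ih =>
    intro ρ κ e E
    simp only [Fml.rn, Sat, ih]
    refine forall_congr' fun x => forall_congr' fun _ => ?_
    have : (fun i => cons x e (lft ρ i)) = cons x (fun i => e (ρ i)) := by
      funext i; cases i <;> rfl
    rw [this]

/-- `R` is definable over `⟨M, C⟩` with class parameters. -/
def Dfn (M : Set ZFSet.{u}) (C : Set (Set ZFSet.{u})) (R : (ℕ → ZFSet.{u}) → Prop) : Prop :=
  ∃ (φ : Fml) (E : ℕ → Set ZFSet.{u}), (∀ k, E k ∈ C) ∧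
    ∀ e : ℕ → ZFSet.{u}, (∀ i, e i ∈ M) → (R e ↔ Sat M φ e E)

/-- `f` is a definable function. -/
def DfnF (M : Set ZFSet.{u}) (C : Set (Set ZFSet.{u})) (f : (ℕ → ZFSet.{u}) → ZFSet.{u}) :
    Prop :=
  (∀ e : ℕ → ZFSet.{u}, (∀ i, e i ∈ M) → f e ∈ M) ∧
    Dfn M C (fun e => e 0 = f (fun i => e (i + 1)))

theorem cons_mem {M : Set ZFSet.{u}} {x : ZFSet.{u}} {e : ℕ → ZFSet.{u}} (hx : x ∈ M)
    (he : ∀ i, e i ∈ M) : ∀ i, cons x e i ∈ M := by
  intro i; cases i with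
  | zero => exact hx
  | succ n => exact he n

section

variable {M : Set ZFSet.{u}} {C : Set (Set ZFSet.{u})}

theorem Dfn.congr {R S : (ℕ → ZFSet.{u}) → Prop} (h : Dfn M C R)
    (hRS : ∀ e : ℕ → ZFSet.{u}, (∀ i, e i ∈ M) → (S e ↔ R e)) : Dfn M C S := by
  obtain ⟨φ, E, hE, h⟩ := h
  exact ⟨φ, E, hE, fun e he => (hRS e he).trans (h e he)⟩

theorem Dfn.not {R : (ℕ → ZFSet.{u}) → Prop} (h : Dfn M C R) : Dfn M C (fun e => ¬ R e) := by
  obtain ⟨φ, E, hE, h⟩ := h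
  exact ⟨φ.neg, E, hE, fun e he => not_congr (h e he)⟩

theorem Dfn.and {R S : (ℕ → ZFSet.{u}) → Prop} (hR : Dfn M C R) (hS : Dfn M C S) :
    Dfn M C (fun e => R e ∧ S e) := by
  obtain ⟨φ, E, hE, h⟩ := hR
  obtain ⟨ψ, F, hF, h'⟩ := hS
  refine ⟨(φ.rn id (fun k => 2 * k)).and (ψ.rn id (fun k => 2 * k + 1)),
    fun k => if k % 2 = 0 then E (k / 2) else F (k / 2), ?_, ?_⟩
  · intro k; dsimp only; split_ifs
    · exact hE _
    · exact hF _
  · intro e he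
    simp only [Sat, sat_rn]
    have h1 : (fun k : ℕ => if 2 * k % 2 = 0 then E (2 * k / 2) else F (2 * k / 2)) = E := by
      funext k; simp
    have h2 : (fun k : ℕ => if (2 * k + 1) % 2 = 0 then E ((2 * k + 1) / 2) else
        F ((2 * k + 1) / 2)) = F := by
      funext k
      have : ¬ ((2 * k + 1) % 2 = 0) := by omega
      rw [if_neg this]
      congr 1; omega
    rw [h1, h2]
    exact and_congr (h e he) (h' e he)

theorem Dfn.or {R S : (ℕ → ZFSet.{u}) → Prop} (hR : Dfn M C R) (hS : Dfn M C S) :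
    Dfn M C (fun e => R e ∨ S e) :=
  (hR.not.and hS.not).not.congr fun e _ => by tauto

theorem Dfn.imp {R S : (ℕ → ZFSet.{u}) → Prop} (hR : Dfn M C R) (hS : Dfn M C S) :
    Dfn M C (fun e => R e → S e) :=
  (hR.and hS.not).not.congr fun e _ => by tauto

theorem Dfn.iff {R S : (ℕ → ZFSet.{u}) → Prop} (hR : Dfn M C R) (hS : Dfn M C S) :
    Dfn M C (fun e => R e ↔ S e) :=
  ((hR.imp hS).and (hS.imp hR)).congr fun e _ => by tauto

theorem Dfn.all {R : (ℕ → ZFSet.{u}) → ZFSet.{u} → Prop}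
    (h : Dfn M C (fun e => R (fun i => e (i + 1)) (e 0))) :
    Dfn M C (fun e => ∀ x ∈ M, R e x) := by
  obtain ⟨φ, E, hE, h⟩ := h
  refine ⟨φ.all, E, hE, fun e he => ?_⟩
  simp only [Sat]
  exact forall_congr' fun x => forall_congr' fun hx => h (cons x e) (cons_mem hx he)

theorem Dfn.ex {R : (ℕ → ZFSet.{u}) → ZFSet.{u} → Prop}
    (h : Dfn M C (fun e => R (fun i => e (i + 1)) (e 0))) :
    Dfn M C (fun e => ∃ x ∈ M, R e x) :=
  (Dfn.all (R := fun e x => ¬ R e x) h.not).not.congr fun _ _ => by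
    push Not; rfl

theorem Dfn.rename {R : (ℕ → ZFSet.{u}) → Prop} (h : Dfn M C R) (ρ : ℕ → ℕ) :
    Dfn M C (fun e => R (fun i => e (ρ i))) := by
  obtain ⟨φ, E, hE, h⟩ := h
  refine ⟨φ.rn ρ id, E, hE, fun e he => ?_⟩
  rw [sat_rn]
  exact h _ (fun i => he _)

theorem DfnF.rename {f : (ℕ → ZFSet.{u}) → ZFSet.{u}} (h : DfnF M C f) (ρ : ℕ → ℕ) :
    DfnF M C (fun e => f (fun i => e (ρ i))) :=
  ⟨fun e he => h.1 _ (fun i => he _), (h.2.rename (lft ρ)).congr fun _ _ => Iff.rfl⟩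

theorem DfnF.shift {f : (ℕ → ZFSet.{u}) → ZFSet.{u}} (h : DfnF M C f) :
    DfnF M C (fun e => f (fun i => e (i + 1))) := h.rename _

theorem Dfn.eq0 (i j : ℕ) {A : Set ZFSet.{u}} (hA : A ∈ C) : Dfn M C (fun e => e i = e j) :=
  ⟨Fml.eq i j, fun _ => A, fun _ => hA, fun _ _ => Iff.rfl⟩

theorem Dfn.mem0 (i j : ℕ) {A : Set ZFSet.{u}} (hA : A ∈ C) : Dfn M C (fun e => e i ∈ e j) :=
  ⟨Fml.mem i j, fun _ => A, fun _ => hA, fun _ _ => Iff.rfl⟩

theorem Dfn.cls0 (i : ℕ) {A : Set ZFSet.{u}} (hA : A ∈ C) : Dfn M C (fun e => e i ∈ A) :=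
  ⟨Fml.cls i 0, fun _ => A, fun _ => hA, fun _ _ => Iff.rfl⟩

/-- substitution of a definable function for the variable `0` -/
theorem Dfn.subst {R : (ℕ → ZFSet.{u}) → Prop} (h : Dfn M C R)
    {f : (ℕ → ZFSet.{u}) → ZFSet.{u}} (hf : DfnF M C f) :
    Dfn M C (fun e => R (cons (f e) e)) := by
  have h1 : Dfn M C (fun e => ∃ x ∈ M, x = f e ∧ R (cons x e)) := by
    refine Dfn.ex (R := fun e x => x = f e ∧ R (cons x e)) ?_
    refine hf.2.and (h.congr fun e _ => ?_)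
    have : cons (e 0) (fun i => e (i + 1)) = e := cons_sh e
    rw [this]
  refine h1.congr fun e he => ?_
  constructor
  · intro hR; exact ⟨f e, hf.1 e he, rfl, hR⟩
  · rintro ⟨x, -, rfl, hR⟩; exact hR

end

section

variable {M : Set ZFSet.{u}} {C : Set (Set ZFSet.{u})}

theorem comp1 {P : ZFSet.{u} → Prop} (h : Dfn M C (fun e => P (e 0)))
    {f : (ℕ → ZFSet.{u}) → ZFSet.{u}} (hf : DfnF M C f) :
    Dfn M C (fun e => P (f e)) := h.subst hf

theorem comp2 {P : ZFSet.{u} → ZFSet.{u} → Prop} (h : Dfn M C (fun e => P (e 0) (e 1)))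
    {f g : (ℕ → ZFSet.{u}) → ZFSet.{u}} (hf : DfnF M C f) (hg : DfnF M C g) :
    Dfn M C (fun e => P (f e) (g e)) :=
  (h.subst hf.shift).subst hg

theorem comp3 {P : ZFSet.{u} → ZFSet.{u} → ZFSet.{u} → Prop}
    (h : Dfn M C (fun e => P (e 0) (e 1) (e 2)))
    {f g k : (ℕ → ZFSet.{u}) → ZFSet.{u}} (hf : DfnF M C f) (hg : DfnF M C g)
    (hk : DfnF M C k) :
    Dfn M C (fun e => P (f e) (g e) (k e)) :=
  ((h.subst hf.shift.shift).subst hg.shift).subst hk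

theorem comp4 {P : ZFSet.{u} → ZFSet.{u} → ZFSet.{u} → ZFSet.{u} → Prop}
    (h : Dfn M C (fun e => P (e 0) (e 1) (e 2) (e 3)))
    {f g k l : (ℕ → ZFSet.{u}) → ZFSet.{u}} (hf : DfnF M C f) (hg : DfnF M C g)
    (hk : DfnF M C k) (hl : DfnF M C l) :
    Dfn M C (fun e => P (f e) (g e) (k e) (l e)) :=
  (((h.subst hf.shift.shift.shift).subst hg.shift.shift).subst hk.shift).subst hl

theorem comp5 {P : ZFSet.{u} → ZFSet.{u} → ZFSet.{u} → ZFSet.{u} → ZFSet.{u} → Prop}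
    (h : Dfn M C (fun e => P (e 0) (e 1) (e 2) (e 3) (e 4)))
    {f g k l m : (ℕ → ZFSet.{u}) → ZFSet.{u}} (hf : DfnF M C f) (hg : DfnF M C g)
    (hk : DfnF M C k) (hl : DfnF M C l) (hm : DfnF M C m) :
    Dfn M C (fun e => P (f e) (g e) (k e) (l e) (m e)) :=
  ((((h.subst hf.shift.shift.shift.shift).subst hg.shift.shift.shift).subst
    hk.shift.shift).subst hl.shift).subst hm

theorem comp6 {P : ZFSet.{u} → ZFSet.{u} → ZFSet.{u} → ZFSet.{u} → ZFSet.{u} → ZFSet.{u} → Prop}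
    (h : Dfn M C (fun e => P (e 0) (e 1) (e 2) (e 3) (e 4) (e 5)))
    {f g k l m n : (ℕ → ZFSet.{u}) → ZFSet.{u}} (hf : DfnF M C f) (hg : DfnF M C g)
    (hk : DfnF M C k) (hl : DfnF M C l) (hm : DfnF M C m) (hn : DfnF M C n) :
    Dfn M C (fun e => P (f e) (g e) (k e) (l e) (m e) (n e)) :=
  (((((h.subst hf.shift.shift.shift.shift.shift).subst hg.shift.shift.shift.shift).subst
    hk.shift.shift.shift).subst hl.shift.shift).subst hm.shift).subst hn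

theorem compF1 {F : ZFSet.{u} → ZFSet.{u}} (h : DfnF M C (fun e => F (e 0)))
    {f : (ℕ → ZFSet.{u}) → ZFSet.{u}} (hf : DfnF M C f) : DfnF M C (fun e => F (f e)) := by
  refine ⟨fun e he => h.1 (cons (f e) e) (cons_mem (hf.1 e he) he), ?_⟩
  have h1 : Dfn M C (fun e => e 1 = F (e 0)) :=
    h.2.rename (fun i => if i = 0 then 1 else 0)
  exact (h1.subst hf.shift).rename (fun i => i) |>.congr fun e _ => Iff.rfl

theorem compF2 {F : ZFSet.{u} → ZFSet.{u} → ZFSet.{u}} (h : DfnF M C (fun e => F (e 0) (e 1)))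
    {f g : (ℕ → ZFSet.{u}) → ZFSet.{u}} (hf : DfnF M C f) (hg : DfnF M C g) :
    DfnF M C (fun e => F (f e) (g e)) := by
  refine ⟨fun e he => h.1 (cons (f e) (cons (g e) e))
    (cons_mem (hf.1 e he) (cons_mem (hg.1 e he) he)), ?_⟩
  have h1 : Dfn M C (fun e => e 2 = F (e 0) (e 1)) :=
    h.2.rename (fun i => if i = 0 then 2 else if i = 1 then 0 else 1)
  exact ((h1.subst hf.shift.shift).subst hg.shift).congr fun e _ => Iff.rfl

end

end Pool.Agent.Helper98.CF
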