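import Pool.Agent.Helper98.CF.Complete

set_option autoImplicit false
set_option linter.unusedVariables false
set_option linter.unusedSectionVars false

namespace Pool.Agent.Helper98.CF

open ZFSet

universe u

variable {M : Set ZFSet.{u}} {C : Set (Set ZFSet.{u})} {P R : Set ZFSet.{u}}

/-- `r` forces `x = z` -/
def FEq (M R : Set ZFSet.{u}) (r x z : ZFSet.{u}) : Prop :=
  ∀ t ∈ M, pair t r ∈ R → ¬ Em M R t x z

section

variable (h : IsGBC M C) (hP : IsForcing C P R)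
include h hP

theorem dfn_FEq {f1 f2 f3 : (ℕ → ZFSet.{u}) → ZFSet.{u}} (h1 : DfnF M C f1)
    (h2 : DfnF M C f2) (h3 : DfnF M C f3) :
    Dfn M C (fun e => FEq M R (f1 e) (f2 e) (f3 e)) := by
  refine comp3 (P := fun a b c => FEq M R a b c) ?_ h1 h2 h3
  unfold FEq
  have := h.univ_mem
  repeat' first
    | exact h.proj _
    | assumption
    | apply dfn_le h hP | apply dfn_Em h hP
    | apply h.allIn | apply h.exIn | apply h.allC | apply h.exC
    | apply Dfn.not | apply Dfn.imp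
    | apply h.Feq | apply h.Fmem | apply IsGBC.Fcls | apply h.Fpair

variable (hC : C.Countable) (hpt : Pretame M C P R)
include hC hpt

theorem FEq_iff {x y p : ZFSet.{u}} (hx : x ∈ M) (hy : y ∈ M) (hp : p ∈ P) :
    (∀ G, Generic C P R G → p ∈ G → val G x = val G y) ↔ FEq M R p x y := by
  constructor
  · intro H t ht htp hE
    obtain ⟨G, hG, htG⟩ := exists_generic hP hC (hP.left_mem htp)
    exact Em_sound h hP hG htG hx hy hE (H G hG (hG.upward _ htG _ htp))
  · intro H G hG hpG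
    obtain ⟨t, ht, hcase, htp⟩ := hG.meets_below h hP
      (A := fun t => Ep M R t x y ∨ Em M R t x y)
      ((dfn_Ep h hP (h.proj 0) (h.const hx) (h.const hy)).or
        (dfn_Em h hP (h.proj 0) (h.const hx) (h.const hy))) hpG
      (fun t ht => decide_eq h hP hC hpt x hx y hy t (hP.left_mem ht))
    rcases hcase with hE | hE
    · exact Ep_sound h hP hG ht hx hy hE
    · exact absurd hE (H t (gM h hP hG ht) htp)

theorem FEq_truth {x y : ZFSet.{u}} (hx : x ∈ M) (hy : y ∈ M) {G : Set ZFSet.{u}}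
    (hG : Generic C P R G) (hval : val G x = val G y) : ∃ p ∈ G, FEq M R p x y := by
  obtain ⟨p0, hp0⟩ := hG.nonempty
  obtain ⟨t, ht, hcase, _⟩ := hG.meets_below h hP
    (A := fun t => Ep M R t x y ∨ Em M R t x y)
    ((dfn_Ep h hP (h.proj 0) (h.const hx) (h.const hy)).or
      (dfn_Em h hP (h.proj 0) (h.const hx) (h.const hy))) hp0
    (fun t ht => decide_eq h hP hC hpt x hx y hy t (hP.left_mem ht))
  rcases hcase with hE | hE
  · refine ⟨t, ht, (FEq_iff h hP hC hpt hx hy (hG.sub ht)).1 fun G' hG' htG' => ?_⟩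
    exact Ep_sound h hP hG' htG' hx hy hE
  · exact absurd hval (Em_sound h hP hG ht hx hy hE)

omit hC hpt in
theorem FEq.mono {p q x y : ZFSet.{u}} (H : FEq M R p x y) (hq : pair q p ∈ R) :
    FEq M R q x y := fun t ht htq => H t ht (hP.trans _ _ _ htq hq)

/-- membership in (the evaluation of) a definable collection of pairs `Y` -/
theorem mem_iff_aux {x p : ZFSet.{u}} {Y : ZFSet.{u} → Prop} (hx : x ∈ M)
    (hY : Dfn M C (fun e => Y (e 0))) (hp : p ∈ P) :
    (∀ G, Generic C P R G → p ∈ G →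
      ∃ z ∈ M, ∃ s ∈ M, Y (pair z s) ∧ s ∈ G ∧ val G x = val G z) ↔
    ∀ p' ∈ M, pair p' p ∈ R → ∃ r ∈ M, pair r p' ∈ R ∧
      ∃ z ∈ M, ∃ s ∈ M, (Y (pair z s) ∧ pair r s ∈ R) ∧ FEq M R r x z := by
  have hPM := h.classes _ hP.carrier_mem
  constructor
  · intro H p' hp' hp'p
    obtain ⟨G, hG, hp'G⟩ := exists_generic hP hC (hP.left_mem hp'p)
    obtain ⟨z, hz, s, hs, hYz, hsG, e⟩ := H G hG (hG.upward _ hp'G _ hp'p)
    obtain ⟨t, ht, hF⟩ := FEq_truth h hP hC hpt hx hz hG e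
    obtain ⟨r, hr, h1, h2, h3⟩ := dir3 h hP hG hp'G hsG ht
    exact ⟨r, gM h hP hG hr, h1, z, hz, s, hs, ⟨hYz, h2⟩, hF.mono h hP h3⟩
  · intro H G hG hpG
    have hd : Dfn M C (fun e => ∃ z ∈ M, ∃ s ∈ M, (Y (pair z s) ∧ pair (e 0) s ∈ R) ∧
        FEq M R (e 0) x z) := by
      have := h.univ_mem
      have := h.const hx
      have hY' : ∀ {f : (ℕ → ZFSet.{u}) → ZFSet.{u}}, DfnF M C f →
        Dfn M C (fun e => Y (f e)) := fun hf => comp1 hY hf
      repeat' first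
        | exact h.proj _
        | assumption
        | apply dfn_le h hP | apply dfn_FEq h hP
        | apply h.allIn | apply h.exIn | apply h.allC | apply h.exC
        | apply Dfn.and | apply hY'
        | apply h.Feq | apply h.Fmem | apply IsGBC.Fcls | apply h.Fpair
    obtain ⟨r, hr, ⟨z, hz, s, hs, ⟨hYz, hrs⟩, hF⟩, _⟩ := hG.meets_below h hP
      (A := fun r => ∃ z ∈ M, ∃ s ∈ M, (Y (pair z s) ∧ pair r s ∈ R) ∧ FEq M R r x z) hd hpG
      (fun t ht => by
        obtain ⟨r, _, h1, h2⟩ := H t (hPM (hP.left_mem ht)) ht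
        exact ⟨r, h1, h2⟩)
    exact ⟨z, hz, s, hs, hYz, hG.upward _ hr _ hrs,
      (FEq_iff h hP hC hpt hx hz (hG.sub hr)).2 hF G hG hr⟩

omit hC hpt in
theorem dfn_mem_aux {Y : ZFSet.{u} → ZFSet.{u} → Prop}
    (hY : Dfn M C (fun e => Y (e 0) (e 1))) :
    Dfn M C (fun e => e 0 ∈ P ∧ ∀ p' ∈ M, pair p' (e 0) ∈ R → ∃ r ∈ M, pair r p' ∈ R ∧
      ∃ z ∈ M, ∃ s ∈ M, (Y (pair z s) (e 2) ∧ pair r s ∈ R) ∧ FEq M R r (e 1) z) := by
  have := h.univ_mem
  have hY' : ∀ {f g : (ℕ → ZFSet.{u}) → ZFSet.{u}}, DfnF M C f → DfnF M C g →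
    Dfn M C (fun e => Y (f e) (g e)) := fun hf hg => comp2 hY hf hg
  have := hP.carrier_mem
  repeat' first
    | exact h.proj _
    | assumption
    | apply dfn_le h hP | apply dfn_FEq h hP
    | apply h.allIn | apply h.exIn | apply h.allC | apply h.exC
    | apply Dfn.and | apply hY' | apply Dfn.imp
    | apply h.Feq | apply h.Fmem | apply IsGBC.Fcls | apply h.Fpair

end

/-- the induction statement -/
def Good (M : Set ZFSet.{u}) (C : Set (Set ZFSet.{u})) (P R : Set ZFSet.{u})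
    (Γ : ℕ → Set ZFSet.{u}) (φ : Fml) : Prop :=
  Dfn M C (fun e => Forces M C P R (e 0) φ (fun i => e (i + 1)) Γ) ∧
  ∀ G, Generic C P R G → ∀ σ : ℕ → ZFSet.{u}, (∀ i, σ i ∈ M) →
    Sat (ext M P G) φ (fun i => val G (σ i)) (fun k => valC G (Γ k)) →
      ∃ p ∈ G, Forces M C P R p φ σ Γ

theorem Forces.mono (hP : IsForcing C P R) {Γ : ℕ → Set ZFSet.{u}} {φ : Fml}
    {σ : ℕ → ZFSet.{u}} {p q : ZFSet.{u}} (H : Forces M C P R p φ σ Γ) (hq : pair q p ∈ R) :
    Forces M C P R q φ σ Γ :=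
  ⟨hP.left_mem hq, fun G hG hqG => H.2 G hG (hG.upward _ hqG _ hq)⟩

/-- fixing parameters, one free variable -/
theorem param1 (h : IsGBC M C) {Q : (ℕ → ZFSet.{u}) → Prop} (hQ : Dfn M C Q)
    {σ : ℕ → ZFSet.{u}} (hσ : ∀ i, σ i ∈ M) {f : (ℕ → ZFSet.{u}) → ZFSet.{u}}
    (hf : DfnF M C f) : Dfn M C (fun e => Q (cons (f e) σ)) :=
  h.of_cls (P := fun x => Q (cons x σ)) (h.comp hQ σ hσ) hf

/-- fixing parameters, two free variables -/
theorem param2 (h : IsGBC M C) {Q : (ℕ → ZFSet.{u}) → Prop} (hQ : Dfn M C Q)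
    {σ : ℕ → ZFSet.{u}} (hσ : ∀ i, σ i ∈ M) {f g : (ℕ → ZFSet.{u}) → ZFSet.{u}}
    (hf : DfnF M C f) (hg : DfnF M C g) :
    Dfn M C (fun e => Q (cons (f e) (cons (g e) σ))) := by
  have h1 : Dfn M C (fun e => ∃ x ∈ M, ∃ y ∈ M, e 0 = pair x y ∧
      Q (cons x (cons y (fun i => e (i + 1))))) := by
    refine h.exC h.univ_mem (R := fun e x => ∃ y ∈ M, e 0 = pair x y ∧
      Q (cons x (cons y (fun i => e (i + 1))))) ?_
    refine h.exC h.univ_mem (R := fun e y => e 1 = pair (e 0) y ∧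
      Q (cons (e 0) (cons y (fun i => e (i + 2))))) ?_
    refine (h.Feq (h.proj 2) (h.Fpair (h.proj 1) (h.proj 0))).and ?_
    refine (hQ.rename (fun i => if i = 0 then 1 else if i = 1 then 0 else i + 1)).congr
      fun e _ => ?_
    have : (fun i => e (if i = 0 then 1 else if i = 1 then 0 else i + 1)) =
        cons (e 1) (cons (e 0) (fun i => e (i + 2 + 1))) := by
      funext i
      rcases i with _ | _ | i
      · rfl
      · rfl
      · simp [cons]
    rw [this]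
  have h2 := h.comp h1 σ hσ
  refine (IsGBC.Fcls (h.Fpair hf hg) h2).congr fun e he => ?_
  have hfM := hf.1 e he
  have hgM := hg.1 e he
  constructor
  · intro H
    exact ⟨h.pair_mem hfM hgM, f e, hfM, g e, hgM, rfl, H⟩
  · rintro ⟨_, x, _, y, _, e1, H⟩
    rw [cons_zero, pair_inj] at e1
    obtain ⟨rfl, rfl⟩ := e1
    exact H

section

variable (h : IsGBC M C) (hP : IsForcing C P R) (hC : C.Countable)
  {Γ : ℕ → Set ZFSet.{u}}
include h hP

theorem fdfn {φ : Fml}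
    (ha : Dfn M C (fun e => Forces M C P R (e 0) φ (fun i => e (i + 1)) Γ))
    {σ : ℕ → ZFSet.{u}} (hσ : ∀ i, σ i ∈ M) {f : (ℕ → ZFSet.{u}) → ZFSet.{u}}
    (hf : DfnF M C f) : Dfn M C (fun e => Forces M C P R (f e) φ σ Γ) :=
  param1 h ha hσ hf

/-- if `φ` fails in `M[G]` then some condition in `G` has no extension forcing `φ` -/
theorem neg_truth {φ : Fml}
    (ha : Dfn M C (fun e => Forces M C P R (e 0) φ (fun i => e (i + 1)) Γ))
    {G : Set ZFSet.{u}} (hG : Generic C P R G) {σ : ℕ → ZFSet.{u}} (hσ : ∀ i, σ i ∈ M)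
    (hn : ¬ Sat (ext M P G) φ (fun i => val G (σ i)) (fun k => valC G (Γ k))) :
    ∃ r ∈ G, ∀ q ∈ M, pair q r ∈ R → ¬ Forces M C P R q φ σ Γ := by
  obtain ⟨p0, hp0⟩ := hG.nonempty
  have hd : Dfn M C (fun e => Forces M C P R (e 0) φ σ Γ ∨
      ∀ q ∈ M, pair q (e 0) ∈ R → ¬ Forces M C P R q φ σ Γ) := by
    have := h.univ_mem
    repeat' first
      | exact h.proj _
      | assumption
      | apply dfn_le h hP | apply fdfn h hP ha hσ
      | apply h.allIn | apply h.exIn | apply h.allC | apply h.exC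
      | apply Dfn.and | apply Dfn.or | apply Dfn.not | apply Dfn.imp
  obtain ⟨t, ht, hcase, _⟩ := hG.meets_below h hP
    (A := fun t => Forces M C P R t φ σ Γ ∨
      ∀ q ∈ M, pair q t ∈ R → ¬ Forces M C P R q φ σ Γ) hd hp0
    (fun t ht => by
      by_cases hex : ∃ q ∈ M, pair q t ∈ R ∧ Forces M C P R q φ σ Γ
      · obtain ⟨q, _, hqt, hF⟩ := hex
        exact ⟨q, hqt, Or.inl hF⟩
      · push Not at hex
        exact ⟨t, hP.refl _ (hP.left_mem ht), Or.inr hex⟩)
  rcases hcase with hF | hF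
  · exact absurd (hF.2 G hG ht) hn
  · exact ⟨t, ht, hF⟩

include hC

theorem forces_neg {φ : Fml} (hφ : Good M C P R Γ φ) {σ : ℕ → ZFSet.{u}}
    (hσ : ∀ i, σ i ∈ M) {p : ZFSet.{u}} :
    Forces M C P R p (Fml.neg φ) σ Γ ↔
      p ∈ P ∧ ∀ q ∈ M, pair q p ∈ R → ¬ Forces M C P R q φ σ Γ := by
  constructor
  · rintro ⟨hp, H⟩
    refine ⟨hp, fun q hq hqp hF => ?_⟩
    obtain ⟨G, hG, hqG⟩ := exists_generic hP hC (hP.left_mem hqp)
    exact H G hG (hG.upward _ hqG _ hqp) (hF.2 G hG hqG)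
  · rintro ⟨hp, H⟩
    refine ⟨hp, fun G hG hpG hS => ?_⟩
    obtain ⟨r, hr, hF⟩ := hφ.2 G hG σ hσ hS
    obtain ⟨q, hq, hqp, hqr⟩ := hG.directed p hpG r hr
    exact H q (gM h hP hG hq) hqp (hF.mono hP hqr)

theorem good_neg {φ : Fml} (hφ : Good M C P R Γ φ) : Good M C P R Γ (Fml.neg φ) := by
  constructor
  · have hd : Dfn M C (fun e => e 0 ∈ P ∧ ∀ q ∈ M, pair q (e 0) ∈ R →
        ¬ Forces M C P R q φ (fun i => e (i + 1)) Γ) := by
      refine (IsGBC.Fcls (h.proj 0) hP.carrier_mem).and ?_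
      refine h.allC h.univ_mem (R := fun e q => pair q (e 0) ∈ R →
        ¬ Forces M C P R q φ (fun i => e (i + 1)) Γ) ?_
      refine (dfn_le h hP (h.proj 0) (h.proj 1)).imp (Dfn.not ?_)
      exact (hφ.1.rename (fun i => if i = 0 then 0 else i + 1)).congr fun e _ => Iff.rfl
    exact hd.congr fun e he => forces_neg h hP hC hφ (fun i => he (i + 1))
  · intro G hG σ hσ hS
    obtain ⟨r, hr, H⟩ := neg_truth h hP hφ.1 hG hσ hS
    exact ⟨r, hr, (forces_neg h hP hC hφ hσ).2 ⟨hG.sub hr, H⟩⟩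

theorem good_and {φ ψ : Fml} (hφ : Good M C P R Γ φ) (hψ : Good M C P R Γ ψ) :
    Good M C P R Γ (Fml.and φ ψ) := by
  constructor
  · refine (hφ.1.and hψ.1).congr fun e _ => ?_
    constructor
    · rintro ⟨hp, H⟩
      exact ⟨⟨hp, fun G hG hpG => (H G hG hpG).1⟩, ⟨hp, fun G hG hpG => (H G hG hpG).2⟩⟩
    · rintro ⟨⟨hp, H1⟩, ⟨_, H2⟩⟩
      exact ⟨hp, fun G hG hpG => ⟨H1 G hG hpG, H2 G hG hpG⟩⟩
  · rintro G hG σ hσ ⟨h1, h2⟩
    obtain ⟨p, hp, H1⟩ := hφ.2 G hG σ hσ h1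
    obtain ⟨q, hq, H2⟩ := hψ.2 G hG σ hσ h2
    obtain ⟨r, hr, hrp, hrq⟩ := hG.directed p hp q hq
    have F1 := H1.mono hP hrp
    have F2 := H2.mono hP hrq
    exact ⟨r, hr, F1.1, fun G' hG' hrG' => ⟨F1.2 G' hG' hrG', F2.2 G' hG' hrG'⟩⟩

omit h hP hC in
theorem cons_val {G : Set ZFSet.{u}} (τ : ZFSet.{u}) (σ : ℕ → ZFSet.{u}) :
    cons (val G τ) (fun i => val G (σ i)) = fun i => val G (cons τ σ i) := by
  funext i; cases i <;> rfl

omit h hC in
theorem forces_all {φ : Fml} {σ : ℕ → ZFSet.{u}} {p : ZFSet.{u}} :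
    Forces M C P R p (Fml.all φ) σ Γ ↔
      p ∈ P ∧ ∀ τ ∈ M, IsName P τ → Forces M C P R p φ (cons τ σ) Γ := by
  constructor
  · rintro ⟨hp, H⟩
    refine ⟨hp, fun τ hτ hn => ⟨hp, fun G hG hpG => ?_⟩⟩
    have := H G hG hpG (val G τ) ⟨τ, hτ, hn, rfl⟩
    rw [cons_val] at this
    exact this
  · rintro ⟨hp, H⟩
    refine ⟨hp, fun G hG hpG => ?_⟩
    rintro x ⟨τ, hτ, hn, rfl⟩
    rw [cons_val]
    exact (H τ hτ hn).2 G hG hpG

theorem good_all {φ : Fml} (hφ : Good M C P R Γ φ) : Good M C P R Γ (Fml.all φ) := by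
  have ha : Dfn M C (fun e => Forces M C P R (e 0) (Fml.all φ) (fun i => e (i + 1)) Γ) := by
    have hd : Dfn M C (fun e => e 0 ∈ P ∧ ∀ τ ∈ M, IsName P τ →
        Forces M C P R (e 0) φ (cons τ (fun i => e (i + 1))) Γ) := by
      refine (IsGBC.Fcls (h.proj 0) hP.carrier_mem).and ?_
      refine h.allC h.univ_mem (R := fun e τ => IsName P τ →
        Forces M C P R (e 0) φ (cons τ (fun i => e (i + 1))) Γ) ?_
      refine (dfn_isName h hP.carrier_mem (h.proj 0)).imp ?_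
      refine (hφ.1.rename (fun i => if i = 0 then 1 else if i = 1 then 0 else i)).congr
        fun e _ => ?_
      have : (fun i => e (if i + 1 = 0 then 1 else if i + 1 = 1 then 0 else i + 1)) =
          cons (e 0) (fun i => e (i + 1 + 1)) := by
        funext i
        rcases i with _ | i
        · rfl
        · simp [cons]
      change Forces M C P R (e 1) φ (cons (e 0) (fun i => e (i + 1 + 1))) Γ ↔
        Forces M C P R (e 1) φ
          (fun i => e (if i + 1 = 0 then 1 else if i + 1 = 1 then 0 else i + 1)) Γ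
      rw [this]
    exact hd.congr fun e _ => forces_all hP
  refine ⟨ha, ?_⟩
  intro G hG σ hσ hS
  obtain ⟨p0, hp0⟩ := hG.nonempty
  have hd : Dfn M C (fun e => Forces M C P R (e 0) (Fml.all φ) σ Γ ∨
      ∃ τ ∈ M, IsName P τ ∧ ∀ q ∈ M, pair q (e 0) ∈ R →
        ¬ Forces M C P R q φ (cons τ σ) Γ) := by
    have := h.univ_mem
    have := hP.carrier_mem
    have hφ2 : ∀ {f g : (ℕ → ZFSet.{u}) → ZFSet.{u}}, DfnF M C f → DfnF M C g →
        Dfn M C (fun e => Forces M C P R (f e) φ (cons (g e) σ) Γ) := fun hf hg =>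
      param2 h hφ.1 hσ hf hg
    repeat' first
      | exact h.proj _
      | assumption
      | apply dfn_le h hP | apply fdfn h hP ha hσ | apply dfn_isName h | apply hφ2
      | apply h.allIn | apply h.exIn | apply h.allC | apply h.exC
      | apply Dfn.and | apply Dfn.or | apply Dfn.not | apply Dfn.imp
  obtain ⟨t, ht, hcase, _⟩ := hG.meets_below h hP
    (A := fun t => Forces M C P R t (Fml.all φ) σ Γ ∨
      ∃ τ ∈ M, IsName P τ ∧ ∀ q ∈ M, pair q t ∈ R →
        ¬ Forces M C P R q φ (cons τ σ) Γ) hd hp0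
    (fun t ht => by
      have htP := hP.left_mem ht
      by_cases hF : Forces M C P R t (Fml.all φ) σ Γ
      · exact ⟨t, hP.refl t htP, Or.inl hF⟩
      · have : ∃ τ ∈ M, IsName P τ ∧ ¬ Forces M C P R t φ (cons τ σ) Γ := by
          by_contra hc
          push Not at hc
          exact hF ((forces_all hP).2 ⟨htP, hc⟩)
        obtain ⟨τ, hτ, hn, hnF⟩ := this
        have : ∃ G', Generic C P R G' ∧ t ∈ G' ∧ ¬ Sat (ext M P G') φ
            (fun i => val G' (cons τ σ i)) (fun k => valC G' (Γ k)) := by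
          by_contra hc
          push Not at hc
          exact hnF ⟨htP, hc⟩
        obtain ⟨G', hG', htG', hnS⟩ := this
        obtain ⟨r, hr, H⟩ := neg_truth h hP hφ.1 hG' (cons_mem hτ hσ) hnS
        obtain ⟨t', ht', h1, h2⟩ := hG'.directed t htG' r hr
        exact ⟨t', h1, Or.inr ⟨τ, hτ, hn, fun q hq hqt =>
          H q hq (hP.trans _ _ _ hqt h2)⟩⟩)
  rcases hcase with hF | ⟨τ, hτ, hn, H⟩
  · exact ⟨t, ht, hF⟩
  · have hSτ := hS (val G τ) ⟨τ, hτ, hn, rfl⟩
    rw [cons_val] at hSτ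
    obtain ⟨p, hp, hF⟩ := hφ.2 G hG (cons τ σ) (cons_mem hτ hσ) hSτ
    obtain ⟨q, hq, h1, h2⟩ := hG.directed t ht p hp
    exact absurd (hF.mono hP h2) (H q (gM h hP hG hq) h1)

variable (hpt : Pretame M C P R)
include hpt

theorem good_eq (i j : ℕ) : Good M C P R Γ (Fml.eq i j) := by
  constructor
  · have hd : Dfn M C (fun e => e 0 ∈ P ∧ FEq M R (e 0) (e (i + 1)) (e (j + 1))) :=
      (IsGBC.Fcls (h.proj 0) hP.carrier_mem).and
        (dfn_FEq h hP (h.proj 0) (h.proj _) (h.proj _))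
    refine hd.congr fun e he => ?_
    exact and_congr_right fun hp => FEq_iff h hP hC hpt (he _) (he _) hp
  · intro G hG σ hσ hS
    obtain ⟨p, hp, hF⟩ := FEq_truth h hP hC hpt (hσ i) (hσ j) hG hS
    exact ⟨p, hp, hG.sub hp, (FEq_iff h hP hC hpt (hσ i) (hσ j) (hG.sub hp)).2 hF⟩

theorem good_mem (i j : ℕ) : Good M C P R Γ (Fml.mem i j) := by
  have hval : ∀ G x, ∀ y ∈ M, (val G x ∈ val G y ↔
      ∃ z ∈ M, ∃ s ∈ M, pair z s ∈ y ∧ s ∈ G ∧ val G x = val G z) := by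
    intro G x y hy
    rw [mem_val]
    constructor
    · rintro ⟨z, s, hs, hzs, e⟩
      exact ⟨z, (h.of_pair_mem_mem hy hzs).1, s, (h.of_pair_mem_mem hy hzs).2, hzs, hs, e⟩
    · rintro ⟨z, _, s, _, hzs, hs, e⟩; exact ⟨z, s, hs, hzs, e⟩
  constructor
  · have hd := (dfn_mem_aux h hP (Y := fun v y => v ∈ y)
      (h.Fmem (h.proj 0) (h.proj 1))).rename
      (fun k => if k = 0 then 0 else if k = 1 then i + 1 else j + 1)
    refine hd.congr fun e he => ?_
    have h1 : Forces M C P R (e 0) (Fml.mem i j) (fun i => e (i + 1)) Γ ↔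
        e 0 ∈ P ∧ ∀ G, Generic C P R G → e 0 ∈ G →
          ∃ z ∈ M, ∃ s ∈ M, pair z s ∈ e (j + 1) ∧ s ∈ G ∧ val G (e (i + 1)) = val G z := by
      refine and_congr_right fun hp => forall_congr' fun G => forall_congr' fun _ =>
        forall_congr' fun _ => ?_
      exact hval G _ _ (he _)
    rw [h1]
    exact and_congr_right fun hp => mem_iff_aux h hP hC hpt (Y := fun v => v ∈ e (j + 1))
      (he _) (h.Fmem (h.proj 0) (h.const (he _))) hp
  · intro G hG σ hσ hS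
    obtain ⟨z, hz, s, hs, hzs, hsG, e⟩ := (hval G _ _ (hσ j)).1 hS
    obtain ⟨t, ht, hF⟩ := FEq_truth h hP hC hpt (hσ i) hz hG e
    obtain ⟨r, hr, hrs, hrt⟩ := hG.directed s hsG t ht
    refine ⟨r, hr, hG.sub hr, fun G' hG' hrG' => ?_⟩
    refine (hval G' _ _ (hσ j)).2 ⟨z, hz, s, hs, hzs, hG'.upward _ hrG' _ hrs, ?_⟩
    exact (FEq_iff h hP hC hpt (hσ i) hz (hG.sub ht)).2 hF G' hG' (hG'.upward _ hrG' _ hrt)

theorem good_cls (hΓ : ∀ k, Γ k ∈ C) (i k : ℕ) :
    Good M C P R Γ (Fml.cls i k) := by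
  have hval : ∀ G x, (val G x ∈ valC G (Γ k) ↔
      ∃ z ∈ M, ∃ s ∈ M, pair z s ∈ Γ k ∧ s ∈ G ∧ val G x = val G z) := by
    intro G x
    constructor
    · rintro ⟨z, s, hs, hzs, e⟩
      obtain ⟨hz, hsM⟩ := h.of_pair_mem (h.classes _ (hΓ k) hzs)
      exact ⟨z, hz, s, hsM, hzs, hs, e⟩
    · rintro ⟨z, _, s, _, hzs, hs, e⟩; exact ⟨z, s, hs, hzs, e⟩
  constructor
  · have hd := (dfn_mem_aux h hP (Y := fun v y => v ∈ Γ k)
      (IsGBC.Fcls (h.proj 0) (hΓ k))).rename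
      (fun k => if k = 0 then 0 else if k = 1 then i + 1 else 0)
    refine hd.congr fun e he => ?_
    have h1 : Forces M C P R (e 0) (Fml.cls i k) (fun i => e (i + 1)) Γ ↔
        e 0 ∈ P ∧ ∀ G, Generic C P R G → e 0 ∈ G →
          ∃ z ∈ M, ∃ s ∈ M, pair z s ∈ Γ k ∧ s ∈ G ∧ val G (e (i + 1)) = val G z := by
      refine and_congr_right fun hp => forall_congr' fun G => forall_congr' fun _ =>
        forall_congr' fun _ => ?_
      exact hval G _
    rw [h1]
    exact and_congr_right fun hp => mem_iff_aux h hP hC hpt (Y := fun v => v ∈ Γ k)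
      (he _) (IsGBC.Fcls (h.proj 0) (hΓ k)) hp
  · intro G hG σ hσ hS
    obtain ⟨z, hz, s, hs, hzs, hsG, e⟩ := (hval G _).1 hS
    obtain ⟨t, ht, hF⟩ := FEq_truth h hP hC hpt (hσ i) hz hG e
    obtain ⟨r, hr, hrs, hrt⟩ := hG.directed s hsG t ht
    refine ⟨r, hr, hG.sub hr, fun G' hG' hrG' => ?_⟩
    refine (hval G' _).2 ⟨z, hz, s, hs, hzs, hG'.upward _ hrG' _ hrs, ?_⟩
    exact (FEq_iff h hP hC hpt (hσ i) hz (hG.sub ht)).2 hF G' hG' (hG'.upward _ hrG' _ hrt)

theorem good (hΓ : ∀ k, Γ k ∈ C) (φ : Fml) : Good M C P R Γ φ := by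
  induction φ with
  | mem i j => exact good_mem h hP hC hpt i j
  | eq i j => exact good_eq h hP hC hpt i j
  | cls i k => exact good_cls h hP hC hpt hΓ i k
  | neg φ ih => exact good_neg h hP hC ih
  | and φ ψ ih1 ih2 => exact good_and h hP hC ih1 ih2
  | all φ ih => exact good_all h hP hC ih

end

/-- auxiliary relation for coding tuples -/
def KK (M P : Set ZFSet.{u}) (Q : (ℕ → ZFSet.{u}) → Prop) : ℕ → (ℕ → ZFSet.{u}) → Prop
  | 0, e => Q e
  | n + 1, e => ∃ y ∈ M, ∃ x ∈ M, (IsName P x ∧ e 0 = pair y x) ∧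
      KK M P Q n (cons y (cons x (fun i => e (i + 1))))

theorem dfn_KK (h : IsGBC M C) (hP : P ∈ C) {Q : (ℕ → ZFSet.{u}) → Prop} (hQ : Dfn M C Q)
    (n : ℕ) : Dfn M C (KK M P Q n) := by
  induction n with
  | zero => exact hQ
  | succ n ih =>
    change Dfn M C (fun e => ∃ y ∈ M, ∃ x ∈ M, (IsName P x ∧ e 0 = pair y x) ∧
      KK M P Q n (cons y (cons x (fun i => e (i + 1)))))
    refine h.exC h.univ_mem (R := fun e y => ∃ x ∈ M, (IsName P x ∧ e 0 = pair y x) ∧
      KK M P Q n (cons y (cons x (fun i => e (i + 1))))) ?_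
    refine h.exC h.univ_mem (R := fun e x => (IsName P x ∧ e 1 = pair (e 0) x) ∧
      KK M P Q n (cons (e 0) (cons x (fun i => e (i + 2))))) ?_
    refine Dfn.and (Dfn.and (dfn_isName h hP (h.proj 0))
      (h.Feq (h.proj 2) (h.Fpair (h.proj 1) (h.proj 0)))) ?_
    refine (ih.rename (fun i => if i = 0 then 1 else if i = 1 then 0 else i + 1)).congr
      fun e _ => ?_
    have : (fun i => e (if i = 0 then 1 else if i = 1 then 0 else i + 1)) =
        cons (e 1) (cons (e 0) (fun i => e (i + 2 + 1))) := by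
      funext i
      rcases i with _ | _ | i
      · rfl
      · rfl
      · simp [cons]
    rw [this]

theorem tuple_congr {p : ZFSet.{u}} {σ τ : ℕ → ZFSet.{u}} {n : ℕ}
    (hst : ∀ i, i < n → σ i = τ i) : tuple p σ n = tuple p τ n := by
  induction n with
  | zero => rfl
  | succ n ih =>
    simp only [tuple]
    rw [ih (fun i hi => hst i (by omega)), hst n (by omega)]

theorem KK_iff (h : IsGBC M C) {Q : (ℕ → ZFSet.{u}) → Prop} (n : ℕ) :
    ∀ (z : ZFSet.{u}) (f : ℕ → ZFSet.{u}), z ∈ M →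
      (KK M P Q n (cons z f) ↔ ∃ p, ∃ σ : ℕ → ZFSet.{u}, (∀ i, i < n → σ i ∈ M ∧ IsName P (σ i)) ∧
        (∀ i, σ (n + i) = f i) ∧ z = tuple p σ n ∧ Q (cons p σ)) := by
  induction n with
  | zero =>
    intro z f hz
    constructor
    · intro H
      exact ⟨z, f, fun i hi => absurd hi (Nat.not_lt_zero i), fun i => by rw [Nat.zero_add],
        rfl, H⟩
    · rintro ⟨p, σ, _, hf, rfl, H⟩
      have : σ = f := by funext i; rw [← hf i, Nat.zero_add]
      rw [← this]; exact H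
  | succ n ih =>
    intro z f hz
    constructor
    · rintro ⟨y, hy, x, hx, ⟨hn, e⟩, H⟩
      rw [cons_zero] at e
      obtain ⟨p, σ, h1, h2, h3, h4⟩ := (ih y (cons x f) hy).1 H
      have hσn : σ n = x := by have := h2 0; simpa using this
      refine ⟨p, σ, ?_, ?_, ?_, h4⟩
      · intro i hi
        rcases Nat.lt_succ_iff_lt_or_eq.1 hi with hi | rfl
        · exact h1 i hi
        · rw [hσn]; exact ⟨hx, hn⟩
      · intro i
        have := h2 (i + 1)
        rw [cons_succ] at this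
        rw [← this]; congr 1; omega
      · simp only [tuple]
        rw [e, h3, hσn]
    · rintro ⟨p, σ, h1, h2, h3, h4⟩
      simp only [tuple] at h3
      have hyx := h.of_pair_mem (h3 ▸ hz)
      refine ⟨tuple p σ n, hyx.1, σ n, hyx.2, ⟨(h1 n (Nat.lt_succ_self n)).2, h3⟩, ?_⟩
      refine (ih _ _ hyx.1).2 ⟨p, σ, fun i hi => h1 i (by omega), ?_, rfl, h4⟩
      intro i
      rcases i with _ | i
      · rfl
      · change σ (n + (i + 1)) = f i
        rw [← h2 i]; congr 1; omega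

theorem tuple_mem (h : IsGBC M C) {p : ZFSet.{u}} {σ : ℕ → ZFSet.{u}} (hp : p ∈ M)
    (hσ : ∀ i, σ i ∈ M) (n : ℕ) : tuple p σ n ∈ M := by
  induction n with
  | zero => exact hp
  | succ n ih => exact h.pair_mem ih (hσ n)

/-- pretame forcings satisfy the forcing theorem -/
theorem forcingTheorem_of_pretame (h : IsGBC M C) (hP : IsForcing C P R) (hC : C.Countable)
    (hpt : Pretame M C P R) : ForcingTheorem M C P R := by
  intro φ Γ hΓ
  have hg := good h hP hC hpt (fun k => (hΓ k).1) φ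
  constructor
  · intro n
    have hK := h.comp (dfn_KK h hP.carrier_mem hg.1 n) (fun _ => ∅) (fun _ => h.empty_mem)
    have : {z | ∃ (p : ZFSet.{u}) (σ : ℕ → ZFSet.{u}),
        (∀ i, σ i ∈ M ∧ IsName P (σ i)) ∧ (∀ i, n ≤ i → σ i = ∅) ∧ z = tuple p σ n ∧
        Forces M C P R p φ σ Γ} =
        {x | x ∈ M ∧ KK M P (fun e => Forces M C P R (e 0) φ (fun i => e (i + 1)) Γ) n
          (cons x (fun _ => ∅))} := by
      ext z
      simp only [Set.mem_ofPred_eq]
      constructor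
      · rintro ⟨p, σ, h1, h2, rfl, h3⟩
        have hpM := h.classes _ hP.carrier_mem h3.1
        have hz := tuple_mem h hpM (fun i => (h1 i).1) n
        refine ⟨hz, (KK_iff h n _ _ hz).2 ⟨p, σ, fun i _ => h1 i, fun i => h2 _ (by omega),
          rfl, h3⟩⟩
      · rintro ⟨hz, H⟩
        obtain ⟨p, σ, h1, h2, h3, h4⟩ := (KK_iff h n _ _ hz).1 H
        have h2' : ∀ i, n ≤ i → σ i = ∅ := by
          intro i hi
          have := h2 (i - n)
          rwa [Nat.add_sub_cancel' hi] at this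
        refine ⟨p, σ, fun i => ?_, h2', h3, h4⟩
        by_cases hi : i < n
        · exact h1 i hi
        · rw [h2' i (by omega)]
          exact ⟨h.empty_mem, isName_empty⟩
    rw [this]
    exact hK
  · intro G hG σ hσ
    constructor
    · intro hS
      exact hg.2 G hG σ (fun i => (hσ i).1) hS
    · rintro ⟨p, hp, hF⟩
      exact hF.2 G hG hp

end Pool.Agent.Helper98.CF
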