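import Pool.Agent.Helper98.CF.Rank

set_option autoImplicit false

namespace Pool.Agent.Helper98.CF

open ZFSet

universe u

variable {M : Set ZFSet.{u}} {C : Set (Set ZFSet.{u})} {P R : Set ZFSet.{u}}

theorem IsForcing.left_mem (hP : IsForcing C P R) {p q : ZFSet.{u}} (h : pair p q ∈ R) :
    p ∈ P := (hP.rel_sub p q h).1

theorem IsForcing.right_mem (hP : IsForcing C P R) {p q : ZFSet.{u}} (h : pair p q ∈ R) :
    q ∈ P := (hP.rel_sub p q h).2

/-- definability of `p ≤ q` -/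
theorem dfn_le (h : IsGBC M C) (hP : IsForcing C P R) {f g : (ℕ → ZFSet.{u}) → ZFSet.{u}}
    (hf : DfnF M C f) (hg : DfnF M C g) : Dfn M C (fun e => pair (f e) (g e) ∈ R) :=
  IsGBC.Fcls (h.Fpair hf hg) hP.rel_mem

/-- Rasiowa–Sikorski -/
theorem exists_generic (hP : IsForcing C P R) (hC : C.Countable)
    {p : ZFSet.{u}} (hp : p ∈ P) : ∃ G, Generic C P R G ∧ p ∈ G := by
  classical
  let S : Set (Set ZFSet.{u}) := {D | D ∈ C ∧ IsDense P R D}
  have hS : S.Countable := hC.mono fun D hD => hD.1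
  have hne : S.Nonempty := ⟨P, hP.carrier_mem, Set.Subset.rfl, fun q hq => ⟨q, hq, hP.refl q hq⟩⟩
  obtain ⟨D, hD⟩ := hS.exists_eq_range hne
  have hDn : ∀ n, IsDense P R (D n) := fun n => by
    have : D n ∈ S := by rw [hD]; exact ⟨n, rfl⟩
    exact this.2
  let step : ℕ → {q : ZFSet.{u} // q ∈ P} → {q : ZFSet.{u} // q ∈ P} := fun n q =>
    ⟨((hDn n).2 q.1 q.2).choose, (hDn n).1 ((hDn n).2 q.1 q.2).choose_spec.1⟩
  have hstep : ∀ n q, (step n q).1 ∈ D n ∧ pair (step n q).1 q.1 ∈ R := fun n q =>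
    ((hDn n).2 q.1 q.2).choose_spec
  let f : ℕ → {q : ZFSet.{u} // q ∈ P} := fun n => Nat.rec ⟨p, hp⟩ (fun n q => step n q) n
  have hf : ∀ n, f (n + 1) = step n (f n) := fun n => rfl
  have hdec : ∀ m n, m ≤ n → pair (f n).1 (f m).1 ∈ R := by
    intro m n hmn
    induction hmn with
    | refl => exact hP.refl _ (f m).2
    | step _ ih =>
      rw [Nat.succ_eq_add_one, hf]
      exact hP.trans _ _ _ (hstep _ _).2 ih
  refine ⟨{q | ∃ n, pair (f n).1 q ∈ R}, ⟨?_, ?_, ?_, ?_, ?_⟩, ?_⟩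
  · rintro q ⟨n, hn⟩; exact hP.right_mem hn
  · exact ⟨p, 0, hP.refl p hp⟩
  · rintro q ⟨n, hn⟩ r hqr; exact ⟨n, hP.trans _ _ _ hn hqr⟩
  · rintro q ⟨n, hn⟩ r ⟨m, hm⟩
    refine ⟨(f (max m n)).1, ⟨max m n, hP.refl _ (f _).2⟩, ?_, ?_⟩
    · exact hP.trans _ _ _ (hdec n _ (le_max_right _ _)) hn
    · exact hP.trans _ _ _ (hdec m _ (le_max_left _ _)) hm
  · intro E hE hEd
    have : E ∈ S := ⟨hE, hEd⟩
    rw [hD] at this
    obtain ⟨n, rfl⟩ := this
    refine ⟨(f (n + 1)).1, ⟨n + 1, hP.refl _ (f (n + 1)).2⟩, ?_⟩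
    rw [hf]; exact (hstep _ _).1
  · exact ⟨0, hP.refl p hp⟩

/-- a generic filter containing `t0` meets every definable class which is dense below `t0` -/
theorem Generic.meets_below (h : IsGBC M C) (hP : IsForcing C P R) {G : Set ZFSet.{u}}
    (hG : Generic C P R G) {A : ZFSet.{u} → Prop} (hA : Dfn M C (fun e => A (e 0)))
    {t0 : ZFSet.{u}} (ht0 : t0 ∈ G)
    (hd : ∀ t, pair t t0 ∈ R → ∃ t', pair t' t ∈ R ∧ A t') :
    ∃ t ∈ G, A t ∧ pair t t0 ∈ R := by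
  have ht0P : t0 ∈ P := hG.sub ht0
  have ht0M : t0 ∈ M := h.classes _ hP.carrier_mem ht0P
  have hD : {q | q ∈ M ∧ (q ∈ P ∧ ((A q ∧ pair q t0 ∈ R) ∨
      ¬ ∃ r ∈ P, pair r q ∈ R ∧ pair r t0 ∈ R))} ∈ C := by
    refine h.cls1 (P := fun q => (q ∈ P ∧ ((A q ∧ pair q t0 ∈ R) ∨
      ¬ ∃ r ∈ P, pair r q ∈ R ∧ pair r t0 ∈ R))) ?_
    refine (IsGBC.Fcls (h.proj 0) hP.carrier_mem).and (Dfn.or (hA.and
      (dfn_le h hP (h.proj 0) (h.const ht0M))) (Dfn.not ?_))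
    exact h.exC hP.carrier_mem (R := fun e r => pair r (e 0) ∈ R ∧ pair r t0 ∈ R)
      ((dfn_le h hP (h.proj 0) (h.proj 1)).and (dfn_le h hP (h.proj 0) (h.const ht0M)))
  have hdense : IsDense P R {q | q ∈ M ∧ (q ∈ P ∧ ((A q ∧ pair q t0 ∈ R) ∨
      ¬ ∃ r ∈ P, pair r q ∈ R ∧ pair r t0 ∈ R))} := by
    refine ⟨fun q hq => hq.2.1, fun q hq => ?_⟩
    by_cases hc : ∃ r ∈ P, pair r q ∈ R ∧ pair r t0 ∈ R
    · obtain ⟨r, hr, hrq, hrt⟩ := hc
      obtain ⟨t', ht', hAt'⟩ := hd r hrt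
      have htP := hP.left_mem ht'
      exact ⟨t', ⟨h.classes _ hP.carrier_mem htP, htP,
        Or.inl ⟨hAt', hP.trans _ _ _ ht' hrt⟩⟩, hP.trans _ _ _ ht' hrq⟩
    · exact ⟨q, ⟨h.classes _ hP.carrier_mem hq, hq, Or.inr hc⟩, hP.refl q hq⟩
  obtain ⟨q, hqG, hqM, hqP, hq⟩ := hG.meets _ hD hdense
  rcases hq with hq | hq
  · exact ⟨q, hqG, hq.1, hq.2⟩
  · obtain ⟨r, hrG, h1, h2⟩ := hG.directed q hqG t0 ht0
    exact absurd ⟨r, hG.sub hrG, h1, h2⟩ hq

theorem IsName.elim {x : ZFSet.{u}} (hx : IsName P x) :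
    (∀ z ∈ x, ∃ y, ∃ p ∈ P, z = pair y p) ∧ ∀ y p, pair y p ∈ x → IsName P y := by
  cases hx with
  | mk _ h h' => exact ⟨h, h'⟩

theorem isName_empty : IsName P (∅ : ZFSet.{u}) :=
  IsName.mk _ (fun z hz => absurd hz (ZFSet.notMem_empty z))
    (fun _ _ hz => absurd hz (ZFSet.notMem_empty _))

/-- a set of names witnessing that its elements are names -/
def GoodN (P : Set ZFSet.{u}) (N : ZFSet.{u}) : Prop :=
  ∀ y ∈ N, ∀ z ∈ y, ∃ w ∈ N, ∃ p ∈ P, z = pair w p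

theorem GoodN.isName {N : ZFSet.{u}} (hN : GoodN P N) : ∀ y, y ∈ N → IsName P y := by
  intro y
  induction hr : rank y using WellFoundedLT.induction generalizing y with
  | _ o ih =>
    intro hy
    refine IsName.mk _ (fun z hz => ?_) (fun w p hwp => ?_)
    · obtain ⟨w, _, p, hp, e⟩ := hN y hy z hz
      exact ⟨w, p, hp, e⟩
    · obtain ⟨w', hw', p', _, e⟩ := hN y hy _ hwp
      rw [pair_inj] at e
      obtain ⟨rfl, rfl⟩ := e
      exact ih (rank w) (by rw [← hr]; exact rank_lt_pair hwp) w rfl hw'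

theorem dfn_GoodN (h : IsGBC M C) (hP : P ∈ C) {f : (ℕ → ZFSet.{u}) → ZFSet.{u}}
    (hf : DfnF M C f) : Dfn M C (fun e => GoodN P (f e)) := by
  refine comp1 (P := fun x => GoodN P x) ?_ hf
  unfold GoodN
  repeat' first
    | exact h.proj _
    | assumption
    | apply h.allIn | apply h.exIn | apply h.allC | apply h.exC
    | apply Dfn.and | apply Dfn.or | apply Dfn.iff | apply Dfn.not | apply Dfn.imp
    | apply h.Feq | apply h.Fmem | apply h.Fpair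

theorem isName_iff (h : IsGBC M C) (hP : P ∈ C) (x : ZFSet.{u}) (hx : x ∈ M) :
    IsName P x ↔ ∃ N ∈ M, x ∈ N ∧ GoodN P N := by
  constructor
  swap
  · rintro ⟨N, _, hxN, hN⟩; exact hN.isName x hxN
  intro hn
  -- the union of all good subsets of `lev x`
  set U : ZFSet.{u} := ZFSet.sUnion (ZFSet.sep (fun N => GoodN P N) (powM M (lev M x)))
    with hU
  have hUM : U ∈ M := h.union _ (h.sep_mem' (P := fun N => GoodN P N)
    (dfn_GoodN h hP (h.proj 0)) (h.powM_mem (h.lev_mem hx)))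
  have memU : ∀ w, w ∈ U ↔ ∃ N ∈ M, N ⊆ lev M x ∧ GoodN P N ∧ w ∈ N := by
    intro w
    rw [hU, mem_sUnion]
    constructor
    · rintro ⟨N, hN, hw⟩
      rw [ZFSet.mem_sep, mem_powM] at hN
      exact ⟨N, hN.1.1, hN.1.2, hN.2, hw⟩
    · rintro ⟨N, h1, h2, h3, hw⟩
      exact ⟨N, by rw [ZFSet.mem_sep, mem_powM]; exact ⟨⟨h1, h2⟩, h3⟩, hw⟩
  have hUg : GoodN P U := by
    intro y hy z hz
    obtain ⟨N, h1, h2, h3, hyN⟩ := (memU y).1 hy
    obtain ⟨w, hw, p, hp, e⟩ := h3 y hyN z hz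
    exact ⟨w, (memU w).2 ⟨N, h1, h2, h3, hw⟩, p, hp, e⟩
  have key : ∀ y, y ∈ lev M x → IsName P y → y ∈ U := by
    intro y
    induction hr : rank y using WellFoundedLT.induction generalizing y with
    | _ o ih =>
      intro hy hyn
      have hyM := (mem_lev.1 hy).1
      refine (memU y).2 ⟨insert y U, h.insert_mem hyM hUM, ?_, ?_, ZFSet.mem_insert _ _⟩
      · intro w hw
        rcases ZFSet.mem_insert_iff.1 hw with rfl | hw
        · exact hy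
        · obtain ⟨N, _, h2, _, hwN⟩ := (memU w).1 hw
          exact h2 hwN
      · intro v hv z hz
        rcases ZFSet.mem_insert_iff.1 hv with rfl | hv
        · obtain ⟨w, p, hp, rfl⟩ := hyn.elim.1 z hz
          have hwM := (h.of_pair_mem_mem hyM hz).1
          have hrk := rank_lt_pair hz
          have hwl : w ∈ lev M x := mem_lev.2 ⟨hwM, hrk.le.trans (mem_lev.1 hy).2⟩
          exact ⟨w, ZFSet.mem_insert_of_mem _ (ih (rank w) (hr ▸ hrk) w rfl hwl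
            (hyn.elim.2 w p hz)), p, hp, rfl⟩
        · obtain ⟨w, hw, p, hp, e⟩ := hUg v hv z hz
          exact ⟨w, ZFSet.mem_insert_of_mem _ hw, p, hp, e⟩
  exact ⟨U, hUM, key x (mem_lev.2 ⟨hx, le_rfl⟩) hn, hUg⟩

theorem dfn_isName (h : IsGBC M C) (hP : P ∈ C) {f : (ℕ → ZFSet.{u}) → ZFSet.{u}}
    (hf : DfnF M C f) : Dfn M C (fun e => IsName P (f e)) := by
  refine (h.exC h.univ_mem (R := fun e N => f e ∈ N ∧ GoodN P N) ?_).congr
    fun e he => isName_iff h hP _ (hf.1 e he)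
  exact (h.Fmem hf.shift (h.proj 0)).and (dfn_GoodN h hP (h.proj 0))

/-- elements of evaluations of names are evaluations of names -/
theorem mem_val_name (h : IsGBC M C) {G : Set ZFSet.{u}} {σ y : ZFSet.{u}}
    (hσ : σ ∈ M) (hn : IsName P σ) :
    y ∈ val G σ ↔ ∃ z ∈ M, IsName P z ∧ ∃ p ∈ G, pair z p ∈ σ ∧ y = val G z := by
  rw [mem_val]
  constructor
  · rintro ⟨z, p, hp, hz, e⟩
    exact ⟨z, (h.of_pair_mem_mem hσ hz).1, hn.elim.2 z p hz, p, hp, hz, e⟩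
  · rintro ⟨z, _, _, p, hp, hz, e⟩
    exact ⟨z, p, hp, hz, e⟩

theorem ext_transitive (h : IsGBC M C) {G : Set ZFSet.{u}} {x y : ZFSet.{u}}
    (hx : x ∈ ext M P G) (hy : y ∈ x) : y ∈ ext M P G := by
  obtain ⟨σ, hσ, hn, rfl⟩ := hx
  obtain ⟨z, hz, hzn, p, hp, hzp, e⟩ := (mem_val_name h hσ hn).1 hy
  exact ⟨z, hz, hzn, e⟩

end Pool.Agent.Helper98.CF
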