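import Pool.Agent.Helper98.CF.Dfn

set_option autoImplicit false

namespace Pool.Agent.Helper98.CF

open ZFSet

universe u

variable {M : Set ZFSet.{u}} {C : Set (Set ZFSet.{u})}

namespace IsGBC

variable (h : IsGBC M C)
include h

theorem empty_mem : (∅ : ZFSet.{u}) ∈ M := by
  obtain ⟨x, hx, h0, -⟩ := h.infinity
  exact h.transitive x hx _ h0

theorem comp {R : (ℕ → ZFSet.{u}) → Prop} (hR : Dfn M C R) (e : ℕ → ZFSet.{u})
    (he : ∀ i, e i ∈ M) : {x | x ∈ M ∧ R (cons x e)} ∈ C := by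
  obtain ⟨φ, E, hE, hφ⟩ := hR
  have : {x | x ∈ M ∧ R (cons x e)} = {x | x ∈ M ∧ Sat M φ (cons x e) E} := by
    ext x
    simp only [Set.mem_ofPred_eq]
    exact and_congr_right fun hx => hφ _ (cons_mem hx he)
  rw [this]
  exact h.comprehension φ e E he hE

theorem cls1 {P : ZFSet.{u} → Prop} (hP : Dfn M C (fun e => P (e 0))) :
    {x | x ∈ M ∧ P x} ∈ C :=
  h.comp hP (fun _ => ∅) (fun _ => h.empty_mem)

theorem univ_mem : M ∈ C := by
  obtain ⟨W, hW, -⟩ := h.global_wo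
  have := h.cls1 (P := fun x => x = x) (Dfn.eq0 0 0 hW)
  simpa using this

theorem Feq {f g : (ℕ → ZFSet.{u}) → ZFSet.{u}} (hf : DfnF M C f) (hg : DfnF M C g) :
    Dfn M C (fun e => f e = g e) :=
  comp2 (P := fun x y => x = y) (Dfn.eq0 0 1 h.univ_mem) hf hg

theorem Fmem {f g : (ℕ → ZFSet.{u}) → ZFSet.{u}} (hf : DfnF M C f) (hg : DfnF M C g) :
    Dfn M C (fun e => f e ∈ g e) :=
  comp2 (P := fun x y => x ∈ y) (Dfn.mem0 0 1 h.univ_mem) hf hg

omit h in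
theorem Fcls {f : (ℕ → ZFSet.{u}) → ZFSet.{u}} (hf : DfnF M C f) {A : Set ZFSet.{u}}
    (hA : A ∈ C) : Dfn M C (fun e => f e ∈ A) :=
  comp1 (P := fun x => x ∈ A) (Dfn.cls0 0 hA) hf

theorem proj (i : ℕ) : DfnF M C (fun e => e i) :=
  ⟨fun _ he => he i, Dfn.eq0 0 (i + 1) h.univ_mem⟩

theorem of_cls {P : ZFSet.{u} → Prop} (hP : {x | x ∈ M ∧ P x} ∈ C)
    {f : (ℕ → ZFSet.{u}) → ZFSet.{u}} (hf : DfnF M C f) :
    Dfn M C (fun e => P (f e)) :=
  (Fcls hf hP).congr fun e he => by simp [hf.1 e he]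

theorem allC {A : Set ZFSet.{u}} (hA : A ∈ C) {R : (ℕ → ZFSet.{u}) → ZFSet.{u} → Prop}
    (hR : Dfn M C (fun e => R (fun i => e (i + 1)) (e 0))) :
    Dfn M C (fun e => ∀ x ∈ A, R e x) := by
  refine (Dfn.all (R := fun e x => x ∈ A → R e x) ((Fcls (h.proj 0) hA).imp hR)).congr
    fun e _ => ?_
  exact ⟨fun H x _ hx => H x hx, fun H x hx => H x (h.classes A hA hx) hx⟩

theorem exC {A : Set ZFSet.{u}} (hA : A ∈ C) {R : (ℕ → ZFSet.{u}) → ZFSet.{u} → Prop}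
    (hR : Dfn M C (fun e => R (fun i => e (i + 1)) (e 0))) :
    Dfn M C (fun e => ∃ x ∈ A, R e x) := by
  refine (h.allC hA (R := fun e x => ¬ R e x) hR.not).not.congr fun e _ => ?_
  push Not; rfl

theorem allIn {f : (ℕ → ZFSet.{u}) → ZFSet.{u}} (hf : DfnF M C f)
    {R : (ℕ → ZFSet.{u}) → ZFSet.{u} → Prop}
    (hR : Dfn M C (fun e => R (fun i => e (i + 1)) (e 0))) :
    Dfn M C (fun e => ∀ x ∈ f e, R e x) := by
  refine (Dfn.all (R := fun e x => x ∈ f e → R e x) ((h.Fmem (h.proj 0) hf.shift).imp hR)).congr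
    fun e he => ?_
  exact ⟨fun H x _ hx => H x hx, fun H x hx => H x (h.transitive _ (hf.1 e he) _ hx) hx⟩

theorem exIn {f : (ℕ → ZFSet.{u}) → ZFSet.{u}} (hf : DfnF M C f)
    {R : (ℕ → ZFSet.{u}) → ZFSet.{u} → Prop}
    (hR : Dfn M C (fun e => R (fun i => e (i + 1)) (e 0))) :
    Dfn M C (fun e => ∃ x ∈ f e, R e x) := by
  refine (h.allIn hf (R := fun e x => ¬ R e x) hR.not).not.congr fun e _ => ?_
  push Not; rfl

/-- a function into `M` whose membership relation is definable is definable -/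
theorem F_of_mem {f : (ℕ → ZFSet.{u}) → ZFSet.{u}}
    (hM : ∀ e : ℕ → ZFSet.{u}, (∀ i, e i ∈ M) → f e ∈ M)
    (hf : Dfn M C (fun e => e 0 ∈ f (fun i => e (i + 1)))) : DfnF M C f := by
  refine ⟨hM, ?_⟩
  have h1 : Dfn M C (fun e => ∀ w ∈ M, (w ∈ e 0 ↔ w ∈ f (fun i => e (i + 1)))) := by
    refine h.allC h.univ_mem (R := fun e w => (w ∈ e 0 ↔ w ∈ f (fun i => e (i + 1)))) ?_
    exact (Dfn.mem0 0 1 h.univ_mem).iff (hf.rename (fun i => if i = 0 then 0 else i + 1))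
  refine h1.congr fun e he => ?_
  constructor
  · intro H w _; rw [H]
  · intro H
    ext w
    constructor
    · intro hw; exact (H w (h.transitive _ (he 0) _ hw)).1 hw
    · intro hw
      exact (H w (h.transitive _ (hM _ fun i => he _) _ hw)).2 hw

theorem const {a : ZFSet.{u}} (ha : a ∈ M) : DfnF M C (fun _ => a) := by
  refine h.F_of_mem (fun _ _ => ha) ?_
  have h1 : {x | x ∈ M ∧ x ∈ a} ∈ C := by
    obtain ⟨W, hW⟩ : ∃ W, W ∈ C := ⟨M, h.univ_mem⟩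
    have := h.comprehension (Fml.mem 0 1) (fun _ => a) (fun _ => M) (fun _ => ha)
      (fun _ => h.univ_mem)
    exact this
  exact h.of_cls h1 (h.proj 0)

theorem setC {a : ZFSet.{u}} (ha : a ∈ M) : {x | x ∈ a} ∈ C := by
  have h1 := h.cls1 (P := fun x => x ∈ a) (h.Fmem (h.proj 0) (h.const ha))
  have h2 : {x | x ∈ M ∧ x ∈ a} = {x | x ∈ a} := by
    ext x; exact ⟨fun H => H.2, fun H => ⟨h.transitive _ ha _ H, H⟩⟩
  rwa [h2] at h1

theorem upair_mem {x y : ZFSet.{u}} (hx : x ∈ M) (hy : y ∈ M) : ({x, y} : ZFSet.{u}) ∈ M :=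
  h.pairing x hx y hy

theorem singleton_mem {x : ZFSet.{u}} (hx : x ∈ M) : ({x} : ZFSet.{u}) ∈ M := by
  have := h.pairing x hx x hx
  rwa [pair_eq_singleton] at this

theorem pair_mem {x y : ZFSet.{u}} (hx : x ∈ M) (hy : y ∈ M) : pair x y ∈ M :=
  h.upair_mem (h.singleton_mem hx) (h.upair_mem hx hy)

theorem of_pair_mem {x y : ZFSet.{u}} (hxy : pair x y ∈ M) : x ∈ M ∧ y ∈ M := by
  have h1 : ({x, y} : ZFSet.{u}) ∈ M := h.transitive _ hxy _ (by simp [pair])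
  exact ⟨h.transitive _ h1 _ (by simp), h.transitive _ h1 _ (by simp)⟩

theorem of_pair_mem_mem {x y a : ZFSet.{u}} (ha : a ∈ M) (hxy : pair x y ∈ a) :
    x ∈ M ∧ y ∈ M := h.of_pair_mem (h.transitive _ ha _ hxy)

theorem Fupair {f g : (ℕ → ZFSet.{u}) → ZFSet.{u}} (hf : DfnF M C f) (hg : DfnF M C g) :
    DfnF M C (fun e => ({f e, g e} : ZFSet.{u})) := by
  refine h.F_of_mem (fun e he => h.upair_mem (hf.1 e he) (hg.1 e he)) ?_
  refine ((h.Feq (h.proj 0) hf.shift).or (h.Feq (h.proj 0) hg.shift)).congr fun e _ => ?_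
  exact mem_pair

theorem Fsingleton {f : (ℕ → ZFSet.{u}) → ZFSet.{u}} (hf : DfnF M C f) :
    DfnF M C (fun e => ({f e} : ZFSet.{u})) := by
  refine h.F_of_mem (fun e he => h.singleton_mem (hf.1 e he)) ?_
  exact (h.Feq (h.proj 0) hf.shift).congr fun e _ => mem_singleton

theorem Fpair {f g : (ℕ → ZFSet.{u}) → ZFSet.{u}} (hf : DfnF M C f) (hg : DfnF M C g) :
    DfnF M C (fun e => pair (f e) (g e)) :=
  h.Fupair (h.Fsingleton hf) (h.Fupair hf hg)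

theorem FsUnion {f : (ℕ → ZFSet.{u}) → ZFSet.{u}} (hf : DfnF M C f) :
    DfnF M C (fun e => ZFSet.sUnion (f e)) := by
  refine h.F_of_mem (fun e he => h.union _ (hf.1 e he)) ?_
  refine (h.exIn hf.shift (R := fun e z => e 0 ∈ z) (h.Fmem (h.proj 1) (h.proj 0))).congr
    fun e _ => ?_
  exact mem_sUnion

theorem union_mem {x y : ZFSet.{u}} (hx : x ∈ M) (hy : y ∈ M) : x ∪ y ∈ M := by
  rw [← sUnion_pair]; exact h.union _ (h.upair_mem hx hy)

theorem Funion {f g : (ℕ → ZFSet.{u}) → ZFSet.{u}} (hf : DfnF M C f) (hg : DfnF M C g) :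
    DfnF M C (fun e => f e ∪ g e) := by
  have := h.FsUnion (h.Fupair hf hg)
  simpa only [sUnion_pair] using this

theorem insert_mem {x y : ZFSet.{u}} (hx : x ∈ M) (hy : y ∈ M) :
    (insert x y : ZFSet.{u}) ∈ M := by
  rw [ZFSet.insert_eq]; exact h.union_mem (h.singleton_mem hx) hy

/-- separation in `M` -/
theorem sep_mem {A : Set ZFSet.{u}} (hA : A ∈ C) {a : ZFSet.{u}} (ha : a ∈ M) :
    ZFSet.sep (fun x => x ∈ A) a ∈ M := by
  have hF : {z | z ∈ M ∧ ∃ x ∈ A, z = pair x x} ∈ C :=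
    h.cls1 (P := fun z => ∃ x ∈ A, z = pair x x)
      (h.exC hA (R := fun e x => e 0 = pair x x) (h.Feq (h.proj 1) (h.Fpair (h.proj 0) (h.proj 0))))
  obtain ⟨b, hb, hb'⟩ := h.replacement _ hF (by
    rintro x y y' ⟨-, z, -, hz⟩ ⟨-, z', -, hz'⟩
    rw [pair_inj] at hz hz'
    rw [hz.2, hz'.2, ← hz.1, hz'.1]) a ha
  have : ZFSet.sep (fun x => x ∈ A) a = b := by
    ext x
    rw [ZFSet.mem_sep, hb']
    constructor
    · rintro ⟨hx, hxA⟩
      have hxM := h.classes A hA hxA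
      exact ⟨x, hx, h.pair_mem hxM hxM, x, hxA, rfl⟩
    · rintro ⟨z, hz, -, w, hw, hzw⟩
      rw [pair_inj] at hzw
      obtain ⟨rfl, rfl⟩ := hzw
      exact ⟨hz, hw⟩
  rw [this]; exact hb

theorem sep_mem' {P : ZFSet.{u} → Prop} (hP : Dfn M C (fun e => P (e 0))) {a : ZFSet.{u}}
    (ha : a ∈ M) : ZFSet.sep P a ∈ M := by
  have h1 := h.sep_mem (h.cls1 hP) ha
  have : ZFSet.sep (fun x => x ∈ {x | x ∈ M ∧ P x}) a = ZFSet.sep P a := by
    ext x
    simp only [ZFSet.mem_sep, Set.mem_ofPred_eq]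
    exact ⟨fun H => ⟨H.1, H.2.2⟩, fun H => ⟨H.1, h.transitive _ ha _ H.1, H.2⟩⟩
  rwa [this] at h1

/-- separation with parameters -/
theorem sep_mem'' {R : (ℕ → ZFSet.{u}) → Prop} (hR : Dfn M C R) (e : ℕ → ZFSet.{u})
    (he : ∀ i, e i ∈ M) {a : ZFSet.{u}} (ha : a ∈ M) :
    ZFSet.sep (fun x => R (cons x e)) a ∈ M := by
  have h1 := h.sep_mem (h.comp hR e he) ha
  have : ZFSet.sep (fun x => x ∈ {x | x ∈ M ∧ R (cons x e)}) a =
      ZFSet.sep (fun x => R (cons x e)) a := by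
    ext x
    simp only [ZFSet.mem_sep, Set.mem_ofPred_eq]
    exact ⟨fun H => ⟨H.1, H.2.2⟩, fun H => ⟨H.1, h.transitive _ ha _ H.1, H.2⟩⟩
  rwa [this] at h1

end IsGBC

/-- image of a set under a function -/
noncomputable def img (g : ZFSet.{u} → ZFSet.{u}) (a : ZFSet.{u}) : ZFSet.{u} :=
  ZFSet.range (fun x : a => g x.1)

theorem mem_img {g : ZFSet.{u} → ZFSet.{u}} {a y : ZFSet.{u}} :
    y ∈ img g a ↔ ∃ x ∈ a, y = g x := by
  unfold img
  rw [ZFSet.mem_range]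
  constructor
  · rintro ⟨⟨x, hx⟩, rfl⟩; exact ⟨x, hx, rfl⟩
  · rintro ⟨x, hx, rfl⟩; exact ⟨⟨x, hx⟩, rfl⟩

/-- power set relative to `M` -/
noncomputable def powM (M : Set ZFSet.{u}) (a : ZFSet.{u}) : ZFSet.{u} :=
  ZFSet.sep (fun x => x ∈ M) (powerset a)

theorem mem_powM {a x : ZFSet.{u}} : x ∈ powM M a ↔ x ∈ M ∧ x ⊆ a := by
  unfold powM
  rw [ZFSet.mem_sep, mem_powerset, and_comm]

namespace IsGBC

variable (h : IsGBC M C)
include h

/-- the image of a set under a class function (not necessarily total) given by a definable graph -/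
theorem repl {R : ZFSet.{u} → ZFSet.{u} → Prop} (hR : Dfn M C (fun e => R (e 0) (e 1)))
    (hfun : ∀ x ∈ M, ∀ y ∈ M, ∀ y' ∈ M, R x y → R x y' → y = y') {a : ZFSet.{u}} (ha : a ∈ M) :
    ∃ b ∈ M, ∀ y, y ∈ b ↔ y ∈ M ∧ ∃ x ∈ a, R x y := by
  have hF : {z | z ∈ M ∧ ∃ x ∈ M, ∃ y ∈ M, z = pair x y ∧ R x y} ∈ C := by
    refine h.cls1 (P := fun z => ∃ x ∈ M, ∃ y ∈ M, z = pair x y ∧ R x y) ?_
    refine h.exC h.univ_mem (R := fun e x => ∃ y ∈ M, e 0 = pair x y ∧ R x y) ?_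
    refine h.exC h.univ_mem (R := fun e y => e 1 = pair (e 0) y ∧ R (e 0) y) ?_
    exact (h.Feq (h.proj 2) (h.Fpair (h.proj 1) (h.proj 0))).and
      (comp2 hR (h.proj 1) (h.proj 0))
  obtain ⟨b, hb, hb'⟩ := h.replacement _ hF (by
    rintro x y y' ⟨-, z, hz, w, hw, hzw, hr⟩ ⟨-, z', hz', w', hw', hzw', hr'⟩
    rw [pair_inj] at hzw hzw'
    obtain ⟨rfl, rfl⟩ := hzw
    obtain ⟨rfl, rfl⟩ := hzw'
    exact hfun _ hz _ hw _ hw' hr hr') a ha
  refine ⟨b, hb, fun y => ?_⟩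
  rw [hb']
  constructor
  · rintro ⟨x, hx, -, z, hz, w, hw, hzw, hr⟩
    rw [pair_inj] at hzw
    obtain ⟨rfl, rfl⟩ := hzw
    exact ⟨hw, x, hx, hr⟩
  · rintro ⟨hy, x, hx, hr⟩
    have hxM := h.transitive _ ha _ hx
    exact ⟨x, hx, h.pair_mem hxM hy, x, hxM, y, hy, rfl, hr⟩

theorem img_mem {g : ZFSet.{u} → ZFSet.{u}} (hg : DfnF M C (fun e => g (e 0)))
    {a : ZFSet.{u}} (ha : a ∈ M) : img g a ∈ M := by
  have hgM : ∀ x ∈ M, g x ∈ M := fun x hx => hg.1 (fun _ => x) (fun _ => hx)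
  have hR : Dfn M C (fun e => e 1 = g (e 0)) :=
    hg.2.rename (fun i => if i = 0 then 1 else 0)
  obtain ⟨b, hb, hb'⟩ := h.repl (R := fun x y => y = g x) hR
    (fun x _ y _ y' _ h1 h2 => h1.trans h2.symm) ha
  have : img g a = b := by
    ext y
    rw [mem_img, hb']
    constructor
    · rintro ⟨x, hx, rfl⟩
      exact ⟨hgM x (h.transitive _ ha _ hx), x, hx, rfl⟩
    · rintro ⟨-, x, hx, rfl⟩; exact ⟨x, hx, rfl⟩
  rw [this]; exact hb

theorem Fimg {g : ZFSet.{u} → ZFSet.{u}} (hg : DfnF M C (fun e => g (e 0)))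
    {f : (ℕ → ZFSet.{u}) → ZFSet.{u}} (hf : DfnF M C f) : DfnF M C (fun e => img g (f e)) := by
  refine h.F_of_mem (fun e he => h.img_mem hg (hf.1 e he)) ?_
  refine (h.exIn hf.shift (R := fun e x => e 0 = g x)
    (h.Feq (h.proj 1) (compF1 hg (h.proj 0)))).congr fun e _ => mem_img

theorem powM_mem {a : ZFSet.{u}} (ha : a ∈ M) : powM M a ∈ M := by
  obtain ⟨y, hy, hy'⟩ := h.power a ha
  have : powM M a = y := by
    ext z; rw [mem_powM, hy']
  rw [this]; exact hy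

theorem Fsubset {f g : (ℕ → ZFSet.{u}) → ZFSet.{u}} (hf : DfnF M C f) (hg : DfnF M C g) :
    Dfn M C (fun e => f e ⊆ g e) :=
  (h.allIn hf (R := fun e x => x ∈ g e) (h.Fmem (h.proj 0) hg.shift)).congr fun e _ => Iff.rfl

theorem FpowM {f : (ℕ → ZFSet.{u}) → ZFSet.{u}} (hf : DfnF M C f) :
    DfnF M C (fun e => powM M (f e)) := by
  refine h.F_of_mem (fun e he => h.powM_mem (hf.1 e he)) ?_
  refine (h.Fsubset (h.proj 0) hf.shift).congr fun e he => ?_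
  rw [mem_powM]
  exact ⟨fun H => H.2, fun H => ⟨he 0, H⟩⟩

/-- cartesian products exist in `M` -/
theorem prod_mem {a b : ZFSet.{u}} (ha : a ∈ M) (hb : b ∈ M) : ZFSet.prod a b ∈ M := by
  have h1 : ∀ x ∈ M, img (fun y => pair x y) b ∈ M := fun x hx =>
    h.img_mem (h.Fpair (h.const hx) (h.proj 0)) hb
  have h2 : DfnF M C (fun e => img (fun y => pair (e 0) y) b) := by
    refine h.F_of_mem (fun e he => h1 _ (he 0)) ?_
    refine (h.exIn (h.const hb) (R := fun e y => e 0 = pair (e 1) y)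
      (h.Feq (h.proj 1) (h.Fpair (h.proj 2) (h.proj 0)))).congr fun e _ => mem_img
  have h3 := h.union _ (h.img_mem (g := fun x => img (fun y => pair x y) b) h2 ha)
  have : ZFSet.prod a b = ZFSet.sUnion (img (fun x => img (fun y => pair x y) b) a) := by
    ext z
    rw [mem_prod, mem_sUnion]
    constructor
    · rintro ⟨x, hx, y, hy, rfl⟩
      exact ⟨_, mem_img.2 ⟨x, hx, rfl⟩, mem_img.2 ⟨y, hy, rfl⟩⟩
    · rintro ⟨w, hw, hz⟩
      obtain ⟨x, hx, rfl⟩ := mem_img.1 hw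
      obtain ⟨y, hy, rfl⟩ := mem_img.1 hz
      exact ⟨x, hx, y, hy, rfl⟩
  rw [this]; exact h3

end IsGBC

end Pool.Agent.Helper98.CF
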