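import Pool.Agent.Helper98.CF.Forcing

set_option autoImplicit false
set_option linter.unusedVariables false
set_option linter.unusedSectionVars false

namespace Pool.Agent.Helper98.CF

open ZFSet

universe u

variable {M : Set ZFSet.{u}} {C : Set (Set ZFSet.{u})} {P R : Set ZFSet.{u}}

/-- pretameness -/
def Pretame (M : Set ZFSet.{u}) (C : Set (Set ZFSet.{u})) (P R : Set ZFSet.{u}) : Prop :=
  ∀ p ∈ P, ∀ I ∈ M, ∀ D ∈ C,
    (∀ i ∈ I, ∀ q, pair q p ∈ R → ∃ r, pair r q ∈ R ∧ pair i r ∈ D) →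
    ∃ q, pair q p ∈ R ∧ ∃ d ∈ M, (∀ z ∈ d, z ∈ D) ∧
      ∀ i ∈ I, ∀ r, pair r q ∈ R → ∃ s, pair i s ∈ d ∧ ∃ t, pair t s ∈ R ∧ pair t r ∈ R

/-- `q` decides `r` to be the least element of `D_i ∩ G` -/
def Dec (M R W D : Set ZFSet.{u}) (i q r : ZFSet.{u}) : Prop :=
  pair i r ∈ D ∧ pair q r ∈ R ∧
    ∀ r' ∈ seg M W r, pair i r' ∈ D → ∀ t ∈ M, ¬ (pair t q ∈ R ∧ pair t r' ∈ R)

/-- possible values below `q` -/
def BB (M R W D : Set ZFSet.{u}) (I : ZFSet.{u}) (q r : ZFSet.{u}) : Prop :=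
  ∃ i ∈ I, ∃ q' ∈ M, pair q' q ∈ R ∧ Dec M R W D i q' r

def Gd (M R W D : Set ZFSet.{u}) (I p x r : ZFSet.{u}) : Prop :=
  ∃ q ∈ M, ∃ σ ∈ M, x = pair q σ ∧ pair q p ∈ R ∧ BB M R W D I q r

/-- `r` is the least element with `Gd x r` outside of the range of `f` -/
def Lst (M R W D : Set ZFSet.{u}) (I p x f r : ZFSet.{u}) : Prop :=
  (Gd M R W D I p x r ∧ r ∉ rng M f) ∧
    ∀ r' ∈ seg M W r, ¬ (Gd M R W D I p x r' ∧ r' ∉ rng M f)

open Classical in
noncomputable def HH (M R W D : Set ZFSet.{u}) (I p x f : ZFSet.{u}) : ZFSet.{u} :=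
  if h : ∃ r ∈ M, Lst M R W D I p x f r then h.choose else ∅

section

variable (h : IsGBC M C) (hP : IsForcing C P R) {W : Set ZFSet.{u}} (hW : IsWO M C W)
  {D : Set ZFSet.{u}} (hD : D ∈ C)
include h hP hW hD

theorem dfn_Dec {f g k : (ℕ → ZFSet.{u}) → ZFSet.{u}} (hf : DfnF M C f) (hg : DfnF M C g)
    (hk : DfnF M C k) : Dfn M C (fun e => Dec M R W D (f e) (g e) (k e)) := by
  refine comp3 (P := fun x y z => Dec M R W D x y z) ?_ hf hg hk
  unfold Dec
  have := h.univ_mem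
  repeat' first
    | exact h.proj _
    | assumption
    | apply dfn_le h hP
    | apply h.allIn | apply h.exIn | apply h.allC | apply h.exC
    | apply Dfn.and | apply Dfn.or | apply Dfn.iff | apply Dfn.not | apply Dfn.imp
    | apply h.Feq | apply h.Fmem | apply IsGBC.Fcls | apply h.Fpair | apply Fseg h hW

variable {I : ZFSet.{u}} (hI : I ∈ M)
include hI

theorem dfn_BB {f g : (ℕ → ZFSet.{u}) → ZFSet.{u}} (hf : DfnF M C f) (hg : DfnF M C g) :
    Dfn M C (fun e => BB M R W D I (f e) (g e)) := by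
  refine comp2 (P := fun x y => BB M R W D I x y) ?_ hf hg
  unfold BB
  have := h.univ_mem
  have := h.const hI
  repeat' first
    | exact h.proj _
    | assumption
    | apply dfn_le h hP | apply dfn_Dec h hP hW hD
    | apply h.allIn | apply h.exIn | apply h.allC | apply h.exC
    | apply Dfn.and | apply Dfn.or | apply Dfn.iff | apply Dfn.not | apply Dfn.imp
    | apply h.Feq | apply h.Fmem | apply IsGBC.Fcls | apply h.Fpair | apply Fseg h hW

variable {p : ZFSet.{u}} (hp : p ∈ P)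
include hp

theorem dfn_Gd {f g : (ℕ → ZFSet.{u}) → ZFSet.{u}} (hf : DfnF M C f) (hg : DfnF M C g) :
    Dfn M C (fun e => Gd M R W D I p (f e) (g e)) := by
  refine comp2 (P := fun x y => Gd M R W D I p x y) ?_ hf hg
  unfold Gd
  have := h.univ_mem
  have := h.const (h.classes _ hP.carrier_mem hp)
  repeat' first
    | exact h.proj _
    | assumption
    | apply dfn_le h hP | apply dfn_BB h hP hW hD hI
    | apply h.allIn | apply h.exIn | apply h.allC | apply h.exC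
    | apply Dfn.and | apply Dfn.or | apply Dfn.iff | apply Dfn.not | apply Dfn.imp
    | apply h.Feq | apply h.Fmem | apply IsGBC.Fcls | apply h.Fpair | apply Fseg h hW

theorem dfn_Lst {f g k : (ℕ → ZFSet.{u}) → ZFSet.{u}} (hf : DfnF M C f) (hg : DfnF M C g)
    (hk : DfnF M C k) : Dfn M C (fun e => Lst M R W D I p (f e) (g e) (k e)) := by
  refine comp3 (P := fun x y z => Lst M R W D I p x y z) ?_ hf hg hk
  unfold Lst
  have := h.univ_mem
  repeat' first
    | exact h.proj _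
    | assumption
    | apply dfn_le h hP | apply dfn_Gd h hP hW hD hI hp
    | apply h.allIn | apply h.exIn | apply h.allC | apply h.exC
    | apply Dfn.and | apply Dfn.or | apply Dfn.iff | apply Dfn.not | apply Dfn.imp
    | apply h.Feq | apply h.Fmem | apply IsGBC.Fcls | apply h.Fpair | apply Fseg h hW
    | apply h.Frng

omit hP hD hI hp in
theorem Lst_unique {x f r r' : ZFSet.{u}} (hr : r ∈ M) (hr' : r' ∈ M)
    (h1 : Lst M R W D I p x f r) (h2 : Lst M R W D I p x f r') : r = r' := by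
  rcases wlt_total hW hr hr' with h3 | h3 | h3
  · exact absurd h1.1 (h2.2 r (mem_seg.2 ⟨hr, h3⟩))
  · exact h3
  · exact absurd h2.1 (h1.2 r' (mem_seg.2 ⟨hr', h3⟩))

omit hP hD hI hp in
theorem HH_eq {x f r : ZFSet.{u}} (hr : r ∈ M) :
    r = HH M R W D I p x f ↔ Lst M R W D I p x f r ∨
      (¬ (∃ r' ∈ M, Lst M R W D I p x f r') ∧ r = ∅) := by
  unfold HH
  by_cases hex : ∃ r' ∈ M, Lst M R W D I p x f r'
  · rw [dif_pos hex]
    have := hex.choose_spec
    constructor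
    · intro e; rw [e]; exact Or.inl this.2
    · rintro (h1 | h1)
      · exact Lst_unique h hW hr this.1 h1 this.2
      · exact absurd hex h1.1
  · rw [dif_neg hex]
    constructor
    · intro e; exact Or.inr ⟨hex, e⟩
    · rintro (h1 | h1)
      · exact absurd ⟨r, hr, h1⟩ hex
      · exact h1.2

theorem dfn_HH : DfnF M C (fun e => HH M R W D I p (e 0) (e 1)) := by
  refine ⟨fun e he => ?_, ?_⟩
  · dsimp only
    unfold HH
    split_ifs with hex
    · exact hex.choose_spec.1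
    · exact h.empty_mem
  · have h1 : Dfn M C (fun e => Lst M R W D I p (e 1) (e 2) (e 0) ∨
        (¬ (∃ r' ∈ M, Lst M R W D I p (e 1) (e 2) r') ∧ e 0 = ∅)) := by
      refine (dfn_Lst h hP hW hD hI hp (h.proj 1) (h.proj 2) (h.proj 0)).or
        (Dfn.and (Dfn.not ?_) (h.Feq (h.proj 0) (h.const h.empty_mem)))
      exact h.exC h.univ_mem (R := fun e r' => Lst M R W D I p (e 1) (e 2) r')
        (dfn_Lst h hP hW hD hI hp (h.proj 2) (h.proj 3) (h.proj 0))
    exact h1.congr fun e he => HH_eq h hW (he 0)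

end

section main

variable (h : IsGBC M C) (hP : IsForcing C P R) {W : Set ZFSet.{u}} (hW : IsWO M C W)
  {D : Set ZFSet.{u}} (hD : D ∈ C) {I : ZFSet.{u}} (hI : I ∈ M) {p : ZFSet.{u}} (hp : p ∈ P)
  (hdense : ∀ i ∈ I, ∀ q, pair q p ∈ R → ∃ r, pair r q ∈ R ∧ pair i r ∈ D)
include h hP hW hD hI hp hdense

omit hp in
/-- density of the deciding conditions -/
theorem dec_dense {i q : ZFSet.{u}} (hi : i ∈ I) (hq : pair q p ∈ R) :
    ∃ q' ∈ M, ∃ r ∈ M, pair q' q ∈ R ∧ Dec M R W D i q' r := by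
  have hiM := h.transitive _ hI _ hi
  have hqM := h.classes _ hP.carrier_mem (hP.left_mem hq)
  have hA : {r | r ∈ M ∧ (pair i r ∈ D ∧ ∃ t ∈ M, pair t r ∈ R ∧ pair t q ∈ R)} ∈ C := by
    refine h.cls1 (P := fun r => (pair i r ∈ D ∧ ∃ t ∈ M, pair t r ∈ R ∧ pair t q ∈ R)) ?_
    have := h.univ_mem
    have := h.const hiM
    have := h.const hqM
    repeat' first
      | exact h.proj _
      | assumption
      | apply dfn_le h hP
      | apply h.allIn | apply h.exIn | apply h.allC | apply h.exC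
      | apply Dfn.and | apply Dfn.or | apply Dfn.iff | apply Dfn.not | apply Dfn.imp
      | apply h.Feq | apply h.Fmem | apply IsGBC.Fcls | apply h.Fpair
  obtain ⟨s, hsq, hsD⟩ := hdense i hi q hq
  have hsP := hP.left_mem hsq
  have hsM := h.classes _ hP.carrier_mem hsP
  obtain ⟨r, ⟨hrM, hrD, t, htM, htr, htq⟩, hl⟩ := wlt_least h hW hA
    ⟨s, hsM, hsD, s, hsM, hP.refl s hsP, hsq⟩
  refine ⟨t, htM, r, hrM, htq, hrD, htr, ?_⟩
  intro r' hr' hr'D t' ht'M ht'
  obtain ⟨hr'M, hlt⟩ := mem_seg.1 hr'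
  have hmem : r' ∈ {r | r ∈ M ∧ (pair i r ∈ D ∧ ∃ t ∈ M, pair t r ∈ R ∧ pair t q ∈ R)} :=
    ⟨hr'M, hr'D, t', ht'M, ht'.2, hP.trans _ _ _ ht'.1 htq⟩
  have hne : r' ≠ r := by
    rintro rfl; exact wlt_irrefl hW hrM hlt
  exact wlt_irrefl hW hrM (wlt_trans hW hrM hr'M hrM (hl r' hmem hne) hlt)

variable (hno : ∀ q, pair q p ∈ R → ∀ d ∈ M, (∀ z ∈ d, z ∈ D) →
    ∃ i ∈ I, ∃ r, pair r q ∈ R ∧ ∀ s, pair i s ∈ d → ∀ t, ¬ (pair t s ∈ R ∧ pair t r ∈ R))
include hno

omit hp in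
theorem BB_unbounded {q b : ZFSet.{u}} (hq : pair q p ∈ R) (hb : b ∈ M) :
    ∃ r ∈ M, BB M R W D I q r ∧ r ∉ b := by
  by_contra hcon
  push Not at hcon
  have hd : ZFSet.sep (fun z => z ∈ D) (ZFSet.prod I b) ∈ M := h.sep_mem hD (h.prod_mem hI hb)
  obtain ⟨i, hi, r, hrq, hr⟩ := hno q hq _ hd (fun z hz => (ZFSet.mem_sep.1 hz).2)
  obtain ⟨q', hq'M, r0, hr0M, hq'r, hdec⟩ := dec_dense h hP hW hD hI hdense hi
    (hP.trans _ _ _ hrq hq)
  have hBB : BB M R W D I q r0 := ⟨i, hi, q', hq'M, hP.trans _ _ _ hq'r hrq, hdec⟩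
  have hr0b := hcon r0 hr0M hBB
  exact hr r0 (ZFSet.mem_sep.2 ⟨pair_mem_prod.2 ⟨hi, hr0b⟩, hdec.1⟩) q'
    ⟨hdec.2.1, hq'r⟩

/-- the function assigning to every pair `(q, σ)` a fresh possible value below `q` -/
theorem exists_gg : ∃ g : ZFSet.{u} → ZFSet.{u}, DfnF M C (fun e => g (e 0)) ∧
    (∀ q σ, σ ∈ M → pair q p ∈ R → BB M R W D I q (g (pair q σ))) ∧
    (∀ q σ q' σ', σ ∈ M → σ' ∈ M → pair q p ∈ R → pair q' p ∈ R →
      g (pair q σ) = g (pair q' σ') → σ = σ') := by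
  obtain ⟨g, hg, hrec⟩ := recursion h (pr := fun x => seg M W x) (Fseg h hW (h.proj 0))
    (H := fun x f => HH M R W D I p x f) (dfn_HH h hP hW hD hI hp) (seg_min h hW)
  have hgM : ∀ x ∈ M, g x ∈ M := fun x hx => hg.1 (fun _ => x) (fun _ => hx)
  have hPM := h.classes _ hP.carrier_mem
  -- the main property
  have key : ∀ q σ, σ ∈ M → pair q p ∈ R →
      Lst M R W D I p (pair q σ)
        (img (fun z => pair z (g z)) (seg M W (pair q σ))) (g (pair q σ)) := by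
    intro q σ hσ hq
    have hqM := hPM (hP.left_mem hq)
    have hxM := h.pair_mem hqM hσ
    set x := pair q σ with hx
    set f := img (fun z => pair z (g z)) (seg M W x) with hf
    have hfM : f ∈ M := h.img_mem (g := fun z => pair z (g z))
      (h.Fpair (f := fun e => e 0) (g := fun e => g (e 0)) (h.proj 0) hg) (seg_mem h hW hxM)
    have hA : {r | r ∈ M ∧ (Gd M R W D I p x r ∧ r ∉ rng M f)} ∈ C := by
      refine h.cls1 (P := fun r => Gd M R W D I p x r ∧ r ∉ rng M f) ?_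
      exact (dfn_Gd h hP hW hD hI hp (h.const hxM) (h.proj 0)).and
        (h.Fmem (h.proj 0) (h.Frng (h.const hfM))).not
    obtain ⟨r, hr, hrB, hrn⟩ := BB_unbounded h hP hW hD hI hdense hno hq (h.rng_mem hfM)
    obtain ⟨r0, hr0, hl⟩ := wlt_least h hW hA
      ⟨r, hr, ⟨q, hqM, σ, hσ, rfl, hq, hrB⟩, hrn⟩
    have hL : Lst M R W D I p x f r0 := by
      refine ⟨hr0.2, fun r' hr' hr'' => ?_⟩
      obtain ⟨hr'M, hlt⟩ := mem_seg.1 hr'
      have hne : r' ≠ r0 := by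
        rintro rfl; exact wlt_irrefl hW hr'M hlt
      exact wlt_irrefl hW hr0.1 (wlt_trans hW hr0.1 hr'M hr0.1
        (hl r' ⟨hr'M, hr''⟩ hne) hlt)
    have : r0 = g x := by
      rw [hrec x hxM]
      exact (HH_eq h hW hr0.1).2 (Or.inl hL)
    rwa [← this]
  have hfresh : ∀ q σ, σ ∈ M → pair q p ∈ R → ∀ z ∈ M, wlt W z (pair q σ) →
      g z ≠ g (pair q σ) := by
    intro q σ hσ hq z hz hlt e
    have := (key q σ hσ hq).1.2
    refine this (mem_rng.2 ⟨z, hz, mem_img.2 ⟨z, mem_seg.2 ⟨hz, hlt⟩, ?_⟩⟩)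
    rw [e]
  refine ⟨g, hg, ?_, ?_⟩
  · intro q σ hσ hq
    obtain ⟨q', _, σ', _, e, _, hB⟩ := (key q σ hσ hq).1.1
    rw [pair_inj] at e
    obtain ⟨rfl, rfl⟩ := e
    exact hB
  · intro q σ q' σ' hσ hσ' hq hq' e
    have hqM := hPM (hP.left_mem hq)
    have hq'M := hPM (hP.left_mem hq')
    rcases wlt_total hW (h.pair_mem hqM hσ) (h.pair_mem hq'M hσ') with h1 | h1 | h1
    · exact absurd e (hfresh q' σ' hσ' hq' _ (h.pair_mem hqM hσ) h1)
    · rw [pair_inj] at h1; exact h1.2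
    · exact absurd e.symm (hfresh q σ hσ hq _ (h.pair_mem hq'M hσ') h1)

end main

end Pool.Agent.Helper98.CF
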