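import Pool.Agent.Helper98.CF.Rec

set_option autoImplicit false

namespace Pool.Agent.Helper98.CF

open ZFSet

universe u

variable {M : Set ZFSet.{u}} {C : Set (Set ZFSet.{u})}

/-- the elements of `M` of rank at most the rank of `x` -/
noncomputable def lev (M : Set ZFSet.{u}) (x : ZFSet.{u}) : ZFSet.{u} :=
  ZFSet.sep (fun y => y ∈ M) (vonNeumann (Order.succ (rank x)))

theorem mem_lev {x y : ZFSet.{u}} : y ∈ lev M x ↔ y ∈ M ∧ rank y ≤ rank x := by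
  unfold lev
  rw [ZFSet.mem_sep, mem_vonNeumann, Order.lt_succ_iff, and_comm]

/-- range of a set of pairs -/
noncomputable def rng (M : Set ZFSet.{u}) (f : ZFSet.{u}) : ZFSet.{u} :=
  ZFSet.sep (fun v => ∃ z ∈ M, pair z v ∈ f) (ZFSet.sUnion (ZFSet.sUnion f))

theorem mem_rng {f v : ZFSet.{u}} : v ∈ rng M f ↔ ∃ z ∈ M, pair z v ∈ f := by
  unfold rng
  rw [ZFSet.mem_sep]
  constructor
  · rintro ⟨-, hv⟩; exact hv
  · rintro ⟨z, hz, hzv⟩
    refine ⟨?_, z, hz, hzv⟩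
    exact mem_sUnion.2 ⟨{z, v}, mem_sUnion.2 ⟨pair z v, hzv, by simp [pair]⟩, by simp⟩

namespace IsGBC

variable (h : IsGBC M C)
include h

theorem rng_mem {f : ZFSet.{u}} (hf : f ∈ M) : rng M f ∈ M := by
  refine h.sep_mem' (P := fun v => ∃ z ∈ M, pair z v ∈ f) ?_ (h.union _ (h.union _ hf))
  exact h.exC h.univ_mem (R := fun e z => pair z (e 0) ∈ f)
    (h.Fmem (h.Fpair (h.proj 0) (h.proj 1)) (h.const hf))

theorem Frng {f : (ℕ → ZFSet.{u}) → ZFSet.{u}} (hf : DfnF M C f) :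
    DfnF M C (fun e => rng M (f e)) := by
  refine h.F_of_mem (fun e he => h.rng_mem (hf.1 e he)) ?_
  simp only [mem_rng]
  exact h.exC h.univ_mem (R := fun e z => pair z (e 0) ∈ f (fun i => e (i + 1)))
    (h.Fmem (h.Fpair (h.proj 0) (h.proj 1)) hf.shift.shift)

omit h in
theorem mem_min (A : Set ZFSet.{u}) (hA : A.Nonempty) : ∃ x ∈ A, ∀ y ∈ A, y ∉ x := by
  obtain ⟨x, hx, hmin⟩ := ZFSet.mem_wf.has_min A hA
  exact ⟨x, hx, hmin⟩

theorem Flev {f : (ℕ → ZFSet.{u}) → ZFSet.{u}} (hf : DfnF M C f) :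
    DfnF M C (fun e => lev M (f e)) := by
  refine compF1 ?_ hf
  have hH : DfnF M C (fun e => powM M (ZFSet.sUnion (rng M (e 1)))) :=
    h.FpowM (h.FsUnion (h.Frng (h.proj 1)))
  obtain ⟨F, hF, hrec⟩ := recursion h (pr := fun x => x) (h.proj 0)
    (H := fun _ f => powM M (ZFSet.sUnion (rng M f))) hH
    (fun A _ hA => mem_min A hA)
  have hFM : ∀ x ∈ M, F x ∈ M := fun x hx => hF.1 (fun _ => x) (fun _ => hx)
  have key : ∀ x : ZFSet.{u}, x ∈ M → F x = lev M x := by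
    intro x
    refine ZFSet.inductionOn x ?_
    intro x ih hx
    rw [hrec x hx]
    ext y
    rw [mem_powM, mem_lev]
    refine and_congr_right fun hy => ?_
    rw [rank_le_iff, subset_def]
    refine forall_congr' fun w => forall_congr' fun hw => ?_
    have hwM := h.transitive _ hy _ hw
    rw [mem_sUnion, lt_rank_iff]
    constructor
    · rintro ⟨z, hz, hwz⟩
      obtain ⟨z', hz', hzz'⟩ := mem_rng.1 hz
      obtain ⟨x', hx', e⟩ := mem_img.1 hzz'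
      rw [pair_inj] at e
      obtain ⟨rfl, rfl⟩ := e
      rw [ih _ hx' (h.transitive _ hx _ hx'), mem_lev] at hwz
      exact ⟨_, hx', hwz.2⟩
    · rintro ⟨z, hz, hwz⟩
      have hzM := h.transitive _ hx _ hz
      refine ⟨F z, mem_rng.2 ⟨z, hzM, mem_img.2 ⟨z, hz, rfl⟩⟩, ?_⟩
      rw [ih _ hz hzM, mem_lev]
      exact ⟨hwM, hwz⟩
  refine ⟨fun e he => ?_, hF.2.congr fun e he => ?_⟩
  · change lev M (e 0) ∈ M
    rw [← key _ (he 0)]; exact hFM _ (he 0)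
  · change e 0 = lev M (e 1) ↔ e 0 = F (e 1)
    rw [key _ (he 1)]

theorem lev_mem {x : ZFSet.{u}} (hx : x ∈ M) : lev M x ∈ M :=
  (h.Flev (h.proj 0)).1 (fun _ => x) (fun _ => hx)

theorem rank_le_dfn {f g : (ℕ → ZFSet.{u}) → ZFSet.{u}} (hf : DfnF M C f) (hg : DfnF M C g) :
    Dfn M C (fun e => rank (f e) ≤ rank (g e)) :=
  (h.Fmem hf (h.Flev hg)).congr fun e he => by
    rw [mem_lev]; exact ⟨fun H => ⟨hf.1 e he, H⟩, fun H => H.2⟩

theorem rank_lt_dfn {f g : (ℕ → ZFSet.{u}) → ZFSet.{u}} (hf : DfnF M C f) (hg : DfnF M C g) :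
    Dfn M C (fun e => rank (f e) < rank (g e)) :=
  (h.rank_le_dfn hg hf).not.congr fun e _ => not_le.symm

end IsGBC

/-- the set-like global well-order obtained from `W`: first compare ranks -/
def wlt (W : Set ZFSet.{u}) (x y : ZFSet.{u}) : Prop :=
  rank x < rank y ∨ (rank x = rank y ∧ pair x y ∈ W)

/-- proper initial segments of `wlt` -/
noncomputable def seg (M W : Set ZFSet.{u}) (y : ZFSet.{u}) : ZFSet.{u} :=
  ZFSet.sep (fun x => wlt W x y) (lev M y)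

theorem mem_seg {W : Set ZFSet.{u}} {x y : ZFSet.{u}} : x ∈ seg M W y ↔ x ∈ M ∧ wlt W x y := by
  unfold seg
  rw [ZFSet.mem_sep, mem_lev]
  constructor
  · rintro ⟨⟨h1, _⟩, h3⟩; exact ⟨h1, h3⟩
  · rintro ⟨h1, h3⟩
    refine ⟨⟨h1, ?_⟩, h3⟩
    rcases h3 with h3 | h3
    · exact h3.le
    · exact h3.1.le

/-- a set-like class well-order of `M` -/
structure IsWO (M : Set ZFSet.{u}) (C : Set (Set ZFSet.{u})) (W : Set ZFSet.{u}) : Prop where
  mem : W ∈ C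
  irrefl : ∀ x ∈ M, pair x x ∉ W
  trans : ∀ x ∈ M, ∀ y ∈ M, ∀ z ∈ M, pair x y ∈ W → pair y z ∈ W → pair x z ∈ W
  total : ∀ x ∈ M, ∀ y ∈ M, pair x y ∈ W ∨ x = y ∨ pair y x ∈ W
  least : ∀ a ∈ M, a ≠ ∅ → ∃ x ∈ a, ∀ y ∈ a, y ≠ x → pair x y ∈ W

theorem IsGBC.exists_wo (h : IsGBC M C) : ∃ W, IsWO M C W := by
  obtain ⟨W, h1, h2, h3, h4, h5⟩ := h.global_wo
  exact ⟨W, h1, h2, h3, h4, h5⟩

section

variable (h : IsGBC M C) {W : Set ZFSet.{u}} (hW : IsWO M C W)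
include hW

theorem wlt_irrefl {x : ZFSet.{u}} (hx : x ∈ M) : ¬ wlt W x x := by
  rintro (h | h)
  · exact lt_irrefl _ h
  · exact hW.irrefl x hx h.2

theorem wlt_trans {x y z : ZFSet.{u}} (hx : x ∈ M) (hy : y ∈ M) (hz : z ∈ M)
    (hxy : wlt W x y) (hyz : wlt W y z) : wlt W x z := by
  rcases hxy with h1 | h1 <;> rcases hyz with h2 | h2
  · exact Or.inl (h1.trans h2)
  · exact Or.inl (h2.1 ▸ h1)
  · exact Or.inl (h1.1 ▸ h2)
  · exact Or.inr ⟨h1.1.trans h2.1, hW.trans x hx y hy z hz h1.2 h2.2⟩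

theorem wlt_total {x y : ZFSet.{u}} (hx : x ∈ M) (hy : y ∈ M) :
    wlt W x y ∨ x = y ∨ wlt W y x := by
  rcases lt_trichotomy (rank x) (rank y) with h | h | h
  · exact Or.inl (Or.inl h)
  · rcases hW.total x hx y hy with h' | h' | h'
    · exact Or.inl (Or.inr ⟨h, h'⟩)
    · exact Or.inr (Or.inl h')
    · exact Or.inr (Or.inr (Or.inr ⟨h.symm, h'⟩))
  · exact Or.inr (Or.inr (Or.inl h))

include h

theorem wlt_least {A : Set ZFSet.{u}} (hA : A ∈ C) (hne : A.Nonempty) :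
    ∃ x ∈ A, ∀ y ∈ A, y ≠ x → wlt W x y := by
  obtain ⟨x, hx, hmin⟩ := (InvImage.wf (fun x : ZFSet.{u} => rank x)
    Ordinal.lt_wf).has_min A hne
  have hxM := h.classes A hA hx
  set a : ZFSet.{u} := ZFSet.sep (fun y => y ∈ A) (lev M x) with ha
  have haM : a ∈ M := h.sep_mem hA (h.lev_mem hxM)
  have mema : ∀ y, y ∈ a ↔ (y ∈ M ∧ rank y ≤ rank x) ∧ y ∈ A := by
    intro y; rw [ha, ZFSet.mem_sep, mem_lev]
  have hane : a ≠ ∅ := by
    intro h0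
    have : x ∈ a := (mema x).2 ⟨⟨hxM, le_rfl⟩, hx⟩
    rw [h0] at this
    exact ZFSet.notMem_empty _ this
  obtain ⟨x0, hx0, hl⟩ := hW.least a haM hane
  have hx0' := (mema x0).1 hx0
  have hr : rank x0 = rank x := le_antisymm hx0'.1.2 (not_lt.1 (hmin x0 hx0'.2))
  refine ⟨x0, hx0'.2, fun y hy hne => ?_⟩
  rcases lt_or_eq_of_le (not_lt.1 (hmin y hy)) with h1 | h1
  · exact Or.inl (hr ▸ h1)
  · refine Or.inr ⟨hr.trans h1, hl y ((mema y).2 ⟨⟨h.classes A hA hy, h1.ge⟩, hy⟩) hne⟩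

theorem wlt_dfn {f g : (ℕ → ZFSet.{u}) → ZFSet.{u}} (hf : DfnF M C f) (hg : DfnF M C g) :
    Dfn M C (fun e => wlt W (f e) (g e)) := by
  unfold wlt
  refine (h.rank_lt_dfn hf hg).or ?_
  refine Dfn.and ?_ (IsGBC.Fcls (h.Fpair hf hg) hW.mem)
  exact ((h.rank_le_dfn hf hg).and (h.rank_le_dfn hg hf)).congr fun e _ =>
    ⟨fun H => ⟨H.le, H.ge⟩, fun H => le_antisymm H.1 H.2⟩

theorem seg_mem {y : ZFSet.{u}} (hy : y ∈ M) : seg M W y ∈ M :=
  h.sep_mem' (P := fun x => wlt W x y) (wlt_dfn h hW (h.proj 0) (h.const hy)) (h.lev_mem hy)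

theorem Fseg {f : (ℕ → ZFSet.{u}) → ZFSet.{u}} (hf : DfnF M C f) :
    DfnF M C (fun e => seg M W (f e)) := by
  refine h.F_of_mem (fun e he => seg_mem h hW (hf.1 e he)) ?_
  refine (wlt_dfn h hW (h.proj 0) hf.shift).congr fun e he => ?_
  rw [mem_seg]
  exact ⟨fun H => H.2, fun H => ⟨he 0, H⟩⟩

theorem seg_min : ∀ A ∈ C, A.Nonempty → ∃ x ∈ A, ∀ y ∈ A, y ∉ seg M W x := by
  intro A hA hne
  obtain ⟨x, hx, hl⟩ := wlt_least h hW hA hne
  have hxM := h.classes A hA hx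
  refine ⟨x, hx, fun y hy hyx => ?_⟩
  obtain ⟨hyM, hyx⟩ := mem_seg.1 hyx
  by_cases hxy : y = x
  · subst hxy; exact wlt_irrefl hW hxM hyx
  · exact wlt_irrefl hW hxM (wlt_trans hW hxM hyM hxM (hl y hy hxy) hyx)

end

end Pool.Agent.Helper98.CF
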