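import Pool.Agent.Helper98.CF.Model

set_option autoImplicit false

namespace Pool.Agent.Helper98.CF

open ZFSet

universe u

variable {M : Set ZFSet.{u}} {C : Set (Set ZFSet.{u})}

/-- restriction of a set of pairs to first coordinates in `b` -/
noncomputable def rs (M : Set ZFSet.{u}) (g b : ZFSet.{u}) : ZFSet.{u} :=
  ZFSet.sep (fun w => ∃ z ∈ b, ∃ v ∈ M, w = pair z v) g

theorem mem_rs {g b w : ZFSet.{u}} :
    w ∈ rs M g b ↔ w ∈ g ∧ ∃ z ∈ b, ∃ v ∈ M, w = pair z v := by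
  unfold rs; rw [ZFSet.mem_sep]

theorem IsGBC.rs_mem (h : IsGBC M C) {g b : ZFSet.{u}} (hg : g ∈ M) (hb : b ∈ M) :
    rs M g b ∈ M := by
  refine h.sep_mem' (P := fun w => ∃ z ∈ b, ∃ v ∈ M, w = pair z v) ?_ hg
  have := h.const hb
  have := h.univ_mem
  repeat' first
    | exact h.proj _
    | assumption
    | apply h.allIn | apply h.exIn | apply h.allC | apply h.exC
    | apply Dfn.and | apply Dfn.or | apply Dfn.iff | apply Dfn.not | apply Dfn.imp
    | apply h.Feq | apply h.Fmem | apply h.Fpair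

theorem IsGBC.Frs (h : IsGBC M C) {f g : (ℕ → ZFSet.{u}) → ZFSet.{u}} (hf : DfnF M C f)
    (hg : DfnF M C g) : DfnF M C (fun e => rs M (f e) (g e)) := by
  refine compF2 (F := fun x y => rs M x y) ?_ hf hg
  refine h.F_of_mem (fun e he => h.rs_mem (he 0) (he 1)) ?_
  simp only [mem_rs]
  have := h.univ_mem
  repeat' first
    | exact h.proj _
    | assumption
    | apply h.allIn | apply h.exIn | apply h.allC | apply h.exC
    | apply Dfn.and | apply Dfn.or | apply Dfn.iff | apply Dfn.not | apply Dfn.imp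
    | apply h.Feq | apply h.Fmem | apply h.Fpair

/-- set approximations to the recursively defined function -/
def Appr (M : Set ZFSet.{u}) (pr : ZFSet.{u} → ZFSet.{u})
    (H : ZFSet.{u} → ZFSet.{u} → ZFSet.{u}) (g : ZFSet.{u}) : Prop :=
  (∀ w ∈ g, ∃ y ∈ M, ∃ v ∈ M, w = pair y v) ∧
    ∀ y ∈ M, ∀ v ∈ M, pair y v ∈ g →
      v = H y (rs M g (pr y)) ∧ ∀ z ∈ pr y, ∃ u ∈ M, pair z u ∈ g

/-- minimal approximation containing `z` in its domain -/
def MinAppr (M : Set ZFSet.{u}) (pr : ZFSet.{u} → ZFSet.{u})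
    (H : ZFSet.{u} → ZFSet.{u} → ZFSet.{u}) (g z : ZFSet.{u}) : Prop :=
  Appr M pr H g ∧ (∃ v ∈ M, pair z v ∈ g) ∧
    ∀ g' ∈ M, Appr M pr H g' → (∃ v ∈ M, pair z v ∈ g') → g ⊆ g'

section

variable (h : IsGBC M C) {pr : ZFSet.{u} → ZFSet.{u}}
  (hpr : DfnF M C (fun e => pr (e 0)))
  {H : ZFSet.{u} → ZFSet.{u} → ZFSet.{u}} (hH : DfnF M C (fun e => H (e 0) (e 1)))
include h hpr hH

theorem dfn_Appr {f : (ℕ → ZFSet.{u}) → ZFSet.{u}} (hf : DfnF M C f) :
    Dfn M C (fun e => Appr M pr H (f e)) := by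
  refine comp1 (P := fun x => Appr M pr H x) ?_ hf
  unfold Appr
  have := h.univ_mem
  have h1 : ∀ {f : (ℕ → ZFSet.{u}) → ZFSet.{u}}, DfnF M C f → DfnF M C (fun e => pr (f e)) :=
    fun hf => compF1 hpr hf
  have h2 : ∀ {f g : (ℕ → ZFSet.{u}) → ZFSet.{u}}, DfnF M C f → DfnF M C g →
    DfnF M C (fun e => H (f e) (g e)) := fun hf hg => compF2 hH hf hg
  repeat' first
    | exact h.proj _
    | assumption
    | apply h.allIn | apply h.exIn | apply h.allC | apply h.exC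
    | apply Dfn.and | apply Dfn.or | apply Dfn.iff | apply Dfn.not | apply Dfn.imp
    | apply h.Feq | apply h.Fmem | apply h.Fpair | apply h.Frs | apply h1 | apply h2

theorem dfn_MinAppr {f g : (ℕ → ZFSet.{u}) → ZFSet.{u}} (hf : DfnF M C f)
    (hg : DfnF M C g) : Dfn M C (fun e => MinAppr M pr H (f e) (g e)) := by
  refine comp2 (P := fun x y => MinAppr M pr H x y) ?_ hf hg
  unfold MinAppr
  have := h.univ_mem
  repeat' first
    | exact h.proj _
    | assumption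
    | apply dfn_Appr h hpr hH | apply h.Fsubset
    | apply h.allIn | apply h.exIn | apply h.allC | apply h.exC
    | apply Dfn.and | apply Dfn.or | apply Dfn.iff | apply Dfn.not
    | apply Dfn.imp
    | apply h.Feq | apply h.Fmem | apply h.Fpair

omit hpr hH in
/-- induction along `pr` for definable predicates -/
theorem pr_induction
    (hmin : ∀ A ∈ C, A.Nonempty → ∃ x ∈ A, ∀ y ∈ A, y ∉ pr x)
    {Q : ZFSet.{u} → Prop} (hQ : Dfn M C (fun e => Q (e 0)))
    (hstep : ∀ x ∈ M, (∀ y ∈ M, y ∈ pr x → Q y) → Q x) : ∀ x ∈ M, Q x := by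
  by_contra hne
  push Not at hne
  obtain ⟨x, hx, hxQ⟩ := hne
  have hA : {x | x ∈ M ∧ ¬ Q x} ∈ C := h.cls1 (P := fun x => ¬ Q x) hQ.not
  obtain ⟨y, ⟨hy, hyQ⟩, hmin'⟩ := hmin _ hA ⟨x, hx, hxQ⟩
  refine hyQ (hstep y hy fun z hz hzy => ?_)
  by_contra hzQ
  exact hmin' z ⟨hz, hzQ⟩ hzy

theorem appr_unique
    (hmin : ∀ A ∈ C, A.Nonempty → ∃ x ∈ A, ∀ y ∈ A, y ∉ pr x) :
    ∀ y ∈ M, ∀ g ∈ M, ∀ g' ∈ M, ∀ v ∈ M, ∀ v' ∈ M, Appr M pr H g → Appr M pr H g' →
      pair y v ∈ g → pair y v' ∈ g' → v = v' := by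
  have hprM : ∀ x ∈ M, pr x ∈ M := fun x hx => hpr.1 (fun _ => x) (fun _ => hx)
  refine pr_induction h hmin (Q := fun y => ∀ g ∈ M, ∀ g' ∈ M, ∀ v ∈ M, ∀ v' ∈ M,
    Appr M pr H g → Appr M pr H g' → pair y v ∈ g → pair y v' ∈ g' → v = v') ?_ ?_
  · have := h.univ_mem
    repeat' first
      | exact h.proj _
      | assumption
      | apply dfn_Appr h hpr hH | apply h.Fsubset
      | apply h.allIn | apply h.exIn | apply h.allC | apply h.exC
      | apply Dfn.and | apply Dfn.or | apply Dfn.iff | apply Dfn.not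
      | apply Dfn.imp
      | apply h.Feq | apply h.Fmem | apply h.Fpair
  · intro y hy ih g hg g' hg' v hv v' hv' ha ha' hyv hyv'
    obtain ⟨e1, d1⟩ := ha.2 y hy v hv hyv
    obtain ⟨e2, d2⟩ := ha'.2 y hy v' hv' hyv'
    have : rs M g (pr y) = rs M g' (pr y) := by
      ext w
      rw [mem_rs, mem_rs]
      constructor
      · rintro ⟨hw, z, hz, u, hu, rfl⟩
        obtain ⟨u', hu', hzu'⟩ := d2 z hz
        have hzM := h.transitive _ (hprM y hy) _ hz
        have := ih z hzM hz g hg g' hg' u hu u' hu' ha ha' hw hzu'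
        subst this
        exact ⟨hzu', z, hz, u, hu, rfl⟩
      · rintro ⟨hw, z, hz, u, hu, rfl⟩
        obtain ⟨u', hu', hzu'⟩ := d1 z hz
        have hzM := h.transitive _ (hprM y hy) _ hz
        have := ih z hzM hz g hg g' hg' u' hu' u hu ha ha' hzu' hw
        subst this
        exact ⟨hzu', z, hz, u', hu, rfl⟩
    rw [e1, e2, this]

theorem appr_exists
    (hmin : ∀ A ∈ C, A.Nonempty → ∃ x ∈ A, ∀ y ∈ A, y ∉ pr x) :
    ∀ x ∈ M, ∃ g ∈ M, MinAppr M pr H g x := by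
  have hprM : ∀ x ∈ M, pr x ∈ M := fun x hx => hpr.1 (fun _ => x) (fun _ => hx)
  have hHM : ∀ x ∈ M, ∀ y ∈ M, H x y ∈ M := fun x hx y hy =>
    hH.1 (cons x (fun _ => y)) (cons_mem hx fun _ => hy)
  have huniq := appr_unique h hpr hH hmin
  refine pr_induction h hmin (Q := fun x => ∃ g ∈ M, MinAppr M pr H g x) ?_ ?_
  · exact h.exC h.univ_mem (R := fun e g => MinAppr M pr H g (e 0))
      (dfn_MinAppr h hpr hH (h.proj 0) (h.proj 1))
  · intro x hx ih
    obtain ⟨b, hb, hb'⟩ := h.repl (R := fun z g => MinAppr M pr H g z)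
      (dfn_MinAppr h hpr hH (h.proj 1) (h.proj 0))
      (fun z _ g hg g' hg' h1 h2 => by
        have s1 : g ⊆ g' := h1.2.2 g' hg' h2.1 h2.2.1
        have s2 : g' ⊆ g := h2.2.2 g hg h1.1 h1.2.1
        ext w; exact ⟨fun hw => s1 hw, fun hw => s2 hw⟩) (hprM x hx)
    set U : ZFSet.{u} := ZFSet.sUnion b with hU
    have hUM : U ∈ M := h.union b hb
    have memU : ∀ w, w ∈ U ↔ ∃ g ∈ M, (∃ z ∈ pr x, MinAppr M pr H g z) ∧ w ∈ g := by
      intro w
      rw [hU, mem_sUnion]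
      constructor
      · rintro ⟨g, hg, hw⟩
        obtain ⟨h1, h2⟩ := (hb' g).1 hg
        exact ⟨g, h1, h2, hw⟩
      · rintro ⟨g, h1, h2, hw⟩
        exact ⟨g, (hb' g).2 ⟨h1, h2⟩, hw⟩
    have domU : ∀ z ∈ pr x, ∃ v ∈ M, pair z v ∈ U := by
      intro z hz
      obtain ⟨g, hg, hgz⟩ := ih z (h.transitive _ (hprM x hx) _ hz) hz
      obtain ⟨v, hv, hzv⟩ := hgz.2.1
      exact ⟨v, hv, (memU _).2 ⟨g, hg, ⟨z, hz, hgz⟩, hzv⟩⟩
    have coh : ∀ y ∈ M, ∀ v ∈ M, ∀ v' ∈ M, pair y v ∈ U → pair y v' ∈ U → v = v' := by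
      intro y hy v hv v' hv' h1 h2
      obtain ⟨g, hg, ⟨z, _, hgz⟩, h1⟩ := (memU _).1 h1
      obtain ⟨g', hg', ⟨z', _, hgz'⟩, h2⟩ := (memU _).1 h2
      exact huniq y hy g hg g' hg' v hv v' hv' hgz.1 hgz'.1 h1 h2
    have hUa : Appr M pr H U := by
      refine ⟨?_, ?_⟩
      · intro w hw
        obtain ⟨g, hg, ⟨z, _, hgz⟩, h1⟩ := (memU _).1 hw
        exact hgz.1.1 w h1
      · intro y hy v hv hyv
        obtain ⟨g, hg, ⟨z, hz, hgz⟩, h1⟩ := (memU _).1 hyv
        obtain ⟨e1, d1⟩ := hgz.1.2 y hy v hv h1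
        refine ⟨?_, ?_⟩
        · have : rs M g (pr y) = rs M U (pr y) := by
            ext w
            rw [mem_rs, mem_rs]
            constructor
            · rintro ⟨hw, rest⟩
              exact ⟨(memU _).2 ⟨g, hg, ⟨z, hz, hgz⟩, hw⟩, rest⟩
            · rintro ⟨hw, y', hy', u, hu, rfl⟩
              obtain ⟨u', hu', hzu'⟩ := d1 y' hy'
              have hyM := h.transitive _ (hprM y hy) _ hy'
              have := coh y' hyM u hu u' hu' hw ((memU _).2 ⟨g, hg, ⟨z, hz, hgz⟩, hzu'⟩)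
              subst this
              exact ⟨hzu', y', hy', u, hu, rfl⟩
          rw [← this]; exact e1
        · intro y' hy'
          obtain ⟨u', hu', hzu'⟩ := d1 y' hy'
          exact ⟨u', hu', (memU _).2 ⟨g, hg, ⟨z, hz, hgz⟩, hzu'⟩⟩
    have Usub : ∀ g' ∈ M, Appr M pr H g' → (∃ v ∈ M, pair x v ∈ g') → U ⊆ g' := by
      rintro g' hg' ha ⟨v, hv, hxv⟩ w hw
      obtain ⟨g, hg, ⟨z, hz, hgz⟩, h1⟩ := (memU _).1 hw
      exact hgz.2.2 g' hg' ha ((ha.2 x hx v hv hxv).2 z hz) h1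
    by_cases hdx : ∃ v ∈ M, pair x v ∈ U
    · exact ⟨U, hUM, hUa, hdx, Usub⟩
    · set v0 := H x (rs M U (pr x)) with hv0
      have hv0M : v0 ∈ M := hHM x hx _ (h.rs_mem hUM (hprM x hx))
      have hxx : x ∉ pr x := fun hxx => hdx (domU x hxx)
      set g : ZFSet.{u} := insert (pair x v0) U with hg
      have hgM : g ∈ M := h.insert_mem (h.pair_mem hx hv0M) hUM
      have memg : ∀ w, w ∈ g ↔ w = pair x v0 ∨ w ∈ U := by
        intro w; rw [hg, mem_insert_iff]
      have rsg : ∀ y, x ∉ pr y → rs M g (pr y) = rs M U (pr y) := by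
        intro y hxy
        ext w
        rw [mem_rs, mem_rs, memg]
        constructor
        · rintro ⟨hw | hw, z, hz, u, hu, rfl⟩
          · rw [pair_inj] at hw
            exact absurd hz (hw.1 ▸ hxy)
          · exact ⟨hw, z, hz, u, hu, rfl⟩
        · rintro ⟨hw, rest⟩; exact ⟨Or.inr hw, rest⟩
      refine ⟨g, hgM, ⟨?_, ?_⟩, ⟨v0, hv0M, (memg _).2 (Or.inl rfl)⟩, ?_⟩
      · intro w hw
        rcases (memg w).1 hw with rfl | hw
        · exact ⟨x, hx, v0, hv0M, rfl⟩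
        · exact hUa.1 w hw
      · intro y hy v hv hyv
        rcases (memg _).1 hyv with e | hyv
        · rw [pair_inj] at e
          obtain ⟨rfl, rfl⟩ := e
          refine ⟨by rw [rsg _ hxx], ?_⟩
          intro z hz
          obtain ⟨u, hu, hzu⟩ := domU z hz
          exact ⟨u, hu, (memg _).2 (Or.inr hzu)⟩
        · obtain ⟨e1, d1⟩ := hUa.2 y hy v hv hyv
          have hxy : x ∉ pr y := fun hxy => hdx (d1 x hxy)
          refine ⟨by rw [rsg _ hxy]; exact e1, ?_⟩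
          intro z hz
          obtain ⟨u, hu, hzu⟩ := d1 z hz
          exact ⟨u, hu, (memg _).2 (Or.inr hzu)⟩
      · rintro g' hg' ha ⟨v, hv, hxv⟩ w hw
        have hsub := Usub g' hg' ha ⟨v, hv, hxv⟩
        rcases (memg w).1 hw with rfl | hw
        · obtain ⟨e1, d1⟩ := ha.2 x hx v hv hxv
          have : rs M U (pr x) = rs M g' (pr x) := by
            ext w
            rw [mem_rs, mem_rs]
            constructor
            · rintro ⟨hw, rest⟩; exact ⟨hsub hw, rest⟩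
            · rintro ⟨hw, z, hz, u, hu, rfl⟩
              obtain ⟨u', hu', hzu'⟩ := domU z hz
              have hzM := h.transitive _ (hprM x hx) _ hz
              have := huniq z hzM g' hg' U hUM u hu u' hu' ha hUa hw hzu'
              subst this
              exact ⟨hzu', z, hz, u, hu, rfl⟩
          have : v0 = v := by rw [hv0, this]; exact e1.symm
          rw [this]; exact hxv
        · exact hsub hw

/-- the recursion theorem -/
theorem recursion
    (hmin : ∀ A ∈ C, A.Nonempty → ∃ x ∈ A, ∀ y ∈ A, y ∉ pr x) :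
    ∃ F : ZFSet.{u} → ZFSet.{u}, DfnF M C (fun e => F (e 0)) ∧
      ∀ x ∈ M, F x = H x (img (fun z => pair z (F z)) (pr x)) := by
  classical
  have hprM : ∀ x ∈ M, pr x ∈ M := fun x hx => hpr.1 (fun _ => x) (fun _ => hx)
  have hex := appr_exists h hpr hH hmin
  have huniq := appr_unique h hpr hH hmin
  have key : ∀ x ∈ M, ∃ v ∈ M, ∃ g ∈ M, Appr M pr H g ∧ pair x v ∈ g := by
    intro x hx
    obtain ⟨g, hg, hga⟩ := hex x hx
    obtain ⟨v, hv, hxv⟩ := hga.2.1
    exact ⟨v, hv, g, hg, hga.1, hxv⟩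
  let F : ZFSet.{u} → ZFSet.{u} := fun x => if hx : x ∈ M then (key x hx).choose else ∅
  have hF : ∀ x (hx : x ∈ M), F x ∈ M ∧ ∃ g ∈ M, Appr M pr H g ∧ pair x (F x) ∈ g := by
    intro x hx
    have : F x = (key x hx).choose := dif_pos hx
    rw [this]
    exact (key x hx).choose_spec
  have hFu : ∀ x ∈ M, ∀ v ∈ M, (v = F x ↔ ∃ g ∈ M, Appr M pr H g ∧ pair x v ∈ g) := by
    intro x hx v hv
    obtain ⟨h1, g, hg, ha, hxg⟩ := hF x hx
    constructor
    · rintro rfl; exact ⟨g, hg, ha, hxg⟩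
    · rintro ⟨g', hg', ha', hxg'⟩
      exact huniq x hx g' hg' g hg v hv _ h1 ha' ha hxg' hxg
  refine ⟨F, ⟨fun e he => (hF _ (he 0)).1, ?_⟩, ?_⟩
  · refine (h.exC h.univ_mem (R := fun e g => Appr M pr H g ∧ pair (e 1) (e 0) ∈ g) ?_).congr
      fun e he => hFu _ (he 1) _ (he 0)
    exact (dfn_Appr h hpr hH (h.proj 0)).and (h.Fmem (h.Fpair (h.proj 2) (h.proj 1)) (h.proj 0))
  · intro x hx
    obtain ⟨h1, g, hg, ha, hxg⟩ := hF x hx
    obtain ⟨e1, d1⟩ := ha.2 x hx _ h1 hxg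
    have : rs M g (pr x) = img (fun z => pair z (F z)) (pr x) := by
      ext w
      rw [mem_rs, mem_img]
      constructor
      · rintro ⟨hw, z, hz, u, hu, rfl⟩
        have hzM := h.transitive _ (hprM x hx) _ hz
        refine ⟨z, hz, ?_⟩
        rw [(hFu z hzM u hu).2 ⟨g, hg, ha, hw⟩]
      · rintro ⟨z, hz, rfl⟩
        have hzM := h.transitive _ (hprM x hx) _ hz
        obtain ⟨u, hu, hzu⟩ := d1 z hz
        have := (hFu z hzM u hu).2 ⟨g, hg, ha, hzu⟩
        rw [← this]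
        exact ⟨hzu, z, hz, u, hu, rfl⟩
    rw [← this]; exact e1

end

end Pool.Agent.Helper98.CF
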