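import Pool.Agent.Helper98.CF.NonPretame

set_option autoImplicit false
set_option linter.unusedVariables false
set_option linter.unusedSectionVars false

namespace Pool.Agent.Helper98.CF

open ZFSet

universe u

variable {M : Set ZFSet.{u}} {C : Set (Set ZFSet.{u})} {P R : Set ZFSet.{u}}

/-- check names relative to a condition `p` -/
theorem exists_check (h : IsGBC M C) {p : ZFSet.{u}} (hp : p ∈ M) :
    ∃ F : ZFSet.{u} → ZFSet.{u}, DfnF M C (fun e => F (e 0)) ∧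
      ∀ x ∈ M, ∀ w, w ∈ F x ↔ ∃ y ∈ x, w = pair (F y) p := by
  have hH : DfnF M C (fun e => img (fun v => pair v p) (rng M (e 1))) :=
    h.Fimg (g := fun v => pair v p) (h.Fpair (h.proj 0) (h.const hp)) (h.Frng (h.proj 1))
  obtain ⟨F, hF, hrec⟩ := recursion h (pr := fun x => x) (h.proj 0)
    (H := fun _ f => img (fun v => pair v p) (rng M f)) hH
    (fun A _ hA => IsGBC.mem_min A hA)
  refine ⟨F, hF, fun x hx w => ?_⟩
  rw [hrec x hx, mem_img]
  constructor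
  · rintro ⟨v, hv, rfl⟩
    obtain ⟨z, hz, hzv⟩ := mem_rng.1 hv
    obtain ⟨y, hy, e⟩ := mem_img.1 hzv
    rw [pair_inj] at e
    exact ⟨y, hy, by rw [e.2]⟩
  · rintro ⟨y, hy, rfl⟩
    exact ⟨F y, mem_rng.2 ⟨y, h.transitive _ hx _ hy, mem_img.2 ⟨y, hy, rfl⟩⟩, rfl⟩

theorem check_val (h : IsGBC M C) {p : ZFSet.{u}} {F : ZFSet.{u} → ZFSet.{u}}
    (hF : ∀ x ∈ M, ∀ w, w ∈ F x ↔ ∃ y ∈ x, w = pair (F y) p) {G : Set ZFSet.{u}}
    (hpG : p ∈ G) : ∀ x, x ∈ M → val G (F x) = x := by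
  intro x
  refine ZFSet.inductionOn x ?_
  intro x ih hx
  ext y
  rw [mem_val]
  constructor
  · rintro ⟨z, q, hq, hz, rfl⟩
    obtain ⟨y, hy, e⟩ := (hF x hx _).1 hz
    rw [pair_inj] at e
    rw [e.1, ih y hy (h.transitive _ hx _ hy)]
    exact hy
  · intro hy
    exact ⟨F y, p, hpG, (hF x hx _).2 ⟨y, hy, rfl⟩, (ih y hy (h.transitive _ hx _ hy)).symm⟩

theorem check_name (h : IsGBC M C) {p : ZFSet.{u}} (hp : p ∈ P) {F : ZFSet.{u} → ZFSet.{u}}
    (hF : ∀ x ∈ M, ∀ w, w ∈ F x ↔ ∃ y ∈ x, w = pair (F y) p) :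
    ∀ x, x ∈ M → IsName P (F x) := by
  intro x
  refine ZFSet.inductionOn x ?_
  intro x ih hx
  refine IsName.mk _ (fun z hz => ?_) (fun y q hyq => ?_)
  · obtain ⟨y, hy, e⟩ := (hF x hx _).1 hz
    exact ⟨F y, p, hp, e⟩
  · obtain ⟨y', hy', e⟩ := (hF x hx _).1 hyq
    rw [pair_inj] at e
    rw [e.1]
    exact ih y' hy' (h.transitive _ hx _ hy')

/-- name for an unordered pair -/
noncomputable def up (p a b : ZFSet.{u}) : ZFSet.{u} := {pair a p, pair b p}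

theorem up_name {p a b : ZFSet.{u}} (hp : p ∈ P) (ha : IsName P a) (hb : IsName P b) :
    IsName P (up p a b) := by
  refine IsName.mk _ (fun z hz => ?_) (fun y q hyq => ?_)
  · rcases ZFSet.mem_pair.1 hz with rfl | rfl
    · exact ⟨a, p, hp, rfl⟩
    · exact ⟨b, p, hp, rfl⟩
  · rcases ZFSet.mem_pair.1 hyq with e | e <;> rw [pair_inj] at e
    · rw [e.1]; exact ha
    · rw [e.1]; exact hb

theorem up_val {p a b : ZFSet.{u}} {G : Set ZFSet.{u}} (hpG : p ∈ G) :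
    val G (up p a b) = {val G a, val G b} := by
  ext y
  rw [mem_val, ZFSet.mem_pair]
  constructor
  · rintro ⟨z, q, hq, hz, rfl⟩
    rcases ZFSet.mem_pair.1 hz with e | e <;> rw [pair_inj] at e
    · left; rw [e.1]
    · right; rw [e.1]
  · rintro (rfl | rfl)
    · exact ⟨a, p, hpG, ZFSet.mem_pair.2 (Or.inl rfl), rfl⟩
    · exact ⟨b, p, hpG, ZFSet.mem_pair.2 (Or.inr rfl), rfl⟩

/-- formula: `{v_0} ∈ V_0` -/
def fSing : Fml :=
  Fml.neg (Fml.all (Fml.neg (Fml.and (Fml.cls 0 0)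
    (Fml.all (Fml.and (Fml.neg (Fml.and (Fml.mem 0 1) (Fml.neg (Fml.eq 0 2))))
      (Fml.neg (Fml.and (Fml.eq 0 2) (Fml.neg (Fml.mem 0 1)))))))))

theorem sat_fSing {N : Set ZFSet.{u}} (hN : ∀ x ∈ N, ∀ y ∈ x, y ∈ N) {x : ZFSet.{u}}
    {e : ℕ → ZFSet.{u}} {E : ℕ → Set ZFSet.{u}} (hx : x ∈ N) (hE : E 0 ⊆ N) :
    Sat N fSing (cons x e) E ↔ ({x} : ZFSet.{u}) ∈ E 0 := by
  simp only [fSing, Sat, cons]
  push Not
  constructor
  · rintro ⟨z, hz, hzE, H⟩
    have : z = {x} := by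
      ext u
      rw [ZFSet.mem_singleton]
      constructor
      · intro hu
        exact (H u (hN z hz u hu)).1 hu
      · intro hu
        exact (H u (hu ▸ hx)).2 hu
    rwa [← this]
  · intro hz
    refine ⟨{x}, hE hz, hz, fun u _ => ⟨fun hu => ZFSet.mem_singleton.1 hu,
      fun hu => ZFSet.mem_singleton.2 hu⟩⟩

theorem Dec_unique {h : IsGBC M C} (hP : IsForcing C P R) {W D : Set ZFSet.{u}}
    (hW : IsWO M C W) {G : Set ZFSet.{u}} (hG : Generic C P R G) {i s s' r r' : ZFSet.{u}}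
    (hs : s ∈ G) (hs' : s' ∈ G) (hr : r ∈ M) (hr' : r' ∈ M) (h1 : Dec M R W D i s r)
    (h2 : Dec M R W D i s' r') : r = r' := by
  obtain ⟨t, ht, hts, hts'⟩ := hG.directed s hs s' hs'
  have htM := h.classes _ hP.carrier_mem (hG.sub ht)
  rcases wlt_total hW hr hr' with h3 | h3 | h3
  · exact absurd ⟨hts', hP.trans _ _ _ hts h1.2.1⟩
      (h2.2.2 r (mem_seg.2 ⟨hr, h3⟩) h1.1 t htM)
  · exact h3
  · exact absurd ⟨hts, hP.trans _ _ _ hts' h2.2.1⟩
      (h1.2.2 r' (mem_seg.2 ⟨hr', h3⟩) h2.1 t htM)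

theorem Dec_mono (hP : IsForcing C P R) {W D : Set ZFSet.{u}} {i s s' r : ZFSet.{u}}
    (h1 : Dec M R W D i s r) (hs : pair s' s ∈ R) : Dec M R W D i s' r :=
  ⟨h1.1, hP.trans _ _ _ hs h1.2.1, fun r' hr' hD t ht H =>
    h1.2.2 r' hr' hD t ht ⟨hP.trans _ _ _ H.1 hs, H.2⟩⟩

/-- **Preservation of Separation implies pretameness** (over models of GBC). -/
theorem pretame_of_preserves (h : IsGBC M C) (hP : IsForcing C P R) (hC : C.Countable)
    (hsep : PreservesSeparation M C P R) : Pretame M C P R := by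
  intro p hp I hI D hD hdense
  by_contra hcon
  have hno : ∀ q, pair q p ∈ R → ∀ d ∈ M, (∀ z ∈ d, z ∈ D) →
      ∃ i ∈ I, ∃ r, pair r q ∈ R ∧ ∀ s, pair i s ∈ d → ∀ t, ¬ (pair t s ∈ R ∧ pair t r ∈ R) := by
    intro q hq d hd hdD
    by_contra hc
    push Not at hc
    refine hcon ⟨q, hq, d, hd, hdD, fun i hi r hr => ?_⟩
    obtain ⟨s, hs, t, ht⟩ := hc i hi r hr
    exact ⟨s, hs, t, ht⟩
  obtain ⟨W, hW⟩ := h.exists_wo
  obtain ⟨g, hg, hg1, hg2⟩ := exists_gg h hP hW hD hI hp hdense hno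
  have hPM := h.classes _ hP.carrier_mem
  have hpM := hPM hp
  have hgM : ∀ x ∈ M, g x ∈ M := fun x hx => hg.1 (fun _ => x) (fun _ => hx)
  obtain ⟨F, hF, hFmem⟩ := exists_check h hpM
  have hFM : ∀ x ∈ M, F x ∈ M := fun x hx => hF.1 (fun _ => x) (fun _ => hx)
  obtain ⟨G, hG, hpG⟩ := exists_generic hP hC hp
  have hFval := check_val h hFmem hpG
  have hFname := check_name h hp hFmem
  -- `S r σ`: the value assigned to `r`
  let S : ZFSet.{u} → ZFSet.{u} → Prop := fun r σ => ∃ q ∈ M, pair q p ∈ R ∧ g (pair q σ) = r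
  have hSu : ∀ r, ∀ σ ∈ M, ∀ σ' ∈ M, S r σ → S r σ' → σ = σ' := by
    rintro r σ hσ σ' hσ' ⟨q, _, hq, e⟩ ⟨q', _, hq', e'⟩
    exact hg2 q σ q' σ' hσ hσ' hq hq' (e.trans e'.symm)
  have hSd : ∀ {f k : (ℕ → ZFSet.{u}) → ZFSet.{u}}, DfnF M C f → DfnF M C k →
      Dfn M C (fun e => S (f e) (k e)) := by
    intro f k hf hk
    refine comp2 (P := fun x y => S x y) ?_ hf hk
    have := h.univ_mem
    have := h.const hpM
    have hg' : ∀ {f : (ℕ → ZFSet.{u}) → ZFSet.{u}}, DfnF M C f → DfnF M C (fun e => g (f e)) :=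
      fun hf => compF1 hg hf
    dsimp only [S]
    repeat' first
      | exact h.proj _
      | assumption
      | apply dfn_le h hP
      | apply h.allIn | apply h.exIn | apply h.allC | apply h.exC
      | apply Dfn.and | apply Dfn.or | apply Dfn.iff | apply Dfn.not | apply Dfn.imp
      | apply h.Feq | apply h.Fmem | apply IsGBC.Fcls | apply h.Fpair | apply hg'
  -- the class name
  let Γ : Set ZFSet.{u} := {w | w ∈ M ∧ ∃ i ∈ I, ∃ π ∈ M, ∃ s ∈ M, ∃ r ∈ M, ∃ σ ∈ M, ∃ t ∈ M,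
    (w = pair {pair (F i) p, pair π p} s ∧ Dec M R W D i s r) ∧ (IsName P σ ∧ S r σ) ∧
      (pair π t ∈ σ ∧ pair s t ∈ R)}
  have hΓC : Γ ∈ C := by
    refine h.cls1 (P := fun w => ∃ i ∈ I, ∃ π ∈ M, ∃ s ∈ M, ∃ r ∈ M, ∃ σ ∈ M, ∃ t ∈ M,
      (w = pair {pair (F i) p, pair π p} s ∧ Dec M R W D i s r) ∧ (IsName P σ ∧ S r σ) ∧
      (pair π t ∈ σ ∧ pair s t ∈ R)) ?_
    have := h.univ_mem
    have := h.const hpM
    have := h.const hI
    have hF' : ∀ {f : (ℕ → ZFSet.{u}) → ZFSet.{u}}, DfnF M C f → DfnF M C (fun e => F (f e)) :=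
      fun hf => compF1 hF hf
    repeat' first
      | exact h.proj _
      | assumption
      | apply dfn_le h hP | apply dfn_Dec h hP hW hD | apply dfn_isName h hP.carrier_mem
      | apply hSd
      | apply h.allIn | apply h.exIn | apply h.allC | apply h.exC
      | apply Dfn.and | apply Dfn.or | apply Dfn.iff | apply Dfn.not | apply Dfn.imp
      | apply h.Feq | apply h.Fmem | apply IsGBC.Fcls | apply h.Fpair | apply h.Fupair
      | apply hF'
  have hΓn : IsClassName M P Γ := by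
    rintro w ⟨hwM, i, hi, π, hπ, s, hs, r, hr, σ, hσ, t, ht, ⟨rfl, hdec⟩, ⟨hn, hS⟩, hπt, hst⟩
    have hiM := h.transitive _ hI _ hi
    refine ⟨{pair (F i) p, pair π p}, ?_, ?_, s, hP.left_mem hdec.2.1, rfl⟩
    · exact h.upair_mem (h.pair_mem (hFM i hiM) hpM) (h.pair_mem hπ hpM)
    · exact up_name hp (hFname i hiM) (hn.elim.2 π t hπt)
  have hIext : I ∈ ext M P G := ⟨F I, hFM I hI, hFname I hI, (hFval I hI).symm⟩
  obtain ⟨b, hb, hbI⟩ := hsep G hG (Fml.neg fSing) (fun _ => I) (fun _ => valC G Γ)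
    (fun _ => hIext) (fun _ => ⟨Γ, hΓC, hΓn, rfl⟩) I hIext
  obtain ⟨τ, hτ, hτn, rfl⟩ := hb
  have htr : ∀ x ∈ ext M P G, ∀ y ∈ x, y ∈ ext M P G := fun x hx y hy =>
    ext_transitive h hx hy
  have hΓsub : valC G Γ ⊆ ext M P G := by
    rintro y ⟨σ, q, hq, hσq, rfl⟩
    obtain ⟨σ', hσ'M, hσ'n, q', hq', e⟩ := hΓn _ hσq
    rw [pair_inj] at e
    obtain ⟨rfl, rfl⟩ := e
    exact ⟨σ, hσ'M, hσ'n, rfl⟩
  have hbI' : ∀ i ∈ I, (i ∈ val G τ ↔ ({i} : ZFSet.{u}) ∉ valC G Γ) := by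
    intro i hi
    rw [hbI i]
    have h1 := sat_fSing (N := ext M P G) htr (x := i) (e := fun _ => I)
      (E := fun _ => valC G Γ) (htr I hIext i hi) hΓsub
    simp only [Sat]
    rw [h1]
    exact ⟨fun H => H.2, fun H => ⟨hi, H⟩⟩
  -- find `i` with value `τ`
  have hdn : ∀ t, pair t p ∈ R → ∃ t', pair t' t ∈ R ∧
      ∃ i ∈ I, ∃ r ∈ M, Dec M R W D i t' r ∧ S r τ := by
    intro q hq
    obtain ⟨i, hi, q', hq', hq'q, hdec⟩ := hg1 q τ hτ hq
    have hqM := hPM (hP.left_mem hq)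
    exact ⟨q', hq'q, i, hi, g (pair q τ), hgM _ (h.pair_mem hqM hτ), hdec, q, hqM, hq, rfl⟩
  have hdfn : Dfn M C (fun e => ∃ i ∈ I, ∃ r ∈ M, Dec M R W D i (e 0) r ∧ S r τ) := by
    have := h.univ_mem
    have := h.const hτ
    have := h.const hI
    repeat' first
      | exact h.proj _
      | assumption
      | apply dfn_le h hP | apply dfn_Dec h hP hW hD | apply hSd
      | apply h.allIn | apply h.exIn | apply h.allC | apply h.exC
      | apply Dfn.and | apply Dfn.or | apply Dfn.iff | apply Dfn.not | apply Dfn.imp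
      | apply h.Feq | apply h.Fmem | apply IsGBC.Fcls | apply h.Fpair | apply h.Fupair
  obtain ⟨s, hsG, ⟨i, hi, r, hr, hdec, hS⟩, hsp⟩ := hG.meets_below h hP
    (A := fun x => ∃ i ∈ I, ∃ r ∈ M, Dec M R W D i x r ∧ S r τ) hdfn hpG hdn
  have hiM := h.transitive _ hI _ hi
  have key : ({i} : ZFSet.{u}) ∈ valC G Γ ↔ i ∈ val G τ := by
    constructor
    · rintro ⟨ν, s', hs'G, ⟨_, j, hj, π, hπ, s'', hs'', r', hr', σ, hσ, t, ht,
        ⟨e, hdec'⟩, ⟨hn, hS'⟩, hπt, hst⟩, e'⟩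
      rw [pair_inj] at e
      obtain ⟨rfl, rfl⟩ := e
      have hjM := h.transitive _ hI _ hj
      have e2 := up_val (a := F j) (b := π) hpG
      unfold up at e2
      rw [e2, hFval j hjM] at e'
      have e3 := ZFSet.singleton_eq_pair_iff.1 e'
      obtain ⟨rfl, e4⟩ := e3
      have := Dec_unique (h := h) hP hW hG hsG hs'G hr hr' hdec hdec'
      subst this
      have := hSu r τ hτ σ hσ hS hS'
      subst this
      rw [mem_val]
      exact ⟨π, t, hG.upward _ hs'G _ hst, hπt, e4⟩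
    · intro hiτ
      obtain ⟨π, t, htG, hπt, e⟩ := mem_val.1 hiτ
      obtain ⟨hπM, htM⟩ := h.of_pair_mem_mem hτ hπt
      obtain ⟨s', hs'G, hs's, hs't⟩ := hG.directed s hsG t htG
      have hs'M := hPM (hG.sub hs'G)
      refine ⟨{pair (F i) p, pair π p}, s', hs'G, ⟨?_, i, hi, π, hπM, s', hs'M, r, hr, τ, hτ,
        t, htM, ⟨rfl, Dec_mono hP hdec hs's⟩, ⟨hτn, hS⟩, hπt, hs't⟩, ?_⟩
      · exact h.pair_mem (h.upair_mem (h.pair_mem (hFM i hiM) hpM) (h.pair_mem hπM hpM)) hs'M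
      · have e2 := up_val (a := F i) (b := π) hpG
        unfold up at e2
        rw [e2, hFval i hiM, ← e, ZFSet.pair_eq_singleton]
  have := hbI' i hi
  rw [key] at this
  exact (iff_not_self this).elim

end Pool.Agent.Helper98.CF
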